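import Pool.Agent.Lib.MP_d3cc86_co.SP.Defs

set_option autoImplicit false

open Finset

namespace SPR

lemma two_T (s : ℕ) : 2 * T s = s * (s + 1) := by
  unfold T
  exact Nat.mul_div_cancel' (Nat.even_mul_succ_self s).two_dvd

lemma T_succ (s : ℕ) : T (s + 1) = T s + (s + 1) := by
  have h1 := two_T s
  have h2 := two_T (s + 1)
  nlinarith

lemma le_T (s : ℕ) : s ≤ T s := by
  induction s with
  | zero => exact Nat.zero_le _
  | succ n ih => rw [T_succ]; omega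

lemma T_mono {s t : ℕ} (h : s ≤ t) : T s ≤ T t := by
  induction h with
  | refl => exact le_rfl
  | step _ ih => exact ih.trans (by rw [Nat.succ_eq_add_one, T_succ]; omega)

lemma T_zero : T 0 = 0 := rfl

/-- `8 (1 + T m) = (2m+1)^2 + 7`. -/
lemma eight_T (m : ℕ) : 8 * (1 + (T m : ℤ)) = (2 * (m : ℤ) + 1) ^ 2 + 7 := by
  have h : (2 * T m : ℤ) = (m : ℤ) * (m + 1) := by exact_mod_cast two_T m
  nlinarith

/-- explicit form of `φ_h(m)` for `h = 2r+1`, `m = r + (Q h + s)`. -/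
private lemma phi_form (r Q s : ℕ) (hs : s < 2 * r + 1) :
    phi (2 * r + 1) (r + (Q * (2 * r + 1) + s))
      = (2 * r + 1) * (1 + (2 * r + 1) * T Q + s * (Q + 1)) := by
  have e1 : r + (Q * (2 * r + 1) + s) - (2 * r + 1 - 1) / 2 = s + (2 * r + 1) * Q := by
    have : (2 * r + 1 - 1) / 2 = r := by omega
    rw [this]
    have : Q * (2 * r + 1) = (2 * r + 1) * Q := Nat.mul_comm _ _
    omega
  have e2 : (s + (2 * r + 1) * Q) / (2 * r + 1) = Q := by
    rw [Nat.add_mul_div_left _ _ (by omega : 0 < 2 * r + 1), Nat.div_eq_of_lt hs]; omega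
  have e3 : (s + (2 * r + 1) * Q) % (2 * r + 1) = s := by
    rw [Nat.add_mul_mod_self_left, Nat.mod_eq_of_lt hs]
  unfold phi
  rw [e1, e2, e3]

private lemma alpha_form (r Q s : ℕ) (hs : s < 2 * r + 1) :
    (2 * (r + (Q * (2 * r + 1) + s)) + 1 + (2 * r + 1)) / (2 * (2 * r + 1)) = Q + 1 := by
  have : 2 * (r + (Q * (2 * r + 1) + s)) + 1 + (2 * r + 1) = 2 * (s + (2 * r + 1) * (Q + 1)) := by
    ring
  rw [this, Nat.mul_div_mul_left _ _ (by norm_num : 0 < 2),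
    Nat.add_mul_div_left _ _ (by omega : 0 < 2 * r + 1), Nat.div_eq_of_lt hs]
  omega

/-- every `m` with `h ≤ 2 m + 1` has the form of `phi_form`. -/
private lemma exists_form (h m : ℕ) (hodd : h % 2 = 1) (hm : h ≤ 2 * m + 1) :
    ∃ r Q s : ℕ, h = 2 * r + 1 ∧ s < 2 * r + 1 ∧ m = r + (Q * (2 * r + 1) + s) := by
  refine ⟨h / 2, (m - h / 2) / h, (m - h / 2) % h, by omega, ?_, ?_⟩
  · have : 2 * (h / 2) + 1 = h := by omega
    rw [this]
    exact Nat.mod_lt _ (by omega)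
  · have h1 : 2 * (h / 2) + 1 = h := by omega
    rw [h1]
    have h2 := Nat.div_add_mod (m - h / 2) h
    have h3 : h * ((m - h / 2) / h) = (m - h / 2) / h * h := Nat.mul_comm _ _
    omega

/-- `h = 1`: `k = m`, `Q = m`, `s = 0`. -/
lemma phi_one (m : ℕ) : phi 1 m = 1 + T m := by
  unfold phi
  simp [Nat.mod_one]

/-- `k = 0`. -/
lemma phi_small (h m : ℕ) (hm : m ≤ (h - 1) / 2) : phi h m = h := by
  unfold phi
  have : m - (h - 1) / 2 = 0 := by omega
  rw [this, Nat.zero_div, Nat.zero_mod, T_zero]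
  ring

/-- `h` odd, `M = 2m+1 ≥ h`, `α = (M + h) / (2h)` (natural division), `y = M - 2 α h`:
`8 φ_h(m) = M^2 - y^2 + 8 h`.  Here `k = (M - h)/2 = Q h + s`, `α = Q + 1`, `y = 2 s - h`. -/
lemma phi_eq (h m : ℕ) (hodd : h % 2 = 1) (hm : h ≤ 2 * m + 1) :
    8 * (phi h m : ℤ) = (2 * (m : ℤ) + 1) ^ 2
      - (2 * (m : ℤ) + 1 - 2 * ((2 * m + 1 + h) / (2 * h) : ℕ) * h) ^ 2 + 8 * h := by
  obtain ⟨r, Q, s, rfl, hs, rfl⟩ := exists_form h m hodd hm
  rw [phi_form r Q s hs, alpha_form r Q s hs]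
  have hT : (2 : ℤ) * (T Q : ℤ) = (Q : ℤ) * (Q + 1) := by exact_mod_cast two_T Q
  push_cast
  linear_combination (4 * (2 * (r : ℤ) + 1) ^ 2) * hT

/-- One step, `M = 2 m + 1 ≥ h`: `φ_h(m + 1) ≤ φ_h(m) + α h`, `α = (2 (m+1) + 1 + h) / (2h)`.
With `k = m - (h-1)/2` and `k + 1 = Q h + s`, `α = Q + 1`; if `s ≥ 1` the increment is `h (Q + 1)`, if
`s = 0` it is `h Q`. -/
lemma phi_step (h m : ℕ) (hodd : h % 2 = 1) (hm : h ≤ 2 * m + 1) :
    phi h (m + 1) ≤ phi h m + (2 * m + 3 + h) / (2 * h) * h := by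
  obtain ⟨r, Q, s, rfl, hs, rfl⟩ := exists_form h m hodd hm
  rcases Nat.lt_or_ge (s + 1) (2 * r + 1) with h1 | h1
  · have e1 : r + (Q * (2 * r + 1) + s) + 1 = r + (Q * (2 * r + 1) + (s + 1)) := by ring
    have e2 : 2 * (r + (Q * (2 * r + 1) + s)) + 3 + (2 * r + 1)
        = 2 * (r + (Q * (2 * r + 1) + (s + 1))) + 1 + (2 * r + 1) := by ring
    rw [e1, e2, phi_form r Q s hs, phi_form r Q (s + 1) h1, alpha_form r Q (s + 1) h1]
    apply le_of_eq
    ring
  · have hs' : s = 2 * r := by omega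
    subst hs'
    have e1 : r + (Q * (2 * r + 1) + 2 * r) + 1 = r + ((Q + 1) * (2 * r + 1) + 0) := by ring
    have e2 : 2 * (r + (Q * (2 * r + 1) + 2 * r)) + 3 + (2 * r + 1)
        = 2 * (r + ((Q + 1) * (2 * r + 1) + 0)) + 1 + (2 * r + 1) := by ring
    rw [e1, e2, phi_form r Q _ hs, phi_form r (Q + 1) 0 (by omega),
      alpha_form r (Q + 1) 0 (by omega), T_succ]
    nlinarith [Nat.zero_le r, Nat.zero_le Q]

/-- Two steps, `2 m + 5 > h`: `φ_h(m + 2) ≤ φ_h(m) + 2 α h`, `α = (2 (m+2) + 1 + h) / (2h)`.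
If `h ≤ 2 m + 1`: `phi_step` twice (`α` is monotone).  If `2 m + 3 = h`: `φ_h(m) = h`,
`m + 1 = (h-1)/2`, `φ_h(m+1) = h`, and `φ_h(m+2) ≤ h + α h` by `phi_step`. -/
lemma phi_step2 (h m : ℕ) (hodd : h % 2 = 1) (hm : h < 2 * m + 5) :
    phi h (m + 2) ≤ phi h m + 2 * ((2 * m + 5 + h) / (2 * h)) * h := by
  rcases Nat.lt_or_ge (2 * m + 1) h with h1 | h1
  · have h2 : h = 2 * m + 3 := by omega
    have h3 := phi_step h (m + 1) hodd (by omega)
    rw [phi_small h (m + 1) (by omega)] at h3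
    rw [phi_small h m (by omega)]
    have e : 2 * (m + 1) + 3 + h = 2 * m + 5 + h := by ring
    rw [e] at h3
    have h4 : 2 * ((2 * m + 5 + h) / (2 * h)) * h
        = (2 * m + 5 + h) / (2 * h) * h + (2 * m + 5 + h) / (2 * h) * h := by ring
    rw [h4]
    exact h3.trans (by omega)
  · have h2 := phi_step h m hodd h1
    have h3 := phi_step h (m + 1) hodd (by omega)
    have e : 2 * (m + 1) + 3 + h = 2 * m + 5 + h := by ring
    rw [e] at h3
    have h5 : (2 * m + 3 + h) / (2 * h) ≤ (2 * m + 5 + h) / (2 * h) :=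
      Nat.div_le_div_right (by omega)
    have h6 := Nat.mul_le_mul_right h h5
    have h4 : 2 * ((2 * m + 5 + h) / (2 * h)) * h
        = (2 * m + 5 + h) / (2 * h) * h + (2 * m + 5 + h) / (2 * h) * h := by ring
    rw [h4]
    calc phi h (m + 2) = phi h (m + 1 + 1) := rfl
      _ ≤ phi h (m + 1) + (2 * m + 5 + h) / (2 * h) * h := h3
      _ ≤ phi h m + (2 * m + 3 + h) / (2 * h) * h + (2 * m + 5 + h) / (2 * h) * h := by omega
      _ ≤ _ := by omega

/-- `φ_1(m) = 1 + T m` grows by `m + 1` from `m` to `m + 1`. -/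
lemma phi_one_step (m : ℕ) : phi 1 (m + 1) = phi 1 m + (m + 1) := by
  rw [phi_one, phi_one, T_succ]; ring

/-- `k = m - (q-1)/2 = Q q + s`; if `Q = 0` then `φ_q(m) = q (1 + k)`; if `Q ≥ 1` then
`1 + k ≥ q ≥ p` and the right side is `q p`. -/
lemma phi_q (p q m : ℕ) (hpq : p ≤ q) :
    min (phi q m) (p * q) ≤ q * min p (1 + (m - (q - 1) / 2)) := by
  rcases Nat.lt_or_ge (m - (q - 1) / 2) q with h1 | h1
  · have e : phi q m = q * (1 + (m - (q - 1) / 2)) := by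
      unfold phi
      rw [Nat.div_eq_of_lt h1, Nat.mod_eq_of_lt h1, T_zero]
      ring
    rw [e]
    rcases le_total p (1 + (m - (q - 1) / 2)) with h2 | h2
    · rw [min_eq_left h2]
      exact (min_le_right _ _).trans (le_of_eq (Nat.mul_comm _ _))
    · rw [min_eq_right h2]
      exact min_le_left _ _
  · have h2 : min p (1 + (m - (q - 1) / 2)) = p := min_eq_left (by omega)
    rw [h2]
    exact (min_le_right _ _).trans (le_of_eq (Nat.mul_comm _ _))

/-- For `m ≤ (n-1)/2`, `φ_n(m) = n`. -/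
lemma phi_n (n m : ℕ) (hm : m ≤ (n - 1) / 2) : phi n m = n := phi_small n m hm

end SPR
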