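import Pool.Agent.Lib.MP_d3cc86_co.SP.Defs

section

set_option autoImplicit false

open Finset

namespace SPR

private theorem degP_C1 {F : Type*} [Field F] {d : ℕ} (m : MonomialOrder (Fin d))
    (S : Finset F) (i : Fin d) :
    m.degree (∏ r ∈ S, ((MvPolynomial.X i : MvPolynomial (Fin d) F) - MvPolynomial.C r)) =
      Finsupp.single i S.card := by
  rw [MonomialOrder.degree_prod_of_regular]
  · simp [Finset.sum_congr rfl (fun r _ => m.degree_X_sub_C i r)]
  · intro r _
    rw [m.monic_X_sub_C]
    exact isRegular_one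

private theorem monicP_C1 {F : Type*} [Field F] {d : ℕ} (m : MonomialOrder (Fin d))
    (S : Finset F) (i : Fin d) :
    m.Monic (∏ r ∈ S, ((MvPolynomial.X i : MvPolynomial (Fin d) F) - MvPolynomial.C r)) :=
  MonomialOrder.Monic.prod (fun r _ => m.monic_X_sub_C i r)

/-- the coefficient of the full product at `t` is `1` -/
private theorem coeff_prod_C1 {F : Type*} [Field F] {d : ℕ} (S : Fin d → Finset F)
    (t : Fin d →₀ ℕ) (hS : ∀ i, (S i).card = t i) :
    (∏ i, ∏ r ∈ S i, ((MvPolynomial.X i : MvPolynomial (Fin d) F) - MvPolynomial.C r)).coeff t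
      = 1 := by
  have m : MonomialOrder (Fin d) := MonomialOrder.lex
  have hmon : m.Monic (∏ i, ∏ r ∈ S i,
      ((MvPolynomial.X i : MvPolynomial (Fin d) F) - MvPolynomial.C r)) :=
    MonomialOrder.Monic.prod (fun i _ => monicP_C1 m (S i) i)
  have hdeg : m.degree (∏ i, ∏ r ∈ S i,
      ((MvPolynomial.X i : MvPolynomial (Fin d) F) - MvPolynomial.C r)) = t := by
    rw [MonomialOrder.degree_prod_of_regular]
    · rw [Finset.sum_congr rfl (fun i _ => degP_C1 m (S i) i)]
      ext j
      rw [Finsupp.finsetSum_apply]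
      rw [Finset.sum_eq_single j]
      · rw [Finsupp.single_eq_same, hS]
      · intro i _ hij
        exact Finsupp.single_eq_of_ne hij.symm
      · intro h
        exact absurd (Finset.mem_univ j) h
    · intro i _
      rw [monicP_C1 m (S i) i]
      exact isRegular_one
  have h1 := hmon
  unfold MonomialOrder.Monic MonomialOrder.leadingCoeff at h1
  rw [hdeg] at h1
  exact h1

/-- Converse use of the Combinatorial Nullstellensatz: if `deg f ≤ ∑ t_i`, `|S_i| = t_i + 1` and
`f` is nonzero at exactly one point `x` of the grid `∏ S_i`, then the coefficient of `∏ X_i^{t_i}`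
in `f` is nonzero.

Proof.  Put `g = C κ * ∏_i ∏_{y ∈ (S i).erase (x i)} (X i - C y)` with
`κ = eval x f / ∏_i ∏_{y ∈ (S i).erase (x i)} (x i - y)`, so `κ ≠ 0`.  `g` has total degree
`≤ ∑ t_i`, its coefficient at `t` is `κ`, and `f - g` vanishes on the whole grid.  If the
coefficient of `f` at `t` were `0`, the coefficient of `f - g` at `t` would be `-κ ≠ 0`, so
`(f - g).totalDegree = t.degree` and
`MvPolynomial.combinatorial_nullstellensatz_exists_eval_nonzero` gives a grid point where `f - g`
does not vanish: contradiction. -/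
theorem coeff_ne_zero_of_unique {F : Type*} [Field F] [DecidableEq F] {d : ℕ}
    (f : MvPolynomial (Fin d) F) (S : Fin d → Finset F) (t : Fin d →₀ ℕ)
    (hS : ∀ i, (S i).card = t i + 1) (hdeg : f.totalDegree ≤ ∑ i, t i)
    (x : Fin d → F) (hx : ∀ i, x i ∈ S i) (hfx : MvPolynomial.eval x f ≠ 0)
    (huniq : ∀ y : Fin d → F, (∀ i, y i ∈ S i) → y ≠ x → MvPolynomial.eval y f = 0) :
    f.coeff t ≠ 0 := by
  intro hft
  set g : MvPolynomial (Fin d) F :=
    ∏ i, ∏ r ∈ (S i).erase (x i), (MvPolynomial.X i - MvPolynomial.C r) with hg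
  have hcard : ∀ i, ((S i).erase (x i)).card = t i := by
    intro i
    rw [Finset.card_erase_of_mem (hx i), hS i]
    rfl
  have hgcoeff : g.coeff t = 1 := coeff_prod_C1 _ t hcard
  have hgdeg : g.totalDegree ≤ ∑ i, t i := by
    refine (MvPolynomial.totalDegree_finsetProd _ _).trans ?_
    refine Finset.sum_le_sum fun i _ => ?_
    refine (MvPolynomial.totalDegree_finsetProd _ _).trans ?_
    rw [← hcard i, Finset.card_eq_sum_ones]
    refine Finset.sum_le_sum fun r _ => ?_
    refine (MvPolynomial.totalDegree_sub _ _).trans ?_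
    rw [MvPolynomial.totalDegree_X, MvPolynomial.totalDegree_C]
    exact le_rfl
  have hev : ∀ y : Fin d → F, MvPolynomial.eval y g =
      ∏ i, ∏ r ∈ (S i).erase (x i), (y i - r) := by
    intro y
    rw [hg, map_prod]
    refine Finset.prod_congr rfl fun i _ => ?_
    rw [map_prod]
    refine Finset.prod_congr rfl fun r _ => ?_
    simp
  have hgx : MvPolynomial.eval x g ≠ 0 := by
    rw [hev]
    refine Finset.prod_ne_zero_iff.2 fun i _ => ?_
    refine Finset.prod_ne_zero_iff.2 fun r hr => ?_
    rw [sub_ne_zero]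
    exact (Finset.ne_of_mem_erase hr).symm
  have hgy : ∀ y : Fin d → F, (∀ i, y i ∈ S i) → y ≠ x → MvPolynomial.eval y g = 0 := by
    intro y hy hyx
    obtain ⟨i, hi⟩ : ∃ i, y i ≠ x i := by
      by_contra hcon
      push Not at hcon
      exact hyx (funext hcon)
    rw [hev]
    refine Finset.prod_eq_zero (Finset.mem_univ i) ?_
    refine Finset.prod_eq_zero (Finset.mem_erase.2 ⟨hi, hy i⟩) ?_
    exact sub_self _
  set κ : F := MvPolynomial.eval x f / MvPolynomial.eval x g with hκ
  have hκ0 : κ ≠ 0 := div_ne_zero hfx hgx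
  set h : MvPolynomial (Fin d) F := f - MvPolynomial.C κ * g with hh
  have hhcoeff : h.coeff t = -κ := by
    rw [hh, MvPolynomial.coeff_sub, MvPolynomial.coeff_C_mul, hft, hgcoeff]
    ring
  have hhc0 : h.coeff t ≠ 0 := by
    rw [hhcoeff]
    exact neg_ne_zero.2 hκ0
  have hdegt : t.degree = ∑ i, t i := Finsupp.degree_eq_sum t
  have hhdeg : h.totalDegree = t.degree := by
    apply le_antisymm
    · rw [hdegt]
      refine (MvPolynomial.totalDegree_sub _ _).trans (max_le hdeg ?_)
      refine (MvPolynomial.totalDegree_mul _ _).trans ?_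
      rw [MvPolynomial.totalDegree_C, zero_add]
      exact hgdeg
    · have h1 := MvPolynomial.le_totalDegree (MvPolynomial.mem_support_iff.2 hhc0)
      refine le_trans (le_of_eq ?_) h1
      rfl
  obtain ⟨s, hs, hse⟩ := MvPolynomial.combinatorial_nullstellensatz_exists_eval_nonzero h t hhc0
    hhdeg S (fun i => by rw [hS i]; exact Nat.lt_succ_self _)
  apply hse
  by_cases hsx : s = x
  · rw [hsx, hh, map_sub, map_mul, MvPolynomial.eval_C, hκ, div_mul_cancel₀ _ hgx, sub_self]
  · rw [hh, map_sub, map_mul, huniq s hs hsx, hgy s hs hsx, mul_zero, sub_zero]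

end SPR
end

section

section

set_option autoImplicit false

open Finset

namespace SPR

private theorem sum_range_le_C2a (s : Finset ℕ) : ∑ i ∈ Finset.range s.card, i ≤ ∑ x ∈ s, x := by
  induction s using Finset.induction_on_max with
  | empty => simp
  | insert a s ha ih =>
    have hn : a ∉ s := fun h => lt_irrefl _ (ha a h)
    rw [Finset.card_insert_of_notMem hn, Finset.sum_range_succ, Finset.sum_insert hn]
    have h1 : s.card ≤ a := by
      have h2 : s ⊆ Finset.range a := fun x hx => Finset.mem_range.2 (ha x hx)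
      simpa using Finset.card_le_card h2
    omega

private theorem sum_inj_C2a (j : ℕ) (a : Fin j → ℕ) (ha : Function.Injective a) :
    ∑ i : Fin j, (i : ℕ) ≤ ∑ i, a i := by
  have h1 := sum_range_le_C2a (Finset.univ.image a)
  rw [Finset.card_image_of_injective _ ha, Finset.card_univ, Fintype.card_fin,
    Finset.sum_image (fun x _ y _ h => ha h)] at h1
  rw [Fin.sum_univ_eq_sum_range (fun i => i) j]
  exact h1

private theorem natCast_inj_C2a {q a b : ℕ} (ha : a < q) (hb : b < q)
    (h : ((a : ℕ) : ZMod q) = ((b : ℕ) : ZMod q)) : a = b := by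
  have h1 := (ZMod.natCast_eq_natCast_iff' a b q).1 h
  rwa [Nat.mod_eq_of_lt ha, Nat.mod_eq_of_lt hb] at h1

private theorem prod_sub_C2a {F : Type*} [Field F] [DecidableEq F] {d : ℕ}
    (s : MvPolynomial (Fin d) F) (hs : s.totalDegree ≤ 1) (A : Finset F) :
    ∃ r : MvPolynomial (Fin d) F, ∏ c ∈ A, (s - MvPolynomial.C c) = s ^ A.card + r ∧
      (r = 0 ∨ r.totalDegree < A.card) := by
  induction A using Finset.induction_on with
  | empty => exact ⟨0, by simp, Or.inl rfl⟩
  | insert c A hc ih =>
    obtain ⟨r, hr, hd⟩ := ih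
    refine ⟨s * r - MvPolynomial.C c * s ^ A.card - MvPolynomial.C c * r, ?_, Or.inr ?_⟩
    · rw [Finset.prod_insert hc, hr, Finset.card_insert_of_notMem hc]
      ring
    · rw [Finset.card_insert_of_notMem hc, Nat.lt_succ_iff]
      have hpow : (s ^ A.card).totalDegree ≤ A.card := by
        refine (MvPolynomial.totalDegree_pow _ _).trans ?_
        calc A.card * s.totalDegree ≤ A.card * 1 := Nat.mul_le_mul_left _ hs
          _ = A.card := mul_one _
      have h2 : (MvPolynomial.C c * s ^ A.card).totalDegree ≤ A.card := by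
        refine (MvPolynomial.totalDegree_mul _ _).trans ?_
        rw [MvPolynomial.totalDegree_C, zero_add]
        exact hpow
      have h3 : (MvPolynomial.C c * r).totalDegree ≤ A.card := by
        refine (MvPolynomial.totalDegree_mul _ _).trans ?_
        rw [MvPolynomial.totalDegree_C, zero_add]
        rcases hd with h | h
        · rw [h, MvPolynomial.totalDegree_zero]
          exact Nat.zero_le _
        · exact h.le
      have h1 : (s * r).totalDegree ≤ A.card := by
        rcases hd with h | h
        · rw [h, mul_zero, MvPolynomial.totalDegree_zero]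
          exact Nat.zero_le _
        · refine (MvPolynomial.totalDegree_mul _ _).trans ?_
          omega
      refine (MvPolynomial.totalDegree_sub _ _).trans (max_le ?_ h3)
      exact (MvPolynomial.totalDegree_sub _ _).trans (max_le h1 h2)

private noncomputable def vd_C2a (F : Type*) [Field F] (d : ℕ) : MvPolynomial (Fin d) F :=
  ∏ k : Fin d, ∏ i ∈ Finset.Iio k, (MvPolynomial.X k - MvPolynomial.X i)

private theorem vd_deg_C2a (F : Type*) [Field F] (d : ℕ) :
    (vd_C2a F d).totalDegree ≤ ∑ i : Fin d, (i : ℕ) := by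
  unfold vd_C2a
  refine (MvPolynomial.totalDegree_finsetProd _ _).trans ?_
  refine Finset.sum_le_sum fun k _ => ?_
  refine (MvPolynomial.totalDegree_finsetProd _ _).trans ?_
  calc ∑ i ∈ Finset.Iio k, (MvPolynomial.X k - MvPolynomial.X i : MvPolynomial (Fin d) F).totalDegree
      ≤ ∑ i ∈ Finset.Iio k, 1 := by
        refine Finset.sum_le_sum fun i _ => ?_
        refine (MvPolynomial.totalDegree_sub _ _).trans ?_
        rw [MvPolynomial.totalDegree_X, MvPolynomial.totalDegree_X]
        exact le_rfl
    _ = (k : ℕ) := by simp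

private theorem vd_eval_C2a (F : Type*) [Field F] (d : ℕ) (x : Fin d → F) :
    MvPolynomial.eval x (vd_C2a F d) ≠ 0 ↔ Function.Injective x := by
  unfold vd_C2a
  have h0 : MvPolynomial.eval x (∏ k : Fin d, ∏ i ∈ Finset.Iio k,
      (MvPolynomial.X k - MvPolynomial.X i : MvPolynomial (Fin d) F)) =
      ∏ k : Fin d, ∏ i ∈ Finset.Iio k, (x k - x i) := by
    simp [map_prod]
  rw [h0, Finset.prod_ne_zero_iff]
  constructor
  · intro h a b hab
    by_contra hne
    rcases lt_or_gt_of_ne hne with h1 | h1
    · have h2 := Finset.prod_ne_zero_iff.1 (h b (Finset.mem_univ _)) a (Finset.mem_Iio.2 h1)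
      exact h2 (by rw [hab, sub_self])
    · have h2 := Finset.prod_ne_zero_iff.1 (h a (Finset.mem_univ _)) b (Finset.mem_Iio.2 h1)
      exact h2 (by rw [hab, sub_self])
  · intro h k _
    refine Finset.prod_ne_zero_iff.2 fun i hi => ?_
    rw [sub_ne_zero]
    exact fun h1 => (Finset.mem_Iio.1 hi).ne (h h1).symm

private noncomputable def pp_C2a (F : Type*) [Field F] (d : ℕ) (A : Finset F) :
    MvPolynomial (Fin d) F :=
  (∏ c ∈ A, ((∑ i : Fin d, MvPolynomial.X i) - MvPolynomial.C c)) * vd_C2a F d

private theorem lin_deg_C2a (F : Type*) [Field F] (d : ℕ) :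
    (∑ i : Fin d, MvPolynomial.X i : MvPolynomial (Fin d) F).totalDegree ≤ 1 := by
  refine MvPolynomial.totalDegree_finsetSum_le fun i _ => ?_
  rw [MvPolynomial.totalDegree_X]

private theorem pp_deg_C2a (F : Type*) [Field F] (d : ℕ) (A : Finset F) :
    (pp_C2a F d A).totalDegree ≤ A.card + ∑ i : Fin d, (i : ℕ) := by
  unfold pp_C2a
  refine (MvPolynomial.totalDegree_mul _ _).trans (add_le_add ?_ (vd_deg_C2a F d))
  refine (MvPolynomial.totalDegree_finsetProd _ _).trans ?_
  rw [Finset.card_eq_sum_ones]
  refine Finset.sum_le_sum fun c _ => ?_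
  refine (MvPolynomial.totalDegree_sub _ _).trans ?_
  rw [MvPolynomial.totalDegree_C]
  exact max_le (lin_deg_C2a F d) (Nat.zero_le _)

private theorem pp_coeff_C2a (F : Type*) [Field F] [DecidableEq F] (d : ℕ) (A : Finset F)
    (t : Fin d →₀ ℕ) (ht : A.card + ∑ i : Fin d, (i : ℕ) = ∑ i, t i) :
    (pp_C2a F d A).coeff t =
      ((∑ i : Fin d, MvPolynomial.X i : MvPolynomial (Fin d) F) ^ A.card * vd_C2a F d).coeff t := by
  obtain ⟨r, hr, hd⟩ := prod_sub_C2a (∑ i : Fin d, MvPolynomial.X i : MvPolynomial (Fin d) F)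
    (lin_deg_C2a F d) A
  unfold pp_C2a
  rw [hr, add_mul, MvPolynomial.coeff_add]
  have h0 : (r * vd_C2a F d).coeff t = 0 := by
    rcases hd with h | h
    · rw [h, zero_mul, MvPolynomial.coeff_zero]
    · apply MvPolynomial.coeff_eq_zero_of_totalDegree_lt
      have h1 : ∑ i ∈ t.support, t i = ∑ i, t i := by
        rw [← Finsupp.degree_eq_sum t]
        rfl
      rw [h1]
      refine lt_of_le_of_lt (MvPolynomial.totalDegree_mul _ _) ?_
      have := vd_deg_C2a F d
      omega
  rw [h0, add_zero]

private theorem pp_eval_C2a (F : Type*) [Field F] (d : ℕ) (A : Finset F) (x : Fin d → F) :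
    MvPolynomial.eval x (pp_C2a F d A) =
      (∏ c ∈ A, ((∑ i, x i) - c)) * MvPolynomial.eval x (vd_C2a F d) := by
  unfold pp_C2a
  rw [map_mul, map_prod]
  congr 1
  refine Finset.prod_congr rfl fun c _ => ?_
  simp

/-- General form of the Dias da Silva - Hamidoune theorem.  `t_0 < t_1 < ... < t_{j-1} < q`,
`|S_i| = t_i + 1`, `D = ∑ (t_i - i) < q`: the set of all sums `∑ x_i` with `x_i ∈ S_i` pairwise
distinct has at least `D + 1` elements.

Proof.  Otherwise it is contained in a set `C` of exactly `D` elements (`D < q`; the number of sums is `≤ D`).  The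
polynomial `f = ∏_{c ∈ C} (∑ X_i - c) * ∏_{i < k} (X_k - X_i)` has degree
`D + j(j-1)/2 = ∑ t_i` and vanishes on `∏ S_i`.  By the Combinatorial Nullstellensatz
(contrapositive of `MvPolynomial.combinatorial_nullstellensatz_exists_eval_nonzero`) its coefficient
at `t` is `0` (here use: if the coefficient is nonzero then the total degree is exactly `∑ t_i`).
The homogeneous part of top degree is `(∑ X_i)^D ∏_{i<k} (X_k - X_i)`,
the same for every set `C` with `D` elements (replacing `c` by `c'` changes `f` by a polynomial of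
smaller degree).  Take `C' = {j(j-1)/2 + s : 0 ≤ s < D}` and the grid `S'_i = {0, 1, ..., t_i}`.
For distinct `x_i ∈ S'_i` (naturals `≤ t_i < q`) the sum lies in `[j(j-1)/2, ∑ t_i]`, and it is
`∑ t_i = j(j-1)/2 + D` only for `x_i = t_i`; the `D + 1 ≤ q` values are different modulo `q`.  So
the polynomial `f'` of `C'` is nonzero at exactly one point of the grid `∏ S'_i`, namely `x_i = t_i`
(there the Vandermonde factor is nonzero since the `t_i < q` are distinct), and
`coeff_ne_zero_of_unique` says that its coefficient at `t` is nonzero.  Contradiction. -/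
theorem dsh_general (q : ℕ) [Fact q.Prime] (j : ℕ) (t : Fin j → ℕ) (ht : StrictMono t)
    (htq : ∀ i, t i < q) (S : Fin j → Finset (ZMod q)) (hS : ∀ i, (S i).card = t i + 1)
    (D : ℕ) (hD : D + ∑ i : Fin j, (i : ℕ) = ∑ i, t i) (hDq : D < q) (W : Finset (ZMod q))
    (hW : ∀ x : Fin j → ZMod q, (∀ i, x i ∈ S i) → Function.Injective x → ∑ i, x i ∈ W) :
    D + 1 ≤ W.card := by
  by_contra hcon
  have hW1 : W.card ≤ D := by omega
  have hcardq : Fintype.card (ZMod q) = q := ZMod.card q
  obtain ⟨A, hWA, hA⟩ := Finset.exists_superset_card_eq hW1 (by rw [hcardq]; exact hDq.le)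
  set T : Fin j →₀ ℕ := Finsupp.equivFunOnFinite.symm t with hT
  have hTt : ∀ i, T i = t i := fun i => rfl
  have hsum : ∑ i, T i = ∑ i, t i := rfl
  -- the coefficient of the polynomial of `A` vanishes
  have h1 : (pp_C2a (ZMod q) j A).coeff T = 0 := by
    by_contra hne
    have hdeg : (pp_C2a (ZMod q) j A).totalDegree = T.degree := by
      apply le_antisymm
      · refine (pp_deg_C2a (ZMod q) j A).trans ?_
        rw [Finsupp.degree_eq_sum T, hsum, hA, hD]
      · refine le_trans (le_of_eq ?_) (MvPolynomial.le_totalDegree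
          (MvPolynomial.mem_support_iff.2 hne))
        rfl
    obtain ⟨x, hx, hxe⟩ := MvPolynomial.combinatorial_nullstellensatz_exists_eval_nonzero _ T hne
      hdeg S (fun i => by rw [hS i]; exact Nat.lt_succ_self _)
    apply hxe
    rw [pp_eval_C2a]
    by_cases hinj : Function.Injective x
    · have h2 : ∑ i, x i ∈ A := hWA (hW x hx hinj)
      rw [Finset.prod_eq_zero h2 (sub_self _), zero_mul]
    · have h2 : MvPolynomial.eval x (vd_C2a (ZMod q) j) = 0 := by
        by_contra h3
        exact hinj ((vd_eval_C2a (ZMod q) j x).1 h3)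
      rw [h2, mul_zero]
  -- the comparison set
  set T0 : ℕ := ∑ i : Fin j, (i : ℕ) with hT0
  set A' : Finset (ZMod q) := (Finset.range D).image (fun s => ((T0 + s : ℕ) : ZMod q)) with hA'
  have hA'c : A'.card = D := by
    rw [hA', Finset.card_image_of_injOn, Finset.card_range]
    intro a ha b hb hab
    have ha' := Finset.mem_range.1 (Finset.mem_coe.1 ha)
    have hb' := Finset.mem_range.1 (Finset.mem_coe.1 hb)
    have h2 : ((a : ℕ) : ZMod q) = ((b : ℕ) : ZMod q) := by
      have h3 : ((T0 + a : ℕ) : ZMod q) = ((T0 + b : ℕ) : ZMod q) := hab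
      push_cast at h3
      exact add_left_cancel h3
    exact natCast_inj_C2a (ha'.trans hDq) (hb'.trans hDq) h2
  have h2 : (pp_C2a (ZMod q) j A').coeff T = 0 := by
    rw [pp_coeff_C2a (ZMod q) j A' T (by rw [hA'c, hsum]; exact hD), hA'c]
    rw [pp_coeff_C2a (ZMod q) j A T (by rw [hA, hsum]; exact hD), hA] at h1
    exact h1
  refine coeff_ne_zero_of_unique (pp_C2a (ZMod q) j A')
    (fun i => (Finset.range (t i + 1)).image (fun a : ℕ => (a : ZMod q))) T ?_ ?_
    (fun i => ((t i : ℕ) : ZMod q)) ?_ ?_ ?_ h2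
  · intro i
    rw [Finset.card_image_of_injOn, Finset.card_range, hTt]
    intro a ha b hb hab
    have ha' := Finset.mem_range.1 (Finset.mem_coe.1 ha)
    have hb' := Finset.mem_range.1 (Finset.mem_coe.1 hb)
    have := htq i
    exact natCast_inj_C2a (by omega) (by omega) hab
  · refine (pp_deg_C2a (ZMod q) j A').trans ?_
    rw [hA'c, hsum, hD]
  · intro i
    exact Finset.mem_image.2 ⟨t i, Finset.mem_range.2 (Nat.lt_succ_self _), rfl⟩
  · rw [pp_eval_C2a]
    refine mul_ne_zero ?_ ?_
    · refine Finset.prod_ne_zero_iff.2 fun c hc => ?_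
      obtain ⟨s, hs, rfl⟩ := Finset.mem_image.1 hc
      have hs' := Finset.mem_range.1 hs
      rw [sub_ne_zero]
      intro h3
      have h4 : ((D + T0 : ℕ) : ZMod q) = ((T0 + s : ℕ) : ZMod q) := by
        rw [← h3, hD]
        push_cast
        rfl
      have h5 : ((D : ℕ) : ZMod q) = ((s : ℕ) : ZMod q) := by
        push_cast at h4
        rw [add_comm] at h4
        exact add_left_cancel h4
      have h6 := natCast_inj_C2a hDq (hs'.trans hDq) h5
      omega
    · rw [vd_eval_C2a]
      intro a b hab
      exact ht.injective (natCast_inj_C2a (htq a) (htq b) hab)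
  · intro y hy hyx
    rw [pp_eval_C2a]
    by_cases hinj : Function.Injective y
    · have hex : ∀ i, ∃ a : ℕ, a ≤ t i ∧ ((a : ℕ) : ZMod q) = y i := by
        intro i
        obtain ⟨a, ha, hay⟩ := Finset.mem_image.1 (hy i)
        exact ⟨a, Nat.lt_succ_iff.1 (Finset.mem_range.1 ha), hay⟩
      choose a ha hay using hex
      have hainj : Function.Injective a := by
        intro i k hik
        apply hinj
        rw [← hay i, ← hay k, hik]
      have hlow : T0 ≤ ∑ i, a i := sum_inj_C2a j a hainj
      have hlt : ∑ i, a i < ∑ i, t i := by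
        refine Finset.sum_lt_sum (fun i _ => ha i) ?_
        by_contra hall
        push Not at hall
        apply hyx
        funext i
        rw [← hay i]
        have h3 := hall i (Finset.mem_univ _)
        have h4 := ha i
        rw [le_antisymm h4 h3]
      have hmem : ∑ i, y i ∈ A' := by
        rw [hA']
        refine Finset.mem_image.2 ⟨∑ i, a i - T0, Finset.mem_range.2 (by omega), ?_⟩
        have h5 : T0 + (∑ i, a i - T0) = ∑ i, a i := by omega
        rw [h5]
        push_cast
        exact Finset.sum_congr rfl fun i _ => hay i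
      rw [Finset.prod_eq_zero hmem (sub_self _), zero_mul]
    · have h3 : MvPolynomial.eval y (vd_C2a (ZMod q) j) = 0 := by
        by_contra h4
        exact hinj ((vd_eval_C2a (ZMod q) j y).1 h4)
      rw [h3, mul_zero]

end SPR
end

section

set_option autoImplicit false

open Finset

namespace SPR

private theorem exists_steps_C2 (m : ℕ) : ∀ (j D : ℕ), D ≤ j * m →
    ∃ e : Fin j → ℕ, Monotone e ∧ (∀ i, e i ≤ m) ∧ ∑ i, e i = D := by
  intro j
  induction j with
  | zero =>
    intro D hD
    refine ⟨fun _ => 0, fun _ _ _ => le_rfl, fun _ => Nat.zero_le _, ?_⟩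
    simp at hD ⊢
    exact hD.symm
  | succ j ih =>
    intro D hD
    have hD' : D - min D m ≤ j * m := by
      rw [Nat.succ_mul] at hD
      rcases le_total D m with h | h
      · rw [min_eq_left h]
        omega
      · rw [min_eq_right h]
        omega
    obtain ⟨e, he, hm, hs⟩ := ih (D - min D m) hD'
    have hle : ∀ i, e i ≤ min D m := by
      intro i
      rcases le_total D m with h | h
      · have h1 : e i ≤ ∑ i, e i := Finset.single_le_sum (fun _ _ => Nat.zero_le _)
          (Finset.mem_univ i)
        rw [min_eq_left h] at hs ⊢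
        omega
      · rw [min_eq_right h]
        exact hm i
    refine ⟨Fin.snoc e (min D m), ?_, ?_, ?_⟩
    · intro a b hab
      induction b using Fin.lastCases with
      | last =>
        rw [Fin.snoc_last]
        induction a using Fin.lastCases with
        | last => rw [Fin.snoc_last]
        | cast a =>
          rw [Fin.snoc_castSucc]
          exact hle a
      | cast b =>
        induction a using Fin.lastCases with
        | last =>
          exfalso
          have h1 : (Fin.last j).val ≤ (Fin.castSucc b).val := hab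
          have h2 := b.isLt
          simp only [Fin.val_last, Fin.val_castSucc] at h1
          omega
        | cast a =>
          rw [Fin.snoc_castSucc, Fin.snoc_castSucc]
          exact he (Fin.castSucc_le_castSucc_iff.1 hab)
    · intro i
      induction i using Fin.lastCases with
      | last =>
        rw [Fin.snoc_last]
        exact min_le_right _ _
      | cast i =>
        rw [Fin.snoc_castSucc]
        exact hm i
    · rw [Fin.sum_univ_castSucc]
      simp only [Fin.snoc_castSucc, Fin.snoc_last]
      rw [hs]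
      have := min_le_left D m
      omega

/-- **Dias da Silva - Hamidoune.**  Proof from `dsh_general`: put `a = |A|`, `D = min (j(a-j)) (q-1)`.
Choose `t_0 < ... < t_{j-1}` with `i ≤ t_i ≤ a - j + i` and `∑ (t_i - i) = D` (start from `t_i = i`
and raise the last ones to the maximum `a - j + i`, one partially:
with `D = u (a-j) + r`, `r < a - j`, the last `u` ones are maximal and the one before is `i + r`).
`t_i ≤ a - 1 < q`.  Take any subsets `S_i ⊆ A` with `t_i + 1` elements. -/
theorem dsh (q : ℕ) [Fact q.Prime] (A : Finset (ZMod q)) (j : ℕ) (hj : j ≤ A.card) :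
    min q (1 + j * (A.card - j)) ≤ ((A.powersetCard j).image (fun B => ∑ b ∈ B, b)).card := by
  classical
  have hq : 0 < q := (Fact.out : q.Prime).pos
  have hAq : A.card ≤ q := by
    have h1 := Finset.card_le_univ A
    rwa [ZMod.card q] at h1
  obtain ⟨e, he, hm, hs⟩ := exists_steps_C2 (A.card - j) j (min (j * (A.card - j)) (q - 1))
    (min_le_left _ _)
  have hcard : ∀ i : Fin j, (i : ℕ) + e i + 1 ≤ A.card := by
    intro i
    have h1 := hm i
    have h2 := i.isLt
    omega
  choose S hSA hSc using fun i : Fin j => Finset.exists_subset_card_eq (hcard i)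
  have hmain := dsh_general q j (fun i => (i : ℕ) + e i) (by
      intro a b hab
      have h1 := he hab.le
      have h2 : (a : ℕ) < (b : ℕ) := hab
      show (a : ℕ) + e a < (b : ℕ) + e b
      omega)
    (fun i => by
      have h1 := hcard i
      show (i : ℕ) + e i < q
      omega) S hSc (min (j * (A.card - j)) (q - 1)) (by
      rw [Finset.sum_add_distrib, hs, add_comm])
    (lt_of_le_of_lt (min_le_right _ _) (by omega))
    ((A.powersetCard j).image (fun B => ∑ b ∈ B, b)) (by
      intro x hx hinj
      refine Finset.mem_image.2 ⟨Finset.univ.image x, ?_, ?_⟩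
      · rw [Finset.mem_powersetCard]
        refine ⟨?_, ?_⟩
        · intro y hy
          obtain ⟨i, _, rfl⟩ := Finset.mem_image.1 hy
          exact hSA i (hx i)
        · rw [Finset.card_image_of_injective _ hinj, Finset.card_univ, Fintype.card_fin]
      · exact Finset.sum_image (fun a _ b _ h => hinj h))
  refine le_trans ?_ hmain
  rcases le_total (j * (A.card - j)) (q - 1) with h | h
  · rw [min_eq_left h]
    refine (min_le_right _ _).trans ?_
    omega
  · rw [min_eq_right h]
    refine (min_le_left _ _).trans ?_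
    omega

end SPR
end
end

section

section

set_option autoImplicit false

open Finset

namespace SPR

private def uu (k i : ℕ) : ℕ := if i < k then i else i + 1

private lemma C3a_T_succ (d : ℕ) : T (d + 1) = T d + (d + 1) := by
  unfold T
  have : (d + 1) * (d + 1 + 1) = d * (d + 1) + (d + 1) * 2 := by ring
  rw [this, Nat.add_mul_div_right _ _ (by norm_num)]

private lemma C3a_sum_uu (k d : ℕ) : ∑ i ∈ range d, uu k i + min k d = T d := by
  induction d with
  | zero => simp [T]
  | succ d ih =>
    rw [sum_range_succ, C3a_T_succ, ← ih]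
    unfold uu
    split_ifs with h
    · rw [min_eq_right (by omega : d + 1 ≤ k), min_eq_right (by omega : d ≤ k)]
    · rw [min_eq_left (by omega : k ≤ d + 1), min_eq_left (by omega : k ≤ d)]
      ring

private lemma C3a_sum_Icc (d : ℕ) : ∑ v ∈ Icc 1 d, v = T d := by
  induction d with
  | zero => simp [T]
  | succ d ih => rw [sum_Icc_succ_top (by omega), ih, C3a_T_succ]

section Deg

variable {q : ℕ} [Fact q.Prime] {d : ℕ}

private noncomputable def sig (q d : ℕ) : MvPolynomial (Fin d) (ZMod q) :=
  ∑ i : Fin d, MvPolynomial.X i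

private noncomputable def VV (q d : ℕ) : MvPolynomial (Fin d) (ZMod q) :=
  ∏ i : Fin d, ∏ l ∈ Finset.Ioi i,
    ((MvPolynomial.X l : MvPolynomial (Fin d) (ZMod q)) ^ 2 - MvPolynomial.X i ^ 2)

private lemma deg_sig : (sig q d).totalDegree ≤ 1 := by
  unfold sig
  apply MvPolynomial.totalDegree_finsetSum_le
  intro i _
  rw [MvPolynomial.totalDegree_X]

private lemma deg_sub (c : ZMod q) : (sig q d - MvPolynomial.C c).totalDegree ≤ 1 := by
  refine (MvPolynomial.totalDegree_sub _ _).trans ?_
  rw [MvPolynomial.totalDegree_C]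
  exact max_le deg_sig (Nat.zero_le _)

private lemma deg_VV : (VV q d).totalDegree ≤ d * (d - 1) := by
  unfold VV
  refine (MvPolynomial.totalDegree_finsetProd _ _).trans ?_
  have h1 : ∀ i : Fin d, (∏ l ∈ Finset.Ioi i,
    ((MvPolynomial.X l : MvPolynomial (Fin d) (ZMod q)) ^ 2 - MvPolynomial.X i ^ 2)).totalDegree
      ≤ 2 * (d - 1 - (i : ℕ)) := by
    intro i
    refine (MvPolynomial.totalDegree_finsetProd _ _).trans ?_
    have h2 : ∀ l ∈ Finset.Ioi i, ((MvPolynomial.X l : MvPolynomial (Fin d) (ZMod q)) ^ 2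
        - MvPolynomial.X i ^ 2).totalDegree ≤ 2 := by
      intro l _
      refine (MvPolynomial.totalDegree_sub _ _).trans ?_
      rw [MvPolynomial.totalDegree_X_pow, MvPolynomial.totalDegree_X_pow, max_self]
    refine (sum_le_card_nsmul _ _ _ h2).trans ?_
    rw [smul_eq_mul, Fin.card_Ioi, mul_comm]
  refine (sum_le_sum fun i _ => h1 i).trans ?_
  rw [← mul_sum, Fin.sum_univ_eq_sum_range (fun i => d - 1 - i) d, sum_range_reflect (fun i => i) d,
    mul_comm, sum_range_id_mul_two]

private lemma coeff_indep (t : Fin d →₀ ℕ) (C : Finset (ZMod q)) :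
    ∀ (W : MvPolynomial (Fin d) (ZMod q)) (w : ℕ), W.totalDegree ≤ w → C.card + w = ∑ i, t i →
      MvPolynomial.coeff t ((∏ c ∈ C, (sig q d - MvPolynomial.C c)) * W)
        = MvPolynomial.coeff t (sig q d ^ C.card * W) := by
  classical
  induction C using Finset.induction_on with
  | empty => intro W w _ _; simp
  | insert c C hc ih =>
    intro W w hW hw
    rw [card_insert_of_notMem hc] at hw ⊢
    have h1 : ((sig q d - MvPolynomial.C c) * W).totalDegree ≤ w + 1 := by
      refine (MvPolynomial.totalDegree_mul _ _).trans ?_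
      have := deg_sub (q := q) (d := d) c
      omega
    have h2 := ih _ (w + 1) h1 (by omega)
    rw [prod_insert hc]
    have h3 : (sig q d - MvPolynomial.C c) * (∏ c ∈ C, (sig q d - MvPolynomial.C c)) * W
        = (∏ c ∈ C, (sig q d - MvPolynomial.C c)) * ((sig q d - MvPolynomial.C c) * W) := by ring
    rw [h3, h2]
    have h4 : sig q d ^ C.card * ((sig q d - MvPolynomial.C c) * W)
        = sig q d ^ (C.card + 1) * W - MvPolynomial.C c * (sig q d ^ C.card * W) := by ring
    rw [h4, MvPolynomial.coeff_sub, MvPolynomial.coeff_C_mul]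
    have h5 : MvPolynomial.coeff t (sig q d ^ C.card * W) = 0 := by
      apply MvPolynomial.coeff_eq_zero_of_totalDegree_lt
      have h6 : (sig q d ^ C.card * W).totalDegree ≤ C.card + w := by
        refine (MvPolynomial.totalDegree_mul _ _).trans (add_le_add ?_ hW)
        refine (MvPolynomial.totalDegree_pow _ _).trans ?_
        have := deg_sig (q := q) (d := d)
        nlinarith
      have h7 : ∑ i ∈ t.support, t i = ∑ i, t i := by
        apply sum_subset (subset_univ _)
        intro i _ hi
        exact Finsupp.notMem_support_iff.1 hi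
      rw [h7, ← hw]
      omega
    rw [h5, mul_zero, sub_zero]

end Deg

private lemma cast_inj {q : ℕ} [Fact q.Prime] {a b : ℕ} (ha : a < q) (hb : b < q)
    (h : (a : ZMod q) = (b : ZMod q)) : a = b := by
  have := (ZMod.natCast_eq_natCast_iff' a b q).1 h
  rwa [Nat.mod_eq_of_lt ha, Nat.mod_eq_of_lt hb] at this

private lemma cast_neg {q : ℕ} [Fact q.Prime] {a b : ℕ} (ha : 1 ≤ a) (hab : a + b < q) :
    (a : ZMod q) ≠ -(b : ZMod q) := by
  intro h
  have h1 : ((a + b : ℕ) : ZMod q) = 0 := by
    push_cast
    rw [h]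
    ring
  rw [ZMod.natCast_eq_zero_iff] at h1
  have := Nat.le_of_dvd (by omega) h1
  omega

private lemma uu_le {k i d : ℕ} (hi : i < d) : uu k i ≤ d := by
  unfold uu
  split_ifs <;> omega

private lemma uu_lt {k i l : ℕ} (hil : i < l) : uu k i < uu k l := by
  unfold uu
  split_ifs <;> omega

private lemma uu_ne {k i : ℕ} (hk : 1 ≤ k) : uu k i ≠ k := by
  unfold uu
  split_ifs <;> omega

private lemma uu_zero {k i : ℕ} (h : uu k i = 0) : i = 0 ∧ 1 ≤ k := by
  unfold uu at h
  split_ifs at h with h1
  omega

/-- Nonvanishing of one coefficient (Balandraud).  `d ≥ 1`, `k ≤ d`, `u_i = i` for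
`i < k` and `u_i = i + 1` for `i ≥ k` (`i = 0, ..., d-1`), so `∑ u_i = T d - k`; `C` any set with
`D = T d - k < q` elements, `2 d < q`.  The coefficient of `∏ X_i^{d - 1 + u_i}` in
`∏_{c ∈ C} (∑ X_i - c) * ∏_{i < l} (X_l^2 - X_i^2)` is nonzero.

Proof.  It does not depend on `C` (only the homogeneous part of top degree counts:
`deg = D + d (d-1) = ∑ (d - 1 + u_i)`).  Take `C' = {T d - 2 s : 0 ≤ s < D}` and the grid
`S_i = {1, ..., d} ∪ {-1, ..., -u_i}` (`d + u_i` elements, as `2 d < q`).  At a point of the grid where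
`∏ (x_l^2 - x_i^2) ≠ 0` the absolute values are a permutation `v` of `1, ..., d` and the sum is
`T d - 2 s`, `s` = sum of the absolute values of the negative entries; each negative entry has
absolute value `≤ u_i`, so `0 ≤ s ≤ ∑ u_i = D`, with equality only if every entry with `u_i ≥ 1` is
`- u_i` (and the only entry with `u_i = 0`, if `k ≥ 1`, is then `+k`).  The values `T d - 2 s`,
`0 ≤ s ≤ D < q`, are different mod `q` (`q` odd).  So the polynomial is nonzero at exactly one grid
point (there `x_l^2 - x_i^2 ≠ 0` because the absolute values are distinct in `1, ..., d` and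
`2 d < q`).  Apply `coeff_ne_zero_of_unique`. -/
theorem balandraud_coeff (q : ℕ) [Fact q.Prime] (d k : ℕ) (hk : k ≤ d) (hd : 2 * d < q)
    (hD : T d - k < q) (C : Finset (ZMod q)) (hC : C.card = T d - k)
    (t : Fin d →₀ ℕ) (ht : ∀ i : Fin d, t i = d - 1 + (if (i : ℕ) < k then (i : ℕ) else (i : ℕ) + 1)) :
    MvPolynomial.coeff t
      ((∏ c ∈ C, ((∑ i : Fin d, MvPolynomial.X i) - MvPolynomial.C c)) *
        ∏ i : Fin d, ∏ l ∈ Finset.Ioi i,
          ((MvPolynomial.X l : MvPolynomial (Fin d) (ZMod q)) ^ 2 - MvPolynomial.X i ^ 2)) ≠ 0 := by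
  classical
  change MvPolynomial.coeff t ((∏ c ∈ C, (sig q d - MvPolynomial.C c)) * VV q d) ≠ 0
  have hu : ∀ i : Fin d, t i = (d - 1) + uu k i := ht
  have hTk : k ≤ T d := by
    have := C3a_sum_uu k d
    rw [min_eq_left hk] at this
    omega
  have hsumu : ∑ i : Fin d, uu k i = T d - k := by
    rw [Fin.sum_univ_eq_sum_range (fun i => uu k i) d]
    have := C3a_sum_uu k d
    rw [min_eq_left hk] at this
    omega
  obtain ⟨D, hDdef⟩ : ∃ D, D = T d - k := ⟨_, rfl⟩
  rw [← hDdef] at hsumu hD hC
  have hTD : T d = D + k := by omega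
  have hsumt : ∑ i, t i = d * (d - 1) + D := by
    rw [sum_congr rfl fun i _ => hu i, sum_add_distrib, hsumu, sum_const, card_univ,
      Fintype.card_fin, smul_eq_mul]
  have hdpos : ∀ s, s < D → 1 ≤ d := by
    intro s hs
    by_contra hd0
    have : d = 0 := by omega
    subst this
    simp [T] at hTD
    omega
  have h2 : ∀ s, s < D → (2 : ZMod q) ≠ 0 := by
    intro s hs h2
    have hd1 := hdpos s hs
    have h3 : ((2 : ℕ) : ZMod q) = 0 := by exact_mod_cast h2
    rw [ZMod.natCast_eq_zero_iff] at h3
    have := Nat.le_of_dvd (by norm_num) h3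
    omega
  have hval : ∀ s s' : ℕ, s ≤ D → s' ≤ D → s ≠ s' →
      (T d : ZMod q) - 2 * (s : ZMod q) ≠ (T d : ZMod q) - 2 * (s' : ZMod q) := by
    intro s s' hs hs' hne h
    have h20 : (2 : ZMod q) ≠ 0 := by
      rcases lt_or_gt_of_ne hne with hlt | hlt
      · exact h2 s (by omega)
      · exact h2 s' (by omega)
    have h3 : (2 : ZMod q) * (s : ZMod q) = 2 * (s' : ZMod q) := by
      have := congrArg (fun z => (T d : ZMod q) - z) h
      simpa using this
    exact hne (cast_inj (by omega) (by omega) (mul_left_cancel₀ h20 h3))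
  set C' : Finset (ZMod q) := (range D).image (fun s : ℕ => (T d : ZMod q) - 2 * (s : ZMod q))
    with hC'
  have hC'card : C'.card = D := by
    rw [hC', card_image_of_injOn, card_range]
    intro s hs s' hs' h
    by_contra hne
    exact hval s s' (mem_range.1 hs).le (mem_range.1 hs').le hne h
  have hmemC' : ∀ s ≤ D, (T d : ZMod q) - 2 * (s : ZMod q) ∈ C' → s < D := by
    intro s hs hmem
    obtain ⟨s', hs', h⟩ := mem_image.1 hmem
    by_contra hlt
    have hs'' := mem_range.1 hs'
    exact hval s' s hs''.le hs (by omega) h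
  have hcoef : ∀ C'' : Finset (ZMod q), C''.card = D →
      MvPolynomial.coeff t ((∏ c ∈ C'', (sig q d - MvPolynomial.C c)) * VV q d)
        = MvPolynomial.coeff t (sig q d ^ D * VV q d) := by
    intro C'' hC''
    rw [coeff_indep t C'' (VV q d) (d * (d - 1)) deg_VV (by rw [hC'', hsumt]; ring), hC'']
  rw [hcoef C hC, ← hcoef C' hC'card]
  have heval : ∀ y : Fin d → ZMod q,
      MvPolynomial.eval y ((∏ c ∈ C', (sig q d - MvPolynomial.C c)) * VV q d)
        = (∏ c ∈ C', (∑ i, y i - c)) * ∏ i : Fin d, ∏ l ∈ Finset.Ioi i, (y l ^ 2 - y i ^ 2) := by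
    intro y
    simp [sig, VV, map_prod]
  set S : Fin d → Finset (ZMod q) := fun i => (Icc 1 d).image (fun v : ℕ => (v : ZMod q)) ∪
    (Icc 1 (uu k i)).image (fun v : ℕ => -(v : ZMod q)) with hS
  set x : Fin d → ZMod q := fun i => if uu k i = 0 then (k : ZMod q) else -((uu k i : ℕ) : ZMod q)
    with hx
  apply coeff_ne_zero_of_unique _ S t _ _ x
  · -- x in the grid
    intro i
    simp only [hS, hx]
    split_ifs with h0
    · apply mem_union_left
      exact mem_image.2 ⟨k, mem_Icc.2 ⟨(uu_zero h0).2, hk⟩, rfl⟩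
    · apply mem_union_right
      exact mem_image.2 ⟨uu k i, mem_Icc.2 ⟨by omega, le_refl _⟩, rfl⟩
  · -- nonvanishing at x
    rw [heval]
    apply mul_ne_zero
    · rw [prod_ne_zero_iff]
      intro c hc hzero
      have hsum : ∑ i, x i = (T d : ZMod q) - 2 * (D : ZMod q) := by
        have h3 : ∀ i : Fin d, x i
            = (if uu k i = 0 then (k : ZMod q) else 0) - ((uu k i : ℕ) : ZMod q) := by
          intro i
          simp only [hx]
          split_ifs with h0
          · rw [h0]
            simp
          · ring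
        rw [sum_congr rfl fun i _ => h3 i, sum_sub_distrib, ← Nat.cast_sum, hsumu, hTD]
        have h4 : ∑ i : Fin d, (if uu k i = 0 then (k : ZMod q) else 0) = k := by
          by_cases hk0 : k = 0
          · subst hk0
            simp
          · have hd1 : 0 < d := by omega
            rw [sum_eq_single (⟨0, hd1⟩ : Fin d)]
            · rw [if_pos]
              have hk1 : 0 < k := by omega
              show uu k 0 = 0
              unfold uu
              rw [if_pos hk1]
            · intro j _ hj
              rw [if_neg]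
              intro h0
              exact hj (Fin.ext (uu_zero h0).1)
            · intro hj
              exact absurd (mem_univ _) hj
        rw [h4]
        push_cast
        ring
      have h5 : ∑ i, x i = c := sub_eq_zero.1 hzero
      rw [hsum] at h5
      have := hmemC' D (le_refl _) (h5 ▸ hc)
      exact lt_irrefl _ this
    · rw [prod_ne_zero_iff]
      intro i _
      rw [prod_ne_zero_iff]
      intro l hl hzero
      have hil' : i < l := mem_Ioi.1 hl
      have hil : (i : ℕ) < (l : ℕ) := hil'
      set w : Fin d → ℕ := fun i => if uu k i = 0 then k else uu k i with hw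
      have hw1 : ∀ i, x i ^ 2 = ((w i : ℕ) : ZMod q) ^ 2 := by
        intro i
        simp only [hx, hw]
        split_ifs
        · rfl
        · rw [neg_sq]
      have hw2 : ∀ i, 1 ≤ w i ∧ w i ≤ d := by
        intro i
        simp only [hw]
        split_ifs with h0
        · exact ⟨(uu_zero h0).2, hk⟩
        · exact ⟨by omega, uu_le i.2⟩
      have hw3 : w i ≠ w l := by
        simp only [hw]
        have h6 := uu_lt (k := k) hil
        rw [if_neg (by omega : uu k l ≠ 0)]
        split_ifs with h0
        · exact (uu_ne (uu_zero h0).2).symm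
        · omega
      rw [hw1, hw1] at hzero
      have h7 : (((w l : ℕ) : ZMod q) - ((w i : ℕ) : ZMod q))
          * (((w l : ℕ) : ZMod q) + ((w i : ℕ) : ZMod q)) = 0 := by
        linear_combination hzero
      have hi2 := hw2 i
      have hl2 := hw2 l
      rcases mul_eq_zero.1 h7 with h8 | h8
      · exact hw3 (cast_inj (by omega) (by omega) (sub_eq_zero.1 h8)).symm
      · exact cast_neg hl2.1 (by omega : w l + w i < q) (eq_neg_of_add_eq_zero_left h8)
  · -- uniqueness
    intro y hy hyx
    by_contra hne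
    rw [heval] at hne
    have hne1 := left_ne_zero_of_mul hne
    have hne2 := right_ne_zero_of_mul hne
    rw [prod_ne_zero_iff] at hne1 hne2
    have hex : ∀ i : Fin d, ∃ v : ℕ, ∃ b : Bool, (1 ≤ v ∧ v ≤ d) ∧
        ((b = true ∧ v ≤ uu k i ∧ y i = -(v : ZMod q)) ∨ (b = false ∧ y i = (v : ZMod q))) := by
      intro i
      rcases mem_union.1 (hy i) with h | h
      · obtain ⟨v, hv, hv'⟩ := mem_image.1 h
        rw [mem_Icc] at hv
        exact ⟨v, false, hv, Or.inr ⟨rfl, hv'.symm⟩⟩
      · obtain ⟨v, hv, hv'⟩ := mem_image.1 h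
        rw [mem_Icc] at hv
        exact ⟨v, true, ⟨hv.1, hv.2.trans (uu_le i.2)⟩, Or.inl ⟨rfl, hv.2, hv'.symm⟩⟩
    choose v b hv hb using hex
    have hsq : ∀ i, y i ^ 2 = ((v i : ℕ) : ZMod q) ^ 2 := by
      intro i
      rcases hb i with ⟨_, _, h⟩ | ⟨_, h⟩
      · rw [h, neg_sq]
      · rw [h]
    have hvinj : Function.Injective v := by
      have key : ∀ i l : Fin d, i < l → v i ≠ v l := by
        intro i l hil hvv
        have h3 := hne2 i (mem_univ _)
        rw [prod_ne_zero_iff] at h3
        apply h3 l (mem_Ioi.2 hil)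
        rw [hsq, hsq, hvv, sub_self]
      intro i l hvv
      rcases lt_trichotomy i l with h | h | h
      · exact absurd hvv (key i l h)
      · exact h
      · exact absurd hvv.symm (key l i h)
    have hvimg : univ.image v = Icc 1 d := by
      apply eq_of_subset_of_card_le
      · intro z hz
        obtain ⟨i, _, rfl⟩ := mem_image.1 hz
        exact mem_Icc.2 (hv i)
      · rw [card_image_of_injective _ hvinj, card_univ, Fintype.card_fin, Nat.card_Icc]
        omega
    have hvsum : ∑ i, v i = T d := by
      rw [← C3a_sum_Icc, ← hvimg, sum_image (fun i _ l _ h => hvinj h)]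
    set s : ℕ := ∑ i, (if b i = true then v i else 0) with hs
    have hle : ∀ i ∈ (univ : Finset (Fin d)), (if b i = true then v i else 0) ≤ uu k i := by
      intro i _
      rcases hb i with ⟨h1, h3, _⟩ | ⟨h1, _⟩
      · rw [if_pos h1]
        exact h3
      · rw [if_neg (by rw [h1]; decide)]
        exact Nat.zero_le _
    have hsD : s ≤ D := by
      rw [← hsumu]
      exact sum_le_sum hle
    have hysum : ∑ i, y i = (T d : ZMod q) - 2 * (s : ZMod q) := by
      have h3 : ∀ i, y i = ((v i : ℕ) : ZMod q)
          - 2 * (((if b i = true then v i else 0 : ℕ)) : ZMod q) := by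
        intro i
        rcases hb i with ⟨h1, _, h⟩ | ⟨h1, h⟩
        · rw [if_pos h1, h]
          ring
        · rw [if_neg (by rw [h1]; decide), h]
          simp
      rw [sum_congr rfl fun i _ => h3 i, sum_sub_distrib, ← mul_sum, ← Nat.cast_sum,
        ← Nat.cast_sum, hvsum]
    have hsD' : s = D := by
      by_contra hne'
      have hlt : s < D := by omega
      apply hne1 (∑ i, y i) _ (sub_self _)
      rw [hysum]
      exact mem_image.2 ⟨s, mem_range.2 hlt, rfl⟩
    have heq : ∀ i ∈ (univ : Finset (Fin d)), (if b i = true then v i else 0) = uu k i := by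
      rw [← hsumu] at hsD'
      exact (sum_eq_sum_iff_of_le hle).1 hsD'
    apply hyx
    funext i
    have hi := heq i (mem_univ _)
    have hi1 := (hv i).1
    simp only [hx]
    split_ifs with h0
    · -- `v i = k`
      have hbi : ¬ b i = true := by
        intro hc
        rw [if_pos hc] at hi
        omega
      have hyi : y i = (v i : ZMod q) := by
        rcases hb i with ⟨h1, _, _⟩ | ⟨_, h⟩
        · exact absurd h1 hbi
        · exact h
      have hoth : ∀ j : Fin d, j ≠ i → v j = uu k j := by
        intro j hj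
        have hj1 := heq j (mem_univ _)
        by_cases hbj : b j = true
        · rw [if_pos hbj] at hj1
          exact hj1
        · rw [if_neg hbj] at hj1
          exfalso
          apply hj
          apply Fin.ext
          rw [(uu_zero h0).1, (uu_zero hj1.symm).1]
      have h3 : v i + ∑ j ∈ univ.erase i, uu k j = T d := by
        rw [← hvsum, ← add_sum_erase univ v (mem_univ i)]
        congr 1
        apply sum_congr rfl
        intro j hj
        rw [hoth j (ne_of_mem_erase hj)]
      have h4 : ∑ j ∈ univ.erase i, uu k j = D := by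
        rw [← hsumu, ← add_sum_erase univ (fun j : Fin d => uu k j) (mem_univ i), h0, zero_add]
      have h5 : v i = k := by omega
      rw [hyi, h5]
    · have hbi : b i = true := by
        by_contra hc
        rw [if_neg hc] at hi
        exact h0 hi.symm
      rw [if_pos hbi] at hi
      rcases hb i with ⟨_, _, h⟩ | ⟨h1, _⟩
      · rw [h, hi]
      · rw [h1] at hbi
        exact absurd hbi (by decide)
  · -- cardinality
    intro i
    have hud := uu_le (k := k) i.2
    simp only [hS]
    rw [card_union_of_disjoint, card_image_of_injOn, card_image_of_injOn, Nat.card_Icc,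
      Nat.card_Icc, hu i]
    · have := i.2
      omega
    · intro a ha b hb hab
      have ha' := mem_Icc.1 ha
      have hb' := mem_Icc.1 hb
      exact cast_inj (by omega) (by omega) (neg_injective hab)
    · intro a ha b hb hab
      have ha' := mem_Icc.1 ha
      have hb' := mem_Icc.1 hb
      exact cast_inj (by omega) (by omega) hab
    · rw [disjoint_left]
      intro z hz hz'
      obtain ⟨a, ha, rfl⟩ := mem_image.1 hz
      obtain ⟨b, hb, hab⟩ := mem_image.1 hz'
      have ha' := mem_Icc.1 ha
      have hb' := mem_Icc.1 hb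
      exact cast_neg ha'.1 (by omega : a + b < q) hab.symm
  · -- degree
    refine (MvPolynomial.totalDegree_mul _ _).trans ?_
    rw [hsumt, add_comm]
    apply add_le_add deg_VV
    refine (MvPolynomial.totalDegree_finsetProd _ _).trans ?_
    refine (sum_le_card_nsmul _ _ 1 (fun c _ => deg_sub c)).trans ?_
    rw [hC'card, smul_eq_mul, mul_one]

end SPR
end

section

set_option autoImplicit false

open Finset

namespace SPR

private theorem bal_T_succ (n : ℕ) : T (n + 1) = T n + (n + 1) := by
  unfold T
  have h : (n + 1) * (n + 1 + 1) = n * (n + 1) + (n + 1) * 2 := by ring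
  rw [h, Nat.add_mul_div_right _ _ (by norm_num : 0 < 2)]

private theorem bal_T_sum (n : ℕ) : ∑ i ∈ range n, (i + 1) = T n := by
  induction n with
  | zero => rfl
  | succ n ih => rw [Finset.sum_range_succ, ih, bal_T_succ]

private theorem bal_u_sum (d k : ℕ) (hk : k ≤ d) :
    (∑ i ∈ range d, (if i < k then i else i + 1)) + k = T d := by
  induction d with
  | zero =>
    have : k = 0 := by omega
    subst this
    rfl
  | succ d ih =>
    rw [Finset.sum_range_succ]
    rcases Nat.lt_or_ge d k with h | h
    · have hkd : k = d + 1 := by omega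
      subst hkd
      have h1 : ∑ i ∈ range d, (if i < d + 1 then i else i + 1) = ∑ i ∈ range d, i := by
        apply Finset.sum_congr rfl
        intro i hi
        rw [Finset.mem_range] at hi
        rw [if_pos (by omega)]
      rw [h1, if_pos (by omega)]
      have h2 := bal_T_sum d
      rw [Finset.sum_add_distrib, Finset.sum_const, Finset.card_range, smul_eq_mul, mul_one] at h2
      rw [bal_T_succ]
      omega
    · have := ih h
      rw [if_neg (by omega), bal_T_succ]
      omega

private theorem bal_choice (q n : ℕ) (hq : 2 ≤ q) (hn : 1 ≤ n) :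
    ∃ d k : ℕ, 1 ≤ d ∧ d ≤ n ∧ k ≤ d ∧ T d - k < q ∧ T d - k + 1 = min q (1 + T n) ∧ k ≤ T d := by
  classical
  by_cases h : q ≤ 1 + T n
  · have hex : ∃ d, q - 1 ≤ T d := ⟨n, by omega⟩
    refine ⟨Nat.find hex, T (Nat.find hex) - (q - 1), ?_, ?_, ?_, ?_, ?_, ?_⟩
    · by_contra hcon
      have h0 : Nat.find hex = 0 := by omega
      have h1 := Nat.find_spec hex
      rw [h0] at h1
      simp [T] at h1
      omega
    · exact Nat.find_min' hex (by omega)
    · rcases Nat.eq_zero_or_pos (Nat.find hex) with h0 | h0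
      · rw [h0]
        simp [T]
      · obtain ⟨m, hm⟩ : ∃ m, Nat.find hex = m + 1 := ⟨Nat.find hex - 1, by omega⟩
        have h1 : ¬ q - 1 ≤ T m := Nat.find_min hex (by omega)
        rw [hm, bal_T_succ]
        omega
    · have h1 := Nat.find_spec hex
      omega
    · have h1 := Nat.find_spec hex
      rw [min_eq_left h]
      omega
    · omega
  · refine ⟨n, 0, hn, le_rfl, Nat.zero_le _, by omega, ?_, Nat.zero_le _⟩
    rw [min_eq_right (by omega)]
    omega

/-- **Balandraud's theorem.**  Proof.  `q = 2`: `A = ∅`.  `q` odd: `A` asymmetric, so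
`2 |A| < q`.  If `q ≤ 1 + T |A|` let `d` be minimal with `q - 1 ≤ T d` and `k = T d - (q-1)`
(so `k < d` because `T (d-1) = T d - d < q - 1`); otherwise `d = |A|`, `k = 0`.  In both cases
`D = T d - k < q`, `D + 1 = min q (1 + T |A|)`.  Take `A' ⊆ A`, `|A'| = d`.  Suppose
`|Σ A'| ≤ D`.  Let `σ = ∑_{a ∈ A'} a`.  The set `{∑ ± a}` is `2 Σ A' - σ`, contained in a
set `C` with exactly `D` elements.  The polynomial of `balandraud_coeff` vanishes on `(A' ∪ -A')^d`
(if all `x_i ∈ A' ∪ -A'` and the `x_i^2` are distinct, then `x` is a choice of signs of the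
elements of `A'` in some order, and `∑ x_i ∈ C`), and `|A' ∪ -A'| = 2 d ≥ t_i + 1 = d + u_i`.  The
Combinatorial Nullstellensatz (with subsets of size `t_i + 1`, or `t_i < 2 d`) gives a contradiction
(the total degree equals `∑ t_i` because the coefficient is nonzero and the degree is
`≤ D + d(d-1) = ∑ t_i`). -/
theorem balandraud (q : ℕ) [Fact q.Prime] (A : Finset (ZMod q)) (hA : ∀ a ∈ A, -a ∉ A) :
    min q (1 + T A.card) ≤ A.subsetSum.card := by
  classical
  have hq : 2 ≤ q := (Fact.out : q.Prime).two_le
  have hpair : ∀ A' : Finset (ZMod q), A' ⊆ A → (A' ∪ A'.image (fun x => -x)).card = 2 * A'.card := by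
    intro A' hA'
    rw [Finset.card_union_of_disjoint, Finset.card_image_of_injective _ neg_injective]
    · ring
    · rw [Finset.disjoint_left]
      intro a ha hb
      rw [Finset.mem_image] at hb
      obtain ⟨b, hb, hba⟩ := hb
      apply hA b (hA' hb)
      rw [hba]
      exact hA' ha
  have h0 : (0 : ZMod q) ∉ A := by
    intro h
    exact hA 0 h (by simpa using h)
  have h2n : 2 * A.card < q := by
    have h1 : (A ∪ A.image (fun x => -x)) ⊆ (Finset.univ : Finset (ZMod q)).erase 0 := by
      intro x hx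
      rw [Finset.mem_erase]
      refine ⟨?_, Finset.mem_univ _⟩
      rintro rfl
      rw [Finset.mem_union, Finset.mem_image] at hx
      rcases hx with hx | ⟨b, hb, hb0⟩
      · exact h0 hx
      · rw [neg_eq_zero] at hb0
        rw [hb0] at hb
        exact h0 hb
    have h3 := Finset.card_le_card h1
    rw [hpair A (Finset.Subset.refl _), Finset.card_erase_of_mem (Finset.mem_univ _),
      Finset.card_univ, ZMod.card] at h3
    omega
  rcases Nat.eq_zero_or_pos A.card with hn | hn
  · rw [hn]
    have h1 : 1 ≤ A.subsetSum.card := Finset.card_pos.2 Finset.subsetSum_nonempty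
    have h3 : T 0 = 0 := rfl
    rw [h3]
    exact (min_le_right _ _).trans h1
  obtain ⟨d, k, hd1, hdn, hkd, hD, hmin, hkT⟩ := bal_choice q A.card hq hn
  obtain ⟨A', hA', hcard⟩ := Finset.exists_subset_card_eq hdn
  rw [← hmin]
  refine le_trans ?_ (Finset.card_le_card (Finset.subsetSum_mono hA'))
  by_contra hcon
  have hle : A'.subsetSum.card ≤ T d - k := by omega
  set sg : ZMod q := ∑ a ∈ A', a with hsg
  obtain ⟨Cc, hCsub, hCcard⟩ : ∃ Cc : Finset (ZMod q), A'.subsetSum.image (fun s => 2 * s - sg) ⊆ Cc ∧
      Cc.card = T d - k := by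
    apply Finset.exists_superset_card_eq
    · exact (Finset.card_image_le).trans hle
    · rw [ZMod.card]
      exact hD.le
  set t : Fin d →₀ ℕ := Finsupp.equivFunOnFinite.symm
    (fun i : Fin d => d - 1 + (if (i : ℕ) < k then (i : ℕ) else (i : ℕ) + 1)) with ht
  have hti : ∀ i : Fin d, t i = d - 1 + (if (i : ℕ) < k then (i : ℕ) else (i : ℕ) + 1) := by
    intro i
    rfl
  have hcoeff := balandraud_coeff q d k hkd (by omega) hD Cc hCcard t hti
  set f : MvPolynomial (Fin d) (ZMod q) :=
      ((∏ c ∈ Cc, ((∑ i : Fin d, MvPolynomial.X i) - MvPolynomial.C c)) *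
        ∏ i : Fin d, ∏ l ∈ Finset.Ioi i,
          ((MvPolynomial.X l : MvPolynomial (Fin d) (ZMod q)) ^ 2 - MvPolynomial.X i ^ 2)) with hf
  -- degrees
  have htdeg : t.degree = T d - k + d * (d - 1) := by
    have h1 : t.degree = ∑ i : Fin d, t i := by
      rw [Finsupp.degree_eq_sum]
    rw [h1]
    simp_rw [hti]
    rw [Finset.sum_add_distrib, Finset.sum_const, Finset.card_univ, Fintype.card_fin, smul_eq_mul,
      Fin.sum_univ_eq_sum_range (fun i : ℕ => if i < k then i else i + 1) d]
    have := bal_u_sum d k hkd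
    omega
  have hfdeg : f.totalDegree ≤ T d - k + d * (d - 1) := by
    rw [hf]
    refine (MvPolynomial.totalDegree_mul _ _).trans (add_le_add ?_ ?_)
    · refine (MvPolynomial.totalDegree_finsetProd _ _).trans ?_
      rw [← hCcard, ← mul_one Cc.card, ← smul_eq_mul, ← Finset.sum_const]
      apply Finset.sum_le_sum
      intro c _
      refine (MvPolynomial.totalDegree_sub _ _).trans (max_le ?_ ?_)
      · refine (MvPolynomial.totalDegree_finsetSum _ _).trans ?_
        apply Finset.sup_le
        intro i _
        rw [MvPolynomial.totalDegree_X]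
      · rw [MvPolynomial.totalDegree_C]
        exact Nat.zero_le _
    · refine (MvPolynomial.totalDegree_finsetProd _ _).trans ?_
      have h1 : ∀ i : Fin d, (∏ l ∈ Finset.Ioi i,
          ((MvPolynomial.X l : MvPolynomial (Fin d) (ZMod q)) ^ 2 - MvPolynomial.X i ^ 2)).totalDegree ≤
          (d - 1 - (i : ℕ)) * 2 := by
        intro i
        refine (MvPolynomial.totalDegree_finsetProd _ _).trans ?_
        rw [← Fin.card_Ioi i, ← smul_eq_mul, ← Finset.sum_const]
        apply Finset.sum_le_sum
        intro l _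
        refine (MvPolynomial.totalDegree_sub _ _).trans (max_le ?_ ?_)
        · rw [MvPolynomial.totalDegree_X_pow]
        · rw [MvPolynomial.totalDegree_X_pow]
      refine (Finset.sum_le_sum fun i _ => h1 i).trans ?_
      rw [Fin.sum_univ_eq_sum_range (fun i : ℕ => (d - 1 - i) * 2) d, ← Finset.sum_mul,
        Finset.sum_range_reflect (fun i => i) d, Finset.sum_range_id_mul_two]
  have hfd : f.totalDegree = t.degree := by
    apply le_antisymm
    · rw [htdeg]
      exact hfdeg
    · have h1 := MvPolynomial.le_totalDegree (MvPolynomial.mem_support_iff.2 hcoeff)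
      rw [Finsupp.degree_eq_sum]
      rw [Finsupp.sum_fintype _ _ (fun _ => rfl)] at h1
      exact h1
  obtain ⟨s, hsB, hsne⟩ := MvPolynomial.combinatorial_nullstellensatz_exists_eval_nonzero f t hcoeff
    hfd (fun _ => A' ∪ A'.image (fun x => -x)) (by
      intro i
      rw [hpair A' hA', hcard, hti]
      have := i.2
      split_ifs <;> omega)
  -- evaluate
  rw [hf, map_mul] at hsne
  have hs1 := left_ne_zero_of_mul hsne
  have hs2 := right_ne_zero_of_mul hsne
  rw [map_prod, Finset.prod_ne_zero_iff] at hs1 hs2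
  have hsq : ∀ i l : Fin d, i ≠ l → s i ^ 2 ≠ s l ^ 2 := by
    have key : ∀ i l : Fin d, i < l → s l ^ 2 ≠ s i ^ 2 := by
      intro i l hil heq
      have h1 := hs2 i (Finset.mem_univ _)
      rw [map_prod, Finset.prod_ne_zero_iff] at h1
      apply h1 l (Finset.mem_Ioi.2 hil)
      rw [map_sub, map_pow, map_pow, MvPolynomial.eval_X, MvPolynomial.eval_X, heq, sub_self]
    intro i l hil heq
    rcases lt_or_gt_of_ne hil with h | h
    · exact key i l h heq.symm
    · exact key l i h heq
  set a : Fin d → ZMod q := fun i => if s i ∈ A' then s i else - s i with ha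
  have haA : ∀ i, a i ∈ A' := by
    intro i
    simp only [ha]
    by_cases h : s i ∈ A'
    · rw [if_pos h]
      exact h
    · rw [if_neg h]
      have h1 := hsB i
      rw [Finset.mem_union, Finset.mem_image] at h1
      rcases h1 with h1 | ⟨b, hb, hbs⟩
      · exact absurd h1 h
      · rw [← hbs, neg_neg]
        exact hb
  have hasq : ∀ i, a i ^ 2 = s i ^ 2 := by
    intro i
    simp only [ha]
    split_ifs
    · rfl
    · exact neg_sq _
  have hainj : Function.Injective a := by
    intro i l hil
    by_contra hne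
    apply hsq i l hne
    rw [← hasq, ← hasq, hil]
  have himg : Finset.univ.image a = A' := by
    apply Finset.eq_of_subset_of_card_le
    · intro x hx
      rw [Finset.mem_image] at hx
      obtain ⟨i, _, rfl⟩ := hx
      exact haA i
    · rw [Finset.card_image_of_injective _ hainj, Finset.card_univ, Fintype.card_fin, hcard]
  have hsum : ∑ i, a i = sg := by
    rw [hsg, ← himg, Finset.sum_image (fun x _ y _ h => hainj h)]
  set bt : ZMod q := ∑ i ∈ Finset.univ.filter (fun i => s i ∈ A'), a i with hbt
  have hbtmem : bt ∈ A'.subsetSum := by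
    rw [Finset.mem_subsetSum_iff]
    refine ⟨(Finset.univ.filter (fun i => s i ∈ A')).image a, ?_, ?_⟩
    · intro x hx
      rw [Finset.mem_image] at hx
      obtain ⟨i, _, rfl⟩ := hx
      exact haA i
    · rw [Finset.sum_image (fun x _ y _ h => hainj h)]
  have hss : ∑ i, s i = 2 * bt - sg := by
    have h1 : ∀ i, s i = 2 * (if s i ∈ A' then a i else 0) - a i := by
      intro i
      simp only [ha]
      split_ifs
      · ring
      · ring
    rw [Finset.sum_congr rfl fun i _ => h1 i, Finset.sum_sub_distrib, ← Finset.mul_sum, hsum,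
      ← Finset.sum_filter]
  have hmem : ∑ i, s i ∈ Cc := by
    apply hCsub
    rw [Finset.mem_image]
    exact ⟨bt, hbtmem, hss.symm⟩
  apply hs1 _ hmem
  rw [map_sub, map_sum, MvPolynomial.eval_C]
  simp only [MvPolynomial.eval_X, sub_self]

end SPR
end

section

set_option autoImplicit false

open Finset Pointwise

namespace SPR

/-- Cauchy - Davenport for many sets.  Induction with `ZMod.cauchy_davenport`. -/
theorem cd_multi {p : ℕ} [Fact p.Prime] {ι : Type*} [DecidableEq ι] (s : Finset ι)
    (X : ι → Finset (ZMod p)) (h : ∀ i ∈ s, (X i).Nonempty) :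
    min p (1 + ∑ i ∈ s, ((X i).card - 1)) ≤ (∑ i ∈ s, X i).card := by
  have key : (∑ i ∈ s, X i).Nonempty ∧
      min p (1 + ∑ i ∈ s, ((X i).card - 1)) ≤ (∑ i ∈ s, X i).card := by
    induction s using Finset.induction_on with
    | empty => simp
    | insert a s ha ih =>
      obtain ⟨hne, hle⟩ := ih (fun i hi => h i (Finset.mem_insert_of_mem hi))
      have hXa : (X a).Nonempty := h a (Finset.mem_insert_self a s)
      rw [Finset.sum_insert ha, Finset.sum_insert ha]
      refine ⟨hXa.add hne, ?_⟩
      have hcd := ZMod.cauchy_davenport (Fact.out : p.Prime) hXa hne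
      have h1 : 1 ≤ (X a).card := hXa.card_pos
      have h2 : 1 ≤ (∑ i ∈ s, X i).card := hne.card_pos
      refine le_trans ?_ hcd
      omega
  exact key.2

/-- The classes `S ⊆ I p` form an asymmetric subset of `ℤ/p` (`0 < i < p/2`), so
`|Σ S| ≥ min p (1 + T |S|)` by `balandraud`. (`p` odd or not: for `p = 2`, `I p = ∅`.) -/
theorem classes_bound (p : ℕ) [Fact p.Prime] (S : Finset ℕ) (hS : S ⊆ I p) :
    min p (1 + T S.card) ≤ ((S.image (fun i : ℕ => (i : ZMod p))).subsetSum).card := by
  have hp : p.Prime := Fact.out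
  have hp2 : 2 ≤ p := hp.two_le
  have hI : ∀ i ∈ S, 1 ≤ i ∧ 2 * i ≤ p - 1 := by
    intro i hi
    have := Finset.mem_Icc.mp (hS hi)
    constructor
    · exact this.1
    · have := this.2
      omega
  have hinj : Set.InjOn (fun i : ℕ => (i : ZMod p)) (S : Set ℕ) := by
    intro i hi j hj hij
    have h1 := hI i hi
    have h2 := hI j hj
    have h3 : (i : ZMod p) = (j : ZMod p) := hij
    rw [ZMod.natCast_eq_natCast_iff'] at h3
    rw [Nat.mod_eq_of_lt (by omega), Nat.mod_eq_of_lt (by omega)] at h3
    exact h3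
  have hcard : (S.image (fun i : ℕ => (i : ZMod p))).card = S.card :=
    Finset.card_image_of_injOn hinj
  have := balandraud p (S.image (fun i : ℕ => (i : ZMod p))) (by
    intro a ha hna
    obtain ⟨i, hi, rfl⟩ := Finset.mem_image.mp ha
    obtain ⟨j, hj, hj'⟩ := Finset.mem_image.mp hna
    have h1 := hI i hi
    have h2 := hI j hj
    have h3 : ((i + j : ℕ) : ZMod p) = 0 := by
      push_cast
      rw [hj']
      ring
    rw [ZMod.natCast_eq_zero_iff] at h3
    have := Nat.le_of_dvd (by omega) h3
    omega)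
  rw [hcard] at this
  exact this

end SPR
end

section

set_option autoImplicit false

open Finset Pointwise

namespace SPR

/-- Elements of a pointwise sum of finite sets. -/
private theorem mem_sum_sets {p : ℕ} {ι : Type*} [DecidableEq ι] (s : Finset ι)
    (X : ι → Finset (ZMod p)) :
    ∀ x : ZMod p, x ∈ ∑ i ∈ s, X i → ∃ g : ι → ZMod p, (∀ i ∈ s, g i ∈ X i) ∧
      ∑ i ∈ s, g i = x := by
  induction s using Finset.induction_on with
  | empty =>
    intro x hx
    simp only [Finset.sum_empty] at hx
    refine ⟨fun _ => 0, by simp, ?_⟩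
    have : x = 0 := by simpa using hx
    simp [this]
  | insert a s ha ih =>
    intro x hx
    rw [Finset.sum_insert ha] at hx
    obtain ⟨y, hy, z, hz, rfl⟩ := Finset.mem_add.mp hx
    obtain ⟨g, hg, hgz⟩ := ih z hz
    refine ⟨Function.update g a y, ?_, ?_⟩
    · intro i hi
      by_cases hia : i = a
      · subst hia
        simpa using hy
      · rw [Function.update_of_ne hia]
        exact hg i (Finset.mem_of_mem_insert_of_ne hi hia)
    · rw [Finset.sum_insert ha, Function.update_self]
      congr 1
      rw [← hgz]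
      refine Finset.sum_congr rfl ?_
      intro i hi
      rw [Function.update_of_ne]
      rintro rfl
      exact ha hi

/-- From lower bounds `min p (1 + w i) ≤ |X i|` to a lower bound for `|∑ X i|`. -/
private theorem sum_bound {p : ℕ} [Fact p.Prime] {ι : Type*} [DecidableEq ι] (s : Finset ι)
    (X : ι → Finset (ZMod p)) (w : ι → ℕ) (h : ∀ i ∈ s, min p (1 + w i) ≤ (X i).card) :
    min p (1 + ∑ i ∈ s, w i) ≤ (∑ i ∈ s, X i).card := by
  have hp : p.Prime := Fact.out
  have hp2 : 2 ≤ p := hp.two_le
  have hne : ∀ i ∈ s, (X i).Nonempty := by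
    intro i hi
    have := h i hi
    apply Finset.card_pos.mp
    omega
  refine le_trans ?_ (cd_multi s X hne)
  by_cases hbig : ∃ i ∈ s, p - 1 ≤ w i
  · obtain ⟨i, hi, hw⟩ := hbig
    have h1 := h i hi
    have h2 : (X i).card - 1 ≤ ∑ i ∈ s, ((X i).card - 1) :=
      Finset.single_le_sum (f := fun i => (X i).card - 1) (fun _ _ => Nat.zero_le _) hi
    omega
  · have hbig' : ∀ i ∈ s, w i < p - 1 := by
      intro i hi
      by_contra hcon
      exact hbig ⟨i, hi, by omega⟩
    have h3 : ∑ i ∈ s, w i ≤ ∑ i ∈ s, ((X i).card - 1) := by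
      apply Finset.sum_le_sum
      intro i hi
      have h1 := h i hi
      have h2 := hbig' i hi
      omega
    omega

private theorem I_bounds {p i : ℕ} (_hp2 : 2 ≤ p) (hi : i ∈ I p) : 1 ≤ i ∧ 2 * i ≤ p - 1 := by
  have := Finset.mem_Icc.mp hi
  constructor
  · exact this.1
  · have := this.2
    omega

private theorem cast_inj_I {p i j : ℕ} (hp2 : 2 ≤ p) (hi : i ∈ I p) (hj : j ∈ I p)
    (h : (i : ZMod p) = (j : ZMod p)) : i = j := by
  have h1 := I_bounds hp2 hi
  have h2 := I_bounds hp2 hj
  rw [ZMod.natCast_eq_natCast_iff'] at h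
  rw [Nat.mod_eq_of_lt (by omega), Nat.mod_eq_of_lt (by omega)] at h
  exact h

/-- Bound for `|Σ|` of a sequence with multiplicities `f_i`:
`R p f 0 = ∑_l Σ(S_l)`, `S_l = {i : f_i > l}` (`l < ∑ f_i`): each `t = ∑ i j_i` with `j_i ≤ f_i`; only
the inclusion `∑_l Σ(S_l) ⊆ R p f 0` is needed (if `B_l ⊆ S_l` then `j_i = #{l : i ∈ B_l} ≤ f_i`).
Then `cd_multi` and `classes_bound`. -/
theorem seq_bound (p : ℕ) [Fact p.Prime] (f : ℕ → ℕ) :
    min p (1 + U p f) ≤ (R p f 0).card := by
  classical
  have hp : p.Prime := Fact.out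
  have hp2 : 2 ≤ p := hp.two_le
  set N := ∑ i ∈ I p, f i with hN
  let S : ℕ → Finset ℕ := fun l => (I p).filter (fun i => l < f i)
  let X : ℕ → Finset (ZMod p) := fun l =>
    ((S l).image (fun i : ℕ => (i : ZMod p))).subsetSum
  have hX : ∀ l ∈ Finset.range N, min p (1 + T (S l).card) ≤ (X l).card := by
    intro l _
    exact classes_bound p (S l) (Finset.filter_subset _ _)
  have hb := sum_bound (Finset.range N) X (fun l => T (S l).card) hX
  have hU : U p f = ∑ l ∈ Finset.range N, T (S l).card := rfl
  rw [hU]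
  refine le_trans hb (Finset.card_le_card ?_)
  intro x hx
  obtain ⟨g, hg, rfl⟩ := mem_sum_sets (Finset.range N) X x hx
  have hB : ∀ l, ∃ B : Finset (ZMod p), l ∈ Finset.range N →
      (B ⊆ (S l).image (fun i : ℕ => (i : ZMod p)) ∧ ∑ b ∈ B, b = g l) := by
    intro l
    by_cases hl : l ∈ Finset.range N
    · obtain ⟨B, h1, h2⟩ := Finset.mem_subsetSum_iff.mp (hg l hl)
      exact ⟨B, fun _ => ⟨h1, h2⟩⟩
    · exact ⟨∅, fun h => absurd h hl⟩
  choose B hB using hB
  rw [R, Finset.mem_filter]
  refine ⟨Finset.mem_univ _,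
    fun i => ((Finset.range N).filter (fun l => (i : ZMod p) ∈ B l)).card, ?_, ?_, Nat.zero_le _⟩
  · intro i hi
    have hsub : (Finset.range N).filter (fun l => (i : ZMod p) ∈ B l) ⊆ Finset.range (f i) := by
      intro l hl
      obtain ⟨hl1, hl2⟩ := Finset.mem_filter.mp hl
      obtain ⟨i', hi', hii'⟩ := Finset.mem_image.mp ((hB l hl1).1 hl2)
      obtain ⟨h3, h4⟩ := Finset.mem_filter.mp hi'
      have : i' = i := cast_inj_I hp2 h3 hi hii'
      subst this
      exact Finset.mem_range.mpr h4
    calc ((Finset.range N).filter (fun l => (i : ZMod p) ∈ B l)).card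
        ≤ (Finset.range (f i)).card := Finset.card_le_card hsub
      _ = f i := Finset.card_range _
  · unfold pos
    have h1 : ∀ i ∈ I p, (i : ZMod p) *
        ((((Finset.range N).filter (fun l => (i : ZMod p) ∈ B l)).card : ℕ) : ZMod p)
        = ∑ l ∈ Finset.range N, if (i : ZMod p) ∈ B l then (i : ZMod p) else 0 := by
      intro i _
      rw [← Finset.sum_filter, Finset.sum_const, nsmul_eq_mul, mul_comm]
    rw [Finset.sum_congr rfl h1, Finset.sum_comm]
    refine Finset.sum_congr rfl ?_
    intro l hl
    obtain ⟨h2, h3⟩ := hB l hl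
    rw [← h3]
    have h4 : B l = ((I p).filter (fun i : ℕ => (i : ZMod p) ∈ B l)).image
        (fun i : ℕ => (i : ZMod p)) := by
      ext b
      constructor
      · intro hb'
        obtain ⟨i, hi, rfl⟩ := Finset.mem_image.mp (h2 hb')
        exact Finset.mem_image.mpr ⟨i, Finset.mem_filter.mpr ⟨(Finset.mem_filter.mp hi).1, hb'⟩, rfl⟩
      · intro hb'
        obtain ⟨i, hi, rfl⟩ := Finset.mem_image.mp hb'
        exact (Finset.mem_filter.mp hi).2
    have h5 : ∑ b ∈ B l, b = ∑ i ∈ (I p).filter (fun i : ℕ => (i : ZMod p) ∈ B l), ((i : ℕ) : ZMod p) := by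
      conv_lhs => rw [h4]
      rw [Finset.sum_image]
      intro i hi j hj hij
      exact cast_inj_I hp2 (Finset.mem_filter.mp hi).1 (Finset.mem_filter.mp hj).1 hij
    rw [h5, Finset.sum_filter]

/-- Weaker bound: `∑ f_i` elements, each class contributes `{0, i, ..., f_i i}` with
`min p (f_i + 1)` elements; `cd_multi`. -/
theorem seq_bound' (p : ℕ) [Fact p.Prime] (f : ℕ → ℕ) :
    min p (1 + ∑ i ∈ I p, f i) ≤ (R p f 0).card := by
  classical
  have hp : p.Prime := Fact.out
  have hp2 : 2 ≤ p := hp.two_le
  let X : ℕ → Finset (ZMod p) := fun i =>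
    (Finset.range (f i + 1)).image (fun j : ℕ => (i : ZMod p) * (j : ZMod p))
  have hX : ∀ i ∈ I p, min p (1 + f i) ≤ (X i).card := by
    intro i hi
    have h1 := I_bounds hp2 hi
    have hi0 : (i : ZMod p) ≠ 0 := by
      intro h0
      rw [ZMod.natCast_eq_zero_iff] at h0
      have := Nat.le_of_dvd (by omega) h0
      omega
    have hsub : (Finset.range (min p (1 + f i))).image
        (fun j : ℕ => (i : ZMod p) * (j : ZMod p)) ⊆ X i := by
      apply Finset.image_subset_image
      intro j hj
      rw [Finset.mem_range] at hj ⊢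
      omega
    have hinj : Set.InjOn (fun j : ℕ => (i : ZMod p) * (j : ZMod p))
        ((Finset.range (min p (1 + f i)) : Finset ℕ) : Set ℕ) := by
      intro a ha b hb hab
      have ha' := Finset.mem_range.mp (Finset.mem_coe.mp ha)
      have hb' := Finset.mem_range.mp (Finset.mem_coe.mp hb)
      have h3 : (a : ZMod p) = (b : ZMod p) := mul_left_cancel₀ hi0 hab
      rw [ZMod.natCast_eq_natCast_iff'] at h3
      rw [Nat.mod_eq_of_lt (by omega), Nat.mod_eq_of_lt (by omega)] at h3
      exact h3
    calc min p (1 + f i) = ((Finset.range (min p (1 + f i))).image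
          (fun j : ℕ => (i : ZMod p) * (j : ZMod p))).card := by
          rw [Finset.card_image_of_injOn hinj, Finset.card_range]
      _ ≤ (X i).card := Finset.card_le_card hsub
  have hb := sum_bound (I p) X f hX
  refine le_trans hb (Finset.card_le_card ?_)
  intro x hx
  obtain ⟨g, hg, rfl⟩ := mem_sum_sets (I p) X x hx
  have hJ : ∀ i, ∃ j : ℕ, i ∈ I p → (j ≤ f i ∧ (i : ZMod p) * (j : ZMod p) = g i) := by
    intro i
    by_cases hi : i ∈ I p
    · obtain ⟨j, hj, hj'⟩ := Finset.mem_image.mp (hg i hi)
      exact ⟨j, fun _ => ⟨by have := Finset.mem_range.mp hj; omega, hj'⟩⟩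
    · exact ⟨0, fun h => absurd h hi⟩
  choose j hj using hJ
  rw [R, Finset.mem_filter]
  refine ⟨Finset.mem_univ _, j, fun i hi => (hj i hi).1, ?_, Nat.zero_le _⟩
  unfold pos
  exact Finset.sum_congr rfl (fun i hi => (hj i hi).2)

end SPR
end
end

section

section

set_option autoImplicit false

open Finset

namespace SPR

variable {p : ℕ} [Fact p.Prime]

lemma mem_R {a : ℕ → ℕ} {v : ℕ} {t : ZMod p} :
    t ∈ R p a v ↔ ∃ j : ℕ → ℕ, (∀ i ∈ I p, j i ≤ a i) ∧ pos p j = t ∧ v ≤ gain p a j := by
  classical
  simp [R]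

lemma R_anti (a : ℕ → ℕ) {v w : ℕ} (h : v ≤ w) : R p a w ⊆ R p a v := by
  intro t ht
  rw [mem_R] at ht ⊢
  obtain ⟨j, h1, h2, h3⟩ := ht
  exact ⟨j, h1, h2, h.trans h3⟩

private lemma aux_mul_le (a j : ℕ) : j * (a - j) ≤ a ^ 2 / 4 := by
  rw [Nat.le_div_iff_mul_le (by norm_num)]
  rcases le_total j a with h | h
  · obtain ⟨k, rfl⟩ := Nat.exists_eq_add_of_le h
    rw [Nat.add_sub_cancel_left]
    have h1 : j * k * 4 ≤ (j + k) ^ 2 := by
      have h2 : ((j * k * 4 : ℕ) : ℤ) ≤ (((j + k) ^ 2 : ℕ) : ℤ) := by
        push_cast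
        nlinarith [sq_nonneg ((j : ℤ) - k)]
      exact_mod_cast h2
    exact h1
  · rw [Nat.sub_eq_zero_of_le h]
    simp

/-- `j (a - j) ≤ a^2 / 4`. -/
lemma gain_le (a j : ℕ → ℕ) : gain p a j ≤ Gam p a := by
  unfold gain Gam
  exact Finset.sum_le_sum fun i _ => aux_mul_le _ _

lemma R_empty (a : ℕ → ℕ) {v : ℕ} (h : Gam p a < v) : R p a v = ∅ := by
  rw [Finset.eq_empty_iff_forall_notMem]
  intro t ht
  rw [mem_R] at ht
  obtain ⟨j, _, _, h3⟩ := ht
  exact absurd (h3.trans (gain_le a j)) (not_le.mpr h)

private lemma aux_half (a : ℕ) : a / 2 * (a - a / 2) = a ^ 2 / 4 := by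
  rcases Nat.even_or_odd' a with ⟨k, rfl | rfl⟩
  · have h1 : 2 * k / 2 = k := by omega
    have h2 : 2 * k - k = k := by omega
    rw [h1, h2]
    have h3 : (2 * k) ^ 2 = 4 * (k * k) := by ring
    rw [h3, Nat.mul_div_cancel_left _ (by norm_num)]
  · have h1 : (2 * k + 1) / 2 = k := by omega
    have h2 : 2 * k + 1 - k = k + 1 := by omega
    rw [h1, h2]
    have h3 : (2 * k + 1) ^ 2 = 1 + 4 * (k * (k + 1)) := by ring
    rw [h3, Nat.add_mul_div_left _ _ (by norm_num)]
    simp

/-- the balanced choice `j_i = a_i / 2` has gain `Gam`, so `R p a v` is nonempty for `v ≤ Gam`. -/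
lemma R_nonempty (a : ℕ → ℕ) {v : ℕ} (h : v ≤ Gam p a) : (R p a v).Nonempty := by
  refine ⟨pos p (fun i => a i / 2), ?_⟩
  rw [mem_R]
  refine ⟨fun i => a i / 2, fun i _ => Nat.div_le_self _ _, rfl, ?_⟩
  refine h.trans (le_of_eq ?_)
  unfold gain Gam
  exact Finset.sum_congr rfl fun i _ => (aux_half (a i)).symm

/-- Lift.  If `f_i ≤ a_i` and `f_i ≡ a_i (mod 2)` on `I p`, then with `g_i = (a_i - f_i)/2`
and `j' = j + g` one has `j'(a - j') = j (f - j) + (a^2/4 - f^2/4)`, so `R p a (v + (Gam a - Gam f))`
contains a translate of `R p f v`. -/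
lemma lift (a f : ℕ → ℕ) (h1 : ∀ i ∈ I p, f i ≤ a i) (h2 : ∀ i ∈ I p, a i % 2 = f i % 2) (v : ℕ) :
    (R p f v).card ≤ (R p a (v + (Gam p a - Gam p f))).card := by
  classical
  set g : ℕ → ℕ := fun i => (a i - f i) / 2 with hg
  have ha : ∀ i ∈ I p, a i = f i + 2 * g i := by
    intro i hi
    have := h1 i hi
    have := h2 i hi
    simp only [hg]
    omega
  refine Finset.card_le_card_of_injOn (fun t => t + pos p g) ?_ ?_
  · intro t ht
    have ht' : t ∈ R p f v := ht
    rw [mem_R] at ht'
    obtain ⟨j, hj1, hj2, hj3⟩ := ht'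
    show t + pos p g ∈ R p a (v + (Gam p a - Gam p f))
    rw [mem_R]
    refine ⟨fun i => j i + g i, ?_, ?_, ?_⟩
    · intro i hi
      have := hj1 i hi
      have := ha i hi
      show j i + g i ≤ a i
      omega
    · rw [← hj2]
      unfold pos
      rw [← Finset.sum_add_distrib]
      refine Finset.sum_congr rfl fun i _ => ?_
      push_cast
      ring
    · have hG : Gam p a = Gam p f + ∑ i ∈ I p, (f i * g i + g i * g i) := by
        unfold Gam
        rw [← Finset.sum_add_distrib]
        refine Finset.sum_congr rfl fun i hi => ?_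
        rw [ha i hi]
        have h3 : (f i + 2 * g i) ^ 2 = f i ^ 2 + 4 * (f i * g i + g i * g i) := by ring
        rw [h3, Nat.add_mul_div_left _ _ (by norm_num)]
      have hga : gain p a (fun i => j i + g i) = gain p f j + ∑ i ∈ I p, (f i * g i + g i * g i) := by
        unfold gain
        rw [← Finset.sum_add_distrib]
        refine Finset.sum_congr rfl fun i hi => ?_
        have hji := hj1 i hi
        obtain ⟨k, hk⟩ := Nat.exists_eq_add_of_le hji
        rw [ha i hi, hk]
        have e1 : j i + k + 2 * g i - (j i + g i) = k + g i := by omega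
        have e2 : j i + k - j i = k := by omega
        rw [e1, e2]
        ring
      rw [hG, hga, Nat.add_sub_cancel_left]
      exact Nat.add_le_add_right hj3 _
  · intro x _ y _ hxy
    exact add_right_cancel hxy

/-- `|R a' 0| ≤ |R a 0|` (even `R a' 0 ⊆ R a 0`). -/
lemma R_update_le (a : ℕ → ℕ) (i : ℕ) :
    (R p (Function.update a i (a i - 2)) 0).card ≤ (R p a 0).card := by
  refine Finset.card_le_card ?_
  intro t ht
  rw [mem_R] at ht ⊢
  obtain ⟨j, h1, h2, _⟩ := ht
  refine ⟨j, fun k hk => (h1 k hk).trans ?_, h2, Nat.zero_le _⟩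
  by_cases hki : k = i
  · subst hki
    rw [Function.update_self]
    omega
  · rw [Function.update_of_ne hki]

end SPR
end

section

set_option autoImplicit false

open Finset

namespace SPR

variable {p : ℕ} [Fact p.Prime]

private lemma b1_sum_Icc (f : ℕ → ℕ) (n : ℕ) :
    ∑ v ∈ Finset.Icc 1 n, f v = ∑ v ∈ Finset.range n, f (v + 1) := by
  induction n with
  | zero => simp
  | succ n ih => rw [Finset.sum_Icc_succ_top (by omega), ih, Finset.sum_range_succ]

private lemma b1_sq (b : ℕ) : (b + 2) ^ 2 / 4 = b ^ 2 / 4 + (b + 1) := by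
  have h : (b + 2) ^ 2 = b ^ 2 + (b + 1) * 4 := by ring
  rw [h, Nat.add_mul_div_right _ _ (by norm_num)]

/-- Peeling: replacing `a_i ≥ 2` by `a_i - 2` (`Gam` drops by `a_i - 1`).
`EE a = ∑_{v=1}^{a_i - 1} |R a v| + ∑_{v' = 1}^{Gam a'} |R a (v' + (a_i - 1))|`, and
`|R a (v' + (a_i - 1))| ≥ |R a' v'|` by `lift`, `|R a v| ≥ |R a (a_i - 1)| ≥ |R a' 0|` for
`v ≤ a_i - 1`. -/
lemma peel (a : ℕ → ℕ) (i : ℕ) (hi : i ∈ I p) (h2 : 2 ≤ a i) :
    EE p (Function.update a i (a i - 2)) + (a i - 1) * (R p (Function.update a i (a i - 2)) 0).card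
      ≤ EE p a := by
  classical
  obtain ⟨b, hb⟩ : ∃ b, a i = b + 2 := ⟨a i - 2, by omega⟩
  have hb1 : a i - 1 = b + 1 := by omega
  have hb2 : a i - 2 = b := by omega
  rw [hb1, hb2]
  set a' := Function.update a i b with ha'
  have ha'i : a' i = b := by rw [ha', Function.update_self]
  have ha'k : ∀ k, k ≠ i → a' k = a k := fun k hk => by rw [ha', Function.update_of_ne hk]
  have h1 : ∀ k ∈ I p, a' k ≤ a k := by
    intro k _
    by_cases hk : k = i
    · subst hk; omega
    · rw [ha'k k hk]
  have h2' : ∀ k ∈ I p, a k % 2 = a' k % 2 := by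
    intro k _
    by_cases hk : k = i
    · subst hk; omega
    · rw [ha'k k hk]
  have hG : Gam p a = (b + 1) + Gam p a' := by
    unfold Gam
    rw [← Finset.add_sum_erase (I p) (fun k => a k ^ 2 / 4) hi,
      ← Finset.add_sum_erase (I p) (fun k => a' k ^ 2 / 4) hi]
    have e1 : ∑ k ∈ (I p).erase i, a' k ^ 2 / 4 = ∑ k ∈ (I p).erase i, a k ^ 2 / 4 := by
      refine Finset.sum_congr rfl fun k hk => ?_
      rw [ha'k k (Finset.ne_of_mem_erase hk)]
    rw [e1, ha'i, hb, b1_sq]
    ring
  have hd : Gam p a - Gam p a' = b + 1 := by omega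
  have hl : ∀ v, (R p a' v).card ≤ (R p a (v + (b + 1))).card := by
    intro v
    have := lift a a' h1 h2' v
    rwa [hd] at this
  unfold EE
  rw [hG, b1_sum_Icc, b1_sum_Icc, Finset.sum_range_add]
  have h3 : (b + 1) * (R p a' 0).card ≤ ∑ x ∈ Finset.range (b + 1), (R p a (x + 1)).card := by
    have : ∑ _x ∈ Finset.range (b + 1), (R p a' 0).card = (b + 1) * (R p a' 0).card := by
      rw [Finset.sum_const, Finset.card_range, smul_eq_mul]
    rw [← this]
    refine Finset.sum_le_sum fun x hx => ?_
    refine (hl 0).trans (Finset.card_le_card (R_anti a ?_))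
    rw [Finset.mem_range] at hx
    omega
  have h4 : ∑ v ∈ Finset.range (Gam p a'), (R p a' (v + 1)).card ≤
      ∑ x ∈ Finset.range (Gam p a'), (R p a (b + 1 + x + 1)).card := by
    refine Finset.sum_le_sum fun x _ => ?_
    have := hl (x + 1)
    have e : x + 1 + (b + 1) = b + 1 + x + 1 := by ring
    rwa [e] at this
  omega

end SPR
end
end
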