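import Pool.Agent.Lib.MP_d3cc86_co.Upper
import Pool.Agent.Lib.MP_d3cc86_co.SP.N1
import Pool.Agent.Lib.MP_d3cc86_co.SP.B1

section

section

set_option autoImplicit false

open Finset Pointwise

namespace SPR

/-- If every `a ∈ A` is `c(a)` plus an element of the subgroup of order `h` (generated by `k`,
`n = h k`), then `Σ A` lies in `{0, 1, ..., ∑ c} + H`.  (Compare `subsetSum_card_le` in `Upper.lean`.) -/
lemma subsetSum_card_le_weight {n : ℕ} (hn : 0 < n) {h k : ℕ} (hk : n = h * k) (A : Finset (ZMod n))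
    (c : ZMod n → ℕ) (hc : ∀ a ∈ A, a - (c a : ZMod n) ∈ AddSubgroup.zmultiples (k : ZMod n)) :
    A.subsetSum.card ≤ h * (1 + ∑ a ∈ A, c a) := by
  classical
  haveI : NeZero n := ⟨hn.ne'⟩
  have hk0 : 0 < k := by
    rcases Nat.eq_zero_or_pos k with h' | h'
    · subst h'; omega
    · exact h'
  set K := AddSubgroup.zmultiples (k : ZMod n) with hK
  set Kf : Finset (ZMod n) := univ.filter (fun x => x ∈ K) with hKf
  have hKc : Kf.card = h := by
    have e1 : Kf.card = Nat.card K := by
      rw [Nat.card_eq_fintype_card, Fintype.card_subtype]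
    rw [e1, hK, Nat.card_zmultiples, ZMod.addOrderOf_coe _ hn.ne']
    rw [hk]
    have : Nat.gcd (h * k) k = k := Nat.gcd_eq_right (Dvd.intro_left h rfl)
    rw [this]
    exact Nat.mul_div_cancel _ hk0
  have hsub : A.subsetSum ⊆
      (Finset.range (1 + ∑ a ∈ A, c a) ×ˢ Kf).image (fun p : ℕ × ZMod n => (p.1 : ZMod n) + p.2) := by
    intro x hx
    rw [Finset.mem_subsetSum_iff] at hx
    obtain ⟨B, hB, rfl⟩ := hx
    rw [Finset.mem_image]
    refine ⟨(∑ b ∈ B, c b, ∑ b ∈ B, (b - (c b : ZMod n))), ?_, ?_⟩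
    · rw [Finset.mem_product, Finset.mem_range, hKf, Finset.mem_filter]
      refine ⟨?_, Finset.mem_univ _, ?_⟩
      · have : ∑ b ∈ B, c b ≤ ∑ a ∈ A, c a := Finset.sum_le_sum_of_subset hB
        simp only
        omega
      · exact K.sum_mem (fun b hb => hc b (hB hb))
    · simp only [Finset.sum_sub_distrib, Nat.cast_sum]
      ring
  calc _ ≤ _ := Finset.card_le_card hsub
    _ ≤ _ := Finset.card_image_le
    _ = _ := by rw [Finset.card_product, Finset.card_range, hKc, mul_comm]

end SPR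
end

section

set_option autoImplicit false

open Finset Pointwise

namespace SPR

private lemma UP_sum_block (h : ℕ) (hh : 0 < h) (Q s : ℕ) (hs : s ≤ h) :
    ∑ j ∈ range s, ((Q * h + j) / h + 1) = s * (Q + 1) := by
  have : ∀ j ∈ range s, (Q * h + j) / h + 1 = Q + 1 := by
    intro j hj
    rw [mem_range] at hj
    have h1 : (Q * h + j) / h = Q := by
      rw [add_comm, Nat.add_mul_div_right _ _ hh, Nat.div_eq_of_lt (by omega), zero_add]
    rw [h1]
  rw [sum_congr rfl this, sum_const, card_range, smul_eq_mul]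

private lemma UP_sum (h : ℕ) (hh : 0 < h) (Q s : ℕ) (hs : s ≤ h) :
    ∑ i ∈ range (Q * h + s), (i / h + 1) = h * T Q + s * (Q + 1) := by
  have h0 : ∀ Q : ℕ, ∑ i ∈ range (Q * h), (i / h + 1) = h * T Q := by
    intro Q
    induction Q with
    | zero => simp [T]
    | succ Q ih =>
      rw [Nat.succ_mul, Finset.sum_range_add, ih, UP_sum_block h hh Q h le_rfl, T_succ]
      ring
  rw [Finset.sum_range_add, h0, UP_sum_block h hh Q s hs]

/-- The extremal sets.  `n` odd, `n = h k`; if `m ≤ (h-1)/2` take `{k, 2k, ..., m k}` (`c = 0`);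
otherwise `m - (h-1)/2 = Q h + s`, `s < h`: `A = {j k : 1 ≤ j ≤ (h-1)/2} ∪ {c + j k : 1 ≤ c ≤ Q, j < h} ∪
{Q + 1 + j k : j < s}` (naturals `< n`, remainders `c ≤ (k-1)/2` modulo `k` because
`m ≤ (n-1)/2 = (h-1)/2 + h (k-1)/2`; so no two of them have sum `n`; `reps` in `Upper.lean`), weight
`∑ c = h T(Q) + s (Q+1)`. -/
theorem upper (n h m : ℕ) (hn : n % 2 = 1) (hd : h ∣ n) (hm : m ≤ (n - 1) / 2) :
    ∃ A : Finset (ZMod n), A.card = m ∧ (∀ a ∈ A, -a ∉ A) ∧ A.subsetSum.card ≤ phi h m := by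
  classical
  have hn0 : 0 < n := by omega
  have : NeZero n := ⟨hn0.ne'⟩
  obtain ⟨k, hk⟩ := hd
  have hodd : h % 2 = 1 ∧ k % 2 = 1 := by
    have h1 : (h * k) % 2 = 1 := by rw [← hk]; exact hn
    rw [Nat.mul_mod] at h1
    rcases Nat.mod_two_eq_zero_or_one h with h2 | h2 <;>
      rcases Nat.mod_two_eq_zero_or_one k with h3 | h3 <;> simp [h2, h3] at h1 ⊢
  have hh0 : 0 < h := by omega
  have hk0 : 0 < k := by omega
  obtain ⟨h', hh'⟩ : ∃ h', h = 2 * h' + 1 := ⟨h / 2, by omega⟩
  obtain ⟨k', hk'⟩ : ∃ k', k = 2 * k' + 1 := ⟨k / 2, by omega⟩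
  have hm0 : (h - 1) / 2 = h' := by omega
  have hn2 : (n - 1) / 2 = h' + h * k' := by
    have : n = 2 * (h' + h * k') + 1 := by
      rw [hk, hk', hh']
      ring
    omega
  set M : ℕ := m - h' with hM
  have hMle : M ≤ h * k' := by omega
  -- the quotients
  have hq : ∀ i, i < M → i / h + 1 ≤ k' := by
    intro i hi
    have h1 : i / h < k' := by
      rw [Nat.div_lt_iff_lt_mul hh0, mul_comm]
      omega
    omega
  set f : ℕ → ℕ := fun i => i / h + 1 + (i % h) * k with hf
  have hfmod : ∀ i, i < M → f i % k = i / h + 1 := by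
    intro i hi
    have h1 := hq i hi
    simp only [hf]
    rw [Nat.add_mul_mod_self_right]
    exact Nat.mod_eq_of_lt (by omega)
  have hflt : ∀ i, i < M → f i < n := by
    intro i hi
    have h1 := hq i hi
    have h2 : i % h < h := Nat.mod_lt i hh0
    have h3 : (i % h + 1) * k ≤ h * k := Nat.mul_le_mul_right k (by omega)
    have h4 : (i % h + 1) * k = (i % h) * k + k := by ring
    simp only [hf]
    omega
  have hfinj : ∀ i, i < M → ∀ j, j < M → f i = f j → i = j := by
    intro i hi j hj hij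
    have h1 : i / h = j / h := by
      have h2 := hfmod i hi
      have h3 := hfmod j hj
      rw [hij] at h2
      omega
    have h4 : (i % h) * k = (j % h) * k := by
      simp only [hf] at hij
      omega
    have h5 : i % h = j % h := Nat.eq_of_mul_eq_mul_right hk0 h4
    rw [← Nat.div_add_mod i h, ← Nat.div_add_mod j h, h1, h5]
  set R0 : Finset ℕ := (Finset.Icc 1 (min m h')).image (fun j => j * k) with hR0
  set R1 : Finset ℕ := (Finset.range M).image f with hR1
  have hR0c : R0.card = min m h' := by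
    rw [hR0, Finset.card_image_of_injective _ (fun a b hab => Nat.eq_of_mul_eq_mul_right hk0 hab),
      Nat.card_Icc]
    omega
  have hfinj' : Set.InjOn f ((Finset.range M : Finset ℕ) : Set ℕ) := by
    intro i hi j hj hij
    have hi' : i < M := Finset.mem_range.1 hi
    have hj' : j < M := Finset.mem_range.1 hj
    exact hfinj i hi' j hj' hij
  have hR1c : R1.card = M := by
    rw [hR1, Finset.card_image_of_injOn hfinj', Finset.card_range]
  have hR0p : ∀ r ∈ R0, ∃ j, r = j * k ∧ 0 < j ∧ j ≤ h' := by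
    intro r hr
    rw [hR0, Finset.mem_image] at hr
    obtain ⟨j, hj, rfl⟩ := hr
    rw [Finset.mem_Icc] at hj
    exact ⟨j, rfl, by omega, by omega⟩
  have hR1p : ∀ r ∈ R1, 0 < r % k ∧ r % k ≤ k' ∧ r < n := by
    intro r hr
    rw [hR1, Finset.mem_image] at hr
    obtain ⟨i, hi, rfl⟩ := hr
    rw [Finset.mem_range] at hi
    have h1 := hq i hi
    have h2 := hfmod i hi
    exact ⟨by rw [h2]; exact Nat.succ_pos _, by rw [h2]; exact h1, hflt i hi⟩
  have hmodR : ∀ r ∈ R0, r % k = 0 := by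
    intro r hr
    obtain ⟨j, rfl, _⟩ := hR0p r hr
    exact Nat.mul_mod_left j k
  have hmodn : n % k = 0 := by rw [hk]; exact Nat.mul_mod_left h k
  have hdisj : Disjoint R0 R1 := by
    rw [Finset.disjoint_left]
    intro r h0 h1
    have e1 := hmodR r h0
    have e2 := (hR1p r h1).1
    omega
  have hRlt : ∀ r ∈ R0 ∪ R1, 0 < r ∧ r < n := by
    intro r hr
    rw [Finset.mem_union] at hr
    rcases hr with hr | hr
    · obtain ⟨j, rfl, hj0, hj⟩ := hR0p r hr
      refine ⟨Nat.mul_pos hj0 hk0, ?_⟩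
      rw [hk]
      exact Nat.mul_lt_mul_of_pos_right (by omega) hk0
    · obtain ⟨h1, _, h3⟩ := hR1p r hr
      refine ⟨?_, h3⟩
      rcases Nat.eq_zero_or_pos r with h4 | h4
      · subst h4; simp at h1
      · exact h4
  have hRk : ∀ r ∈ R0 ∪ R1, r % k ≤ k' := by
    intro r hr
    rw [Finset.mem_union] at hr
    rcases hr with hr | hr
    · rw [hmodR r hr]; exact Nat.zero_le _
    · exact (hR1p r hr).2.1
  obtain ⟨hc, ha⟩ := Pool.Agent.Lib.MP_d3cc86_co.reps hn0 (R0 ∪ R1) hRlt (by
    intro r hr s hs hrs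
    have e1 := hRk r hr
    have e2 := hRk s hs
    have e3 : (r + s) % k = r % k + s % k := by
      rw [Nat.add_mod]
      exact Nat.mod_eq_of_lt (by omega)
    rw [hrs, hmodn] at e3
    have e4 : r % k = 0 := by omega
    have e5 : s % k = 0 := by omega
    rw [Finset.mem_union] at hr hs
    have hr0 : r ∈ R0 := by
      rcases hr with hr | hr
      · exact hr
      · have := (hR1p r hr).1
        omega
    have hs0 : s ∈ R0 := by
      rcases hs with hs | hs
      · exact hs
      · have := (hR1p s hs).1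
        omega
    obtain ⟨j, rfl, _, hj⟩ := hR0p r hr0
    obtain ⟨i, rfl, _, hi⟩ := hR0p s hs0
    have e6 : (j + i) * k = h * k := by
      rw [← hk, ← hrs]; ring
    have e7 := Nat.eq_of_mul_eq_mul_right hk0 e6
    omega)
  refine ⟨(R0 ∪ R1).image (fun r : ℕ => (r : ZMod n)), ?_, ha, ?_⟩
  · rw [hc, Finset.card_union_of_disjoint hdisj, hR0c, hR1c]
    omega
  · have h1 := subsetSum_card_le_weight hn0 hk ((R0 ∪ R1).image (fun r : ℕ => (r : ZMod n)))
      (fun a => a.val % k) (by
        intro a _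
        rw [AddSubgroup.mem_zmultiples_iff]
        refine ⟨((a.val / k : ℕ) : ℤ), ?_⟩
        have h2 : (a.val : ZMod n) = a := ZMod.natCast_zmod_val a
        have h3 : a.val = a.val / k * k + a.val % k := by
          rw [mul_comm]; exact (Nat.div_add_mod _ _).symm
        have h4 : (a : ZMod n) = ((a.val / k * k + a.val % k : ℕ) : ZMod n) := by
          rw [← h3]; exact h2.symm
        have h5 : a - ((a.val % k : ℕ) : ZMod n) = ((a.val / k * k : ℕ) : ZMod n) := by
          have h6 : ((a.val / k * k + a.val % k : ℕ) : ZMod n) =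
              ((a.val / k * k : ℕ) : ZMod n) + ((a.val % k : ℕ) : ZMod n) := by push_cast; ring
          rw [h6] at h4
          rw [sub_eq_iff_eq_add]
          exact h4
        rw [h5, Nat.cast_mul, natCast_zsmul, nsmul_eq_mul])
    refine h1.trans ?_
    unfold phi
    apply Nat.mul_le_mul_left
    have hinj : Set.InjOn (fun r : ℕ => (r : ZMod n)) ((R0 ∪ R1 : Finset ℕ) : Set ℕ) := by
      intro r hr s hs hrs
      have hr' := (hRlt r hr).2
      have hs' := (hRlt s hs).2
      have h3 : (r : ZMod n) = (s : ZMod n) := hrs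
      rw [ZMod.natCast_eq_natCast_iff'] at h3
      rwa [Nat.mod_eq_of_lt hr', Nat.mod_eq_of_lt hs'] at h3
    rw [Finset.sum_image hinj]
    have h2 : ∑ r ∈ R0 ∪ R1, ((r : ZMod n)).val % k = ∑ r ∈ R0 ∪ R1, r % k := by
      refine Finset.sum_congr rfl fun r hr => ?_
      rw [ZMod.val_natCast, Nat.mod_eq_of_lt (hRlt r hr).2]
    rw [h2, Finset.sum_union hdisj, Finset.sum_eq_zero hmodR, zero_add, hR1,
      Finset.sum_image hfinj']
    have h3 : ∑ i ∈ range M, f i % k = ∑ i ∈ range M, (i / h + 1) := by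
      refine Finset.sum_congr rfl fun i hi => ?_
      exact hfmod i (Finset.mem_range.1 hi)
    rw [h3, hm0, ← hM]
    have h4 : M = M / h * h + M % h := by
      rw [mul_comm]; exact (Nat.div_add_mod _ _).symm
    have h5 := UP_sum h hh0 (M / h) (M % h) (Nat.mod_lt M hh0).le
    rw [← h4] at h5
    rw [h5]
    omega

end SPR
end
end

section

section

set_option autoImplicit false

open Finset

namespace SPR

/-- number of classes with more than `l` elements -/
def sl (p : ℕ) (f : ℕ → ℕ) (l : ℕ) : ℕ := ((I p).filter (fun i => l < f i)).card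

private lemma sl_eq_zero_U0a (p : ℕ) (f : ℕ → ℕ) (l : ℕ) (h : ∀ i ∈ I p, f i ≤ l) :
    sl p f l = 0 := by
  unfold sl
  rw [Finset.card_eq_zero, Finset.filter_eq_empty_iff]
  intro i hi
  exact not_lt.2 (h i hi)

private lemma T_zero_U0a : T 0 = 0 := by
  unfold T
  rfl

private lemma two_T_U0a (s : ℕ) : 2 * T s = s * (s + 1) := by
  unfold T
  have h : 2 ∣ s * (s + 1) := (Nat.even_mul_succ_self s).two_dvd
  exact Nat.mul_div_cancel' h

private lemma T_succ_U0a (s : ℕ) : T (s + 1) = T s + (s + 1) := by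
  have h1 := two_T_U0a s
  have h2 := two_T_U0a (s + 1)
  have h3 : (s + 1) * (s + 1 + 1) = s * (s + 1) + 2 * (s + 1) := by ring
  omega

private lemma sum_range_ext_U0a (p : ℕ) (f : ℕ → ℕ) (N M : ℕ) (hN : ∀ i ∈ I p, f i ≤ N)
    (hNM : N ≤ M) :
    ∑ l ∈ Finset.range N, T (sl p f l) = ∑ l ∈ Finset.range M, T (sl p f l) := by
  refine Finset.sum_subset (Finset.range_subset_range.2 hNM) ?_
  intro l _ hl
  rw [Finset.mem_range, not_lt] at hl
  rw [sl_eq_zero_U0a p f l (fun i hi => (hN i hi).trans hl), T_zero_U0a]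

/-- `U` can be computed with any range `N` that contains all levels (the other levels are `0`:
`f i ≤ ∑ f`). -/
lemma U_eq (p : ℕ) (f : ℕ → ℕ) (N : ℕ) (hN : ∀ i ∈ I p, f i ≤ N) :
    U p f = ∑ l ∈ Finset.range N, T (sl p f l) := by
  have hS : ∀ i ∈ I p, f i ≤ ∑ i ∈ I p, f i := fun i hi =>
    Finset.single_le_sum (f := f) (fun j _ => Nat.zero_le _) hi
  show ∑ l ∈ Finset.range (∑ i ∈ I p, f i), T (sl p f l) = _
  rw [sum_range_ext_U0a p f _ (max N (∑ i ∈ I p, f i)) hS (le_max_right _ _),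
    sum_range_ext_U0a p f N _ hN (le_max_left _ _)]

/-- `∑_l s_l = ∑ f`. -/
lemma sum_sl (p : ℕ) (f : ℕ → ℕ) (N : ℕ) (hN : ∀ i ∈ I p, f i ≤ N) :
    ∑ l ∈ Finset.range N, sl p f l = ∑ i ∈ I p, f i := by
  unfold sl
  simp only [Finset.card_filter]
  rw [Finset.sum_comm]
  refine Finset.sum_congr rfl fun i hi => ?_
  rw [← Finset.card_filter]
  have h : (Finset.range N).filter (fun l => l < f i) = Finset.range (f i) := by
    ext l
    simp only [Finset.mem_filter, Finset.mem_range]
    have := hN i hi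
    omega
  rw [h, Finset.card_range]

/-- `∑ f ≤ U`: `T s ≥ s`. -/
lemma sum_le_U (p : ℕ) (f : ℕ → ℕ) : ∑ i ∈ I p, f i ≤ U p f := by
  have hS : ∀ i ∈ I p, f i ≤ ∑ i ∈ I p, f i := fun i hi =>
    Finset.single_le_sum (f := f) (fun j _ => Nat.zero_le _) hi
  rw [U_eq p f _ hS]
  conv_lhs => rw [← sum_sl p f _ hS]
  refine Finset.sum_le_sum fun l _ => ?_
  have h := two_T_U0a (sl p f l)
  rcases Nat.eq_zero_or_pos (sl p f l) with h0 | h0
  · rw [h0]
    exact Nat.zero_le _
  · nlinarith

/-- Cauchy - Schwarz over `c` levels: `∑ s_l = σ`, `∑ s_l^2 ≥ σ^2 / c`, `2 T s = s^2 + s`. -/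
lemma U_cs (p : ℕ) (f : ℕ → ℕ) (c : ℕ) (hc : ∀ i ∈ I p, f i ≤ c) :
    (∑ i ∈ I p, f i) ^ 2 + c * ∑ i ∈ I p, f i ≤ 2 * c * U p f := by
  rw [U_eq p f c hc]
  have h1 := sum_sl p f c hc
  have h2 : (∑ l ∈ Finset.range c, sl p f l) ^ 2 ≤
      (Finset.range c).card * ∑ l ∈ Finset.range c, (sl p f l) ^ 2 :=
    sq_sum_le_card_mul_sum_sq
  rw [Finset.card_range, h1] at h2
  have h3 : 2 * ∑ l ∈ Finset.range c, T (sl p f l) =
      ∑ l ∈ Finset.range c, (sl p f l) ^ 2 + ∑ l ∈ Finset.range c, sl p f l := by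
    rw [Finset.mul_sum, ← Finset.sum_add_distrib]
    refine Finset.sum_congr rfl fun l _ => ?_
    rw [two_T_U0a]
    ring
  rw [h1] at h3
  calc (∑ i ∈ I p, f i) ^ 2 + c * ∑ i ∈ I p, f i
      ≤ c * ∑ l ∈ Finset.range c, (sl p f l) ^ 2 + c * ∑ i ∈ I p, f i :=
        Nat.add_le_add_right h2 _
    _ = c * (2 * ∑ l ∈ Finset.range c, T (sl p f l)) := by
        rw [h3]
        ring
    _ = 2 * c * ∑ l ∈ Finset.range c, T (sl p f l) := by ring

/-- Reducing `a i = c ≥ 2` by `2` lowers the levels `c - 1` and `c - 2` by one each. -/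
lemma U_update (p : ℕ) (a : ℕ → ℕ) (i : ℕ) (hi : i ∈ I p) (h2 : 2 ≤ a i) :
    U p a = U p (Function.update a i (a i - 2)) + sl p a (a i - 1) + sl p a (a i - 2) := by
  set b := Function.update a i (a i - 2) with hb
  set N := ∑ j ∈ I p, a j with hN
  have hS : ∀ j ∈ I p, a j ≤ N := fun j hj =>
    Finset.single_le_sum (f := a) (fun k _ => Nat.zero_le _) hj
  have hba : ∀ j, b j ≤ a j := by
    intro j
    by_cases hj : j = i
    · subst hj
      rw [hb, Function.update_self]
      omega
    · rw [hb, Function.update_of_ne hj]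
  have hS' : ∀ j ∈ I p, b j ≤ N := fun j hj => (hba j).trans (hS j hj)
  -- the levels
  have hlev : ∀ l, sl p a l = sl p b l + if a i - 2 ≤ l ∧ l < a i then 1 else 0 := by
    intro l
    unfold sl
    by_cases hl : a i - 2 ≤ l ∧ l < a i
    · rw [if_pos hl]
      have h1 : (I p).filter (fun j => l < a j) =
          insert i ((I p).filter (fun j => l < b j)) := by
        ext j
        simp only [Finset.mem_filter, Finset.mem_insert]
        by_cases hj : j = i
        · subst hj
          simp [hi, hl.2]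
        · rw [hb, Function.update_of_ne hj]
          simp [hj]
      rw [h1, Finset.card_insert_of_notMem]
      rw [Finset.mem_filter, hb, Function.update_self]
      rintro ⟨_, h⟩
      omega
    · rw [if_neg hl, add_zero]
      congr 1
      ext j
      simp only [Finset.mem_filter]
      by_cases hj : j = i
      · subst hj
        rw [hb, Function.update_self]
        constructor
        · rintro ⟨h1, h3⟩
          exact ⟨h1, by omega⟩
        · rintro ⟨h1, h3⟩
          exact ⟨h1, by omega⟩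
      · rw [hb, Function.update_of_ne hj]
  have hT : ∀ l, T (sl p a l) = T (sl p b l) + if a i - 2 ≤ l ∧ l < a i then sl p a l else 0 := by
    intro l
    rw [hlev l]
    by_cases hl : a i - 2 ≤ l ∧ l < a i
    · simp only [if_pos hl]
      exact T_succ_U0a _
    · simp only [if_neg hl]
      rfl
  rw [U_eq p a N hS, U_eq p b N hS', Finset.sum_congr rfl (fun l _ => hT l),
    Finset.sum_add_distrib, add_assoc]
  congr 1
  rw [← Finset.sum_filter]
  have hfil : (Finset.range N).filter (fun l => a i - 2 ≤ l ∧ l < a i) = {a i - 1, a i - 2} := by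
    ext l
    simp only [Finset.mem_filter, Finset.mem_range, Finset.mem_insert, Finset.mem_singleton]
    have := hS i hi
    omega
  rw [hfil, Finset.sum_pair (by omega)]

lemma sum_update (p : ℕ) (a : ℕ → ℕ) (i : ℕ) (hi : i ∈ I p) (h2 : 2 ≤ a i) :
    ∑ l ∈ I p, a l = ∑ l ∈ I p, (Function.update a i (a i - 2)) l + 2 := by
  rw [← Finset.add_sum_erase _ _ hi, ← Finset.add_sum_erase _ _ hi, Function.update_self]
  have h : ∑ l ∈ (I p).erase i, (Function.update a i (a i - 2)) l = ∑ l ∈ (I p).erase i, a l := by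
    refine Finset.sum_congr rfl fun l hl => ?_
    rw [Function.update_of_ne (Finset.ne_of_mem_erase hl)]
  rw [h]
  omega

end SPR
end

section

set_option autoImplicit false

open Finset

namespace SPR

/-- The step inequality of `U0`.  `a' = update a i (a i - 2)`, `c = a i ≥ 2` the largest value,
`t1 = sl (c-1) ≥ 1`, `t2 = sl (c-2) ≥ 1`, `w = t1 + t2 ≥ 2`, `σ' = ∑ a'`; `U a - U a' = w`.  To show
`(c - 1) (1 + U a') + (1 + T a0) w ≥ 2 a0 + 2 σ' + 3`.

`c ≥ 3`: `(c-1)(1 + U a') ≥ 2 + 2 σ'` and `(1 + T a0) w ≥ 2 + a0 (a0+1) ≥ 2 a0 + 2`.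
`c = 2` (all `a ≤ 2`): `U a' = T (t1 - 1) + T (t2 - 1)`, `σ' = t1 + t2 - 2`, so it is
`1 + T (t1 - 1) + T (t2 - 1) + (1 + T a0) w ≥ 2 a0 + 2 w - 1`; with `T s ≥ s` the left side is
`≥ w - 1 + (1 + T a0) w`: fine for `a0 = 0`; for `a0 = 1`, `2 w + w - 1 ≥ 2 w + 1`; for `a0 ≥ 2`,
`(1 + T a0) w ≥ 2 w + 2 (T a0 - 1) ≥ 2 w + 2 a0`. -/
lemma U0_step (p : ℕ) (a0 : ℕ) (a : ℕ → ℕ) (i : ℕ) (hi : i ∈ I p) (h2 : 2 ≤ a i)
    (hmax : ∀ l ∈ I p, a l ≤ a i) :
    2 * a0 + 2 * (∑ l ∈ I p, (Function.update a i (a i - 2)) l) + 3 +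
        (1 + T a0) * U p (Function.update a i (a i - 2)) ≤
      (a i - 1) * (1 + U p (Function.update a i (a i - 2))) + (1 + T a0) * U p a := by
  have hU := U_update p a i hi h2
  have hS := sum_update p a i hi h2
  have hle := sum_le_U p (Function.update a i (a i - 2))
  have h1 : 1 ≤ sl p a (a i - 1) := by
    unfold sl
    exact Finset.card_pos.mpr ⟨i, Finset.mem_filter.mpr ⟨hi, by omega⟩⟩
  have h3 : 1 ≤ sl p a (a i - 2) := by
    unfold sl
    exact Finset.card_pos.mpr ⟨i, Finset.mem_filter.mpr ⟨hi, by omega⟩⟩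
  have hT2 := two_T a0
  have hT1 := le_T a0
  rcases Nat.lt_or_ge 2 (a i) with hc | hc
  · -- c ≥ 3
    generalize Function.update a i (a i - 2) = b at *
    rw [hU]
    generalize U p b = u at *
    generalize (∑ l ∈ I p, b l) = s at *
    obtain ⟨x, hx⟩ : ∃ x, sl p a (a i - 1) = x + 1 := ⟨_, (Nat.sub_add_cancel h1).symm⟩
    obtain ⟨y, hy⟩ : ∃ y, sl p a (a i - 2) = y + 1 := ⟨_, (Nat.sub_add_cancel h3).symm⟩
    rw [hx, hy]
    obtain ⟨c, hc'⟩ : ∃ c, a i - 1 = c + 2 := ⟨a i - 3, by omega⟩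
    rw [hc']
    generalize T a0 = t at *
    have e1 : 2 + 2 * s ≤ (c + 2) * (1 + u) := by nlinarith
    have e2 : 2 * a0 + 1 ≤ 2 * (1 + t) := by nlinarith
    nlinarith [Nat.zero_le (t * x), Nat.zero_le (t * y)]
  · -- c = 2
    have hc2 : a i = 2 := le_antisymm hc h2
    have hall : ∀ l ∈ I p, a l ≤ 2 := fun l hl => (hmax l hl).trans hc
    have hUe := U_eq p a 2 hall
    have hSe := sum_sl p a 2 hall
    rw [Finset.sum_range_succ, Finset.sum_range_one] at hUe hSe
    have e1 : a i - 1 = 1 := by omega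
    have e2 : a i - 2 = 0 := by omega
    rw [e1] at h1
    rw [e2] at h3
    rw [e1, e2] at hU
    obtain ⟨x, hx⟩ : ∃ x, sl p a 1 = x + 1 := ⟨_, (Nat.sub_add_cancel h1).symm⟩
    obtain ⟨y, hy⟩ : ∃ y, sl p a 0 = y + 1 := ⟨_, (Nat.sub_add_cancel h3).symm⟩
    rw [hx, hy] at hU hUe hSe
    rw [T_succ, T_succ] at hUe
    have hlx := le_T x
    have hly := le_T y
    rw [e1]
    rw [e2] at hle hS
    rw [e2]
    generalize U p (Function.update a i 0) = u at *
    generalize (∑ l ∈ I p, (Function.update a i 0) l) = s at *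
    generalize (∑ l ∈ I p, a l) = sa at *
    generalize U p a = ua at *
    generalize T a0 = t at *
    have hu : u = T x + T y := by omega
    have hs : s = x + y := by omega
    rw [hU, hu, hs]
    nlinarith [Nat.zero_le (t * x), Nat.zero_le (t * y)]

/-- Base case: all `a i ≤ 1`: `U a = T (∑ a)` and `(1 + T a0) (1 + T o) ≥ 1 + T (a0 + o)` because
`T (a0 + o) = T a0 + T o + a0 o` and `T s ≥ s`. -/
lemma U0_base (p : ℕ) (a0 : ℕ) (a : ℕ → ℕ) (h : ∀ l ∈ I p, a l ≤ 1) :
    1 + T (a0 + ∑ i ∈ I p, a i) ≤ (1 + T a0) * (1 + U p a) := by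
  have hUe := U_eq p a 1 h
  have hSe := sum_sl p a 1 h
  rw [Finset.sum_range_one] at hUe hSe
  rw [hUe, ← hSe]
  have h1 := two_T a0
  have h2 := two_T (sl p a 0)
  have h3 := two_T (a0 + sl p a 0)
  have h4 := Nat.mul_le_mul (le_T a0) (le_T (sl p a 0))
  generalize T (a0 + sl p a 0) = t3 at *
  generalize T (sl p a 0) = t2 at *
  generalize T a0 = t1 at *
  generalize sl p a 0 = o at *
  nlinarith

/-- **Lemma U0.**  Induction on `∑ a`.  If all `a i ≤ 1`: `U0_base`.  Otherwise take `i` with `a i`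
maximal (`≥ 2`), `a' = update a i (a i - 2)`.  `|R a' 0| ≤ |R a 0| < p` (`R_update_le`), so by `seq_bound`
`1 + U a' ≤ |R a' 0|`, by `peel` `EE a ≥ EE a' + (a i - 1) (1 + U a')`.  By induction
`1 + T (a0 + ∑ a - 2) ≤ EE a' + (1 + T a0) (1 + U a')`, and `T m = T (m-2) + (2 m - 1)`; use `U0_step`. -/
theorem U0 {p : ℕ} [Fact p.Prime] (a0 : ℕ) (a : ℕ → ℕ) (h : (R p a 0).card < p) :
    1 + T (a0 + ∑ i ∈ I p, a i) ≤ EE p a + (1 + T a0) * (1 + U p a) := by
  classical
  induction hn : (∑ i ∈ I p, a i) using Nat.strong_induction_on generalizing a with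
  | _ n ih =>
    by_cases hb : ∀ l ∈ I p, a l ≤ 1
    · have := U0_base p a0 a hb
      rw [hn] at this
      exact this.trans (Nat.le_add_left _ _)
    · have hne : (I p).Nonempty := by
        rw [Finset.nonempty_iff_ne_empty]
        intro h0
        apply hb
        rw [h0]
        intro l hl
        exact absurd hl (Finset.notMem_empty l)
      obtain ⟨i, hi, hmax⟩ := Finset.exists_max_image (I p) a hne
      have h2 : 2 ≤ a i := by
        by_contra hlt
        apply hb
        intro l hl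
        have := hmax l hl
        omega
      have hS := sum_update p a i hi h2
      have hcard := R_update_le (p := p) a i
      have hlt : (R p (Function.update a i (a i - 2)) 0).card < p := lt_of_le_of_lt hcard h
      have hseq := seq_bound p (Function.update a i (a i - 2))
      have hseq' : 1 + U p (Function.update a i (a i - 2)) ≤
          (R p (Function.update a i (a i - 2)) 0).card := by
        rcases min_le_iff.mp hseq with h' | h'
        · omega
        · exact h'
      have hpeel := peel (p := p) a i hi h2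
      have hstep := U0_step p a0 a i hi h2 hmax
      have hih := ih (∑ l ∈ I p, (Function.update a i (a i - 2)) l) (by omega)
        (Function.update a i (a i - 2)) hlt rfl
      have hTT : T (a0 + n) = T (a0 + ∑ l ∈ I p, (Function.update a i (a i - 2)) l) +
          2 * (a0 + ∑ l ∈ I p, (Function.update a i (a i - 2)) l) + 3 := by
        have e : a0 + n = a0 + (∑ l ∈ I p, (Function.update a i (a i - 2)) l) + 1 + 1 := by omega
        rw [e, T_succ, T_succ]
        ring
      have hm := Nat.mul_le_mul_left (a i - 1) hseq'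
      rw [hTT]
      generalize (∑ l ∈ I p, (Function.update a i (a i - 2)) l) = s at *
      generalize (R p (Function.update a i (a i - 2)) 0).card = r at *
      generalize EE p (Function.update a i (a i - 2)) = e' at *
      generalize U p (Function.update a i (a i - 2)) = u' at *
      have e1 : (1 + T a0) * (1 + u') = (1 + T a0) + (1 + T a0) * u' := by ring
      have e2 : (1 + T a0) * (1 + U p a) = (1 + T a0) + (1 + T a0) * U p a := by ring
      rw [e1] at hih
      rw [e2]
      omega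

end SPR
end
end
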