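import Pool.Agent.Lib.MP_d3cc86_co.SP.B1
import Pool.Agent.Lib.MP_d3cc86_co.Fill
import Pool.Agent.Lib.MP_d3cc86_co.SP.N1

section

set_option autoImplicit false

open Finset

namespace SPR

variable {p : ℕ} [Fact p.Prime]

/-- The three kinds of classes (odd, even nonzero, zero) partition `I p`, `|I p| = (p-1)/2`. -/
lemma count (a : ℕ → ℕ) : oo p a + ee p a + zz p a = (p - 1) / 2 := by
  have hcard : (I p).card = (p - 1) / 2 := by
    unfold I
    rw [Nat.card_Icc]
    omega
  rw [← hcard, Finset.card_eq_sum_ones]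
  unfold oo ee zz
  rw [Finset.card_filter, Finset.card_filter, Finset.card_filter, ← Finset.sum_add_distrib,
    ← Finset.sum_add_distrib]
  refine Finset.sum_congr rfl fun i _ => ?_
  rcases Nat.eq_zero_or_pos (a i) with h0 | h0
  · simp [h0]
  · rcases Nat.mod_two_eq_zero_or_one (a i) with h | h
    · have h1 : a i ≠ 0 := by omega
      simp [h, h1]
    · have h1 : a i ≠ 0 := by omega
      simp [h, h1]

/-- `ρ = |R_Γ| ≥ min p (1 + T o)`.  Proof: `lift` with `f i = a i % 2`, `v = 0`: `Gam p f = 0`, so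
`|R p f 0| ≤ |R p a (Gam p a)|`; by `seq_bound` `|R p f 0| ≥ min p (1 + U p f)`, and
`U p f ≥ T (oo p a)` (the term `l = 0`; if `∑ f = 0` then `oo = 0`). -/
lemma K0 (a : ℕ → ℕ) : min p (1 + T (oo p a)) ≤ (R p a (Gam p a)).card := by
  have hlift := lift (p := p) a (fun i => a i % 2) (fun i _ => Nat.mod_le _ _)
    (fun i _ => (Nat.mod_mod _ _).symm) 0
  have hG : Gam p (fun i => a i % 2) = 0 := by
    unfold Gam
    apply Finset.sum_eq_zero
    intro i _
    rcases Nat.mod_two_eq_zero_or_one (a i) with h | h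
    · simp [h]
    · simp [h]
  rw [hG, Nat.sub_zero, zero_add] at hlift
  have hU : T (oo p a) ≤ U p (fun i => a i % 2) := by
    have hoo : oo p a = ((I p).filter (fun i => 0 < a i % 2)).card := by
      unfold oo
      congr 1
      apply Finset.filter_congr
      intro i _
      omega
    rcases Nat.eq_zero_or_pos (∑ i ∈ I p, a i % 2) with h | h
    · have h0 : oo p a = 0 := by
        rw [hoo, Finset.card_eq_zero, Finset.filter_eq_empty_iff]
        intro i hi
        have := (Finset.sum_eq_zero_iff.1 h) i hi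
        omega
      rw [h0]
      exact Nat.zero_le _
    · unfold U
      rw [hoo]
      exact Finset.single_le_sum
        (f := fun l => T ((I p).filter (fun i => l < a i % 2)).card)
        (fun _ _ => Nat.zero_le _) (Finset.mem_range.2 h)
  have hb := seq_bound p (fun i => a i % 2)
  refine le_trans ?_ (hb.trans hlift)
  exact min_le_min le_rfl (Nat.add_le_add_left hU 1)

end SPR
end

section

section

set_option autoImplicit false

open Finset

namespace SPR

variable {p : ℕ} [Fact p.Prime]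

private lemma b2m_le (a j : ℕ) (h : j ≤ a) : j * (a - j) ≤ a ^ 2 / 4 := by
  obtain ⟨c, rfl⟩ := Nat.exists_eq_add_of_le h
  rw [Nat.le_div_iff_mul_le (by norm_num), Nat.add_sub_cancel_left]
  zify
  nlinarith [sq_nonneg ((j : ℤ) - c)]

private lemma b2m_even (b j : ℕ) (h : j ≤ 2 * b) (he : (2 * b) ^ 2 / 4 ≤ j * (2 * b - j)) :
    j = b := by
  obtain ⟨c, hc⟩ := Nat.exists_eq_add_of_le h
  have h1 : (2 * b) ^ 2 / 4 = b ^ 2 := by
    have : (2 * b) ^ 2 = b ^ 2 * 4 := by ring
    rw [this, Nat.mul_div_cancel _ (by norm_num)]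
  have h2 : 2 * b - j = c := by omega
  rw [h1, h2] at he
  have h3 : ((j : ℤ) - b) ^ 2 ≤ 0 := by
    have h4 : (2 * (b : ℤ)) = j + c := by exact_mod_cast hc
    have h5 : (b : ℤ) ^ 2 ≤ j * c := by exact_mod_cast he
    nlinarith
  have h6 : ((j : ℤ) - b) = 0 := by
    have := sq_nonneg ((j : ℤ) - b)
    exact pow_eq_zero_iff (two_ne_zero) |>.1 (le_antisymm h3 this)
  omega

/-- If `t ∈ R_Γ`, `t = pos j`, then `j i (a i - j i) = a i ^ 2 / 4` for all `i ∈ I p` (each term is
`≤ a i ^ 2 / 4` and the sum is `≥ ∑ a i ^ 2 / 4`), so `j i = a i / 2` for the even `a i`.  Changing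
`j i` to `j i + 1` for `i ∈ P` and to `j i - 1` for `i ∈ N` (`P, N` disjoint sets of even nonzero
classes, so `1 ≤ j i` and `j i + 1 ≤ a i`) lowers the gain by exactly `|P| + |N|`. -/
lemma move (a : ℕ → ℕ) (P N : Finset ℕ) (hP : ∀ i ∈ P, i ∈ I p ∧ a i % 2 = 0 ∧ a i ≠ 0)
    (hN : ∀ i ∈ N, i ∈ I p ∧ a i % 2 = 0 ∧ a i ≠ 0) (hPN : Disjoint P N) (t : ZMod p)
    (ht : t ∈ R p a (Gam p a)) :
    t + ∑ i ∈ P, (i : ZMod p) - ∑ i ∈ N, (i : ZMod p) ∈ R p a (Gam p a - (P.card + N.card)) := by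
  classical
  rw [mem_R] at ht ⊢
  obtain ⟨j, hj1, hj2, hj3⟩ := ht
  have hle : ∀ i ∈ I p, j i * (a i - j i) ≤ a i ^ 2 / 4 := fun i hi => b2m_le _ _ (hj1 i hi)
  have heq : ∀ i ∈ I p, j i * (a i - j i) = a i ^ 2 / 4 := by
    have h1 : ∑ i ∈ I p, j i * (a i - j i) = ∑ i ∈ I p, a i ^ 2 / 4 :=
      le_antisymm (Finset.sum_le_sum hle) hj3
    exact (Finset.sum_eq_sum_iff_of_le hle).1 h1
  have hhalf : ∀ i ∈ I p, a i % 2 = 0 → a i = 2 * (j i) := by
    intro i hi h0
    obtain ⟨b, hb⟩ : ∃ b, a i = 2 * b := ⟨a i / 2, by omega⟩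
    have h1 := heq i hi
    have h2 := hj1 i hi
    rw [hb] at h1 h2
    rw [hb, b2m_even b (j i) h2 h1.ge]
  have hPI : P ⊆ I p := fun i hi => (hP i hi).1
  have hNI : N ⊆ I p := fun i hi => (hN i hi).1
  have hdis : ∀ i, i ∈ P → i ∉ N := fun i h1 h2 => (Finset.disjoint_left.1 hPN) h1 h2
  set j' : ℕ → ℕ := fun i => if i ∈ P then j i + 1 else if i ∈ N then j i - 1 else j i with hj'
  refine ⟨j', ?_, ?_, ?_⟩
  · intro i hi
    simp only [hj']
    split_ifs with h1 h2
    · have h3 := hhalf i hi (hP i h1).2.1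
      have h4 := (hP i h1).2.2
      omega
    · have := hj1 i hi
      omega
    · exact hj1 i hi
  · rw [← hj2]
    unfold pos
    have h1 : ∀ i ∈ I p, (i : ZMod p) * (j' i : ZMod p)
        = (i : ZMod p) * (j i : ZMod p) + (if i ∈ P then (i : ZMod p) else 0)
          - (if i ∈ N then (i : ZMod p) else 0) := by
      intro i hi
      simp only [hj']
      split_ifs with h1 h2 h2
      · exact absurd h2 (hdis i h1)
      · push_cast; ring
      · have h3 := hhalf i hi (hN i h2).2.1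
        have h4 := (hN i h2).2.2
        have h5 : 1 ≤ j i := by omega
        rw [Nat.cast_sub h5]
        push_cast; ring
      · ring
    rw [Finset.sum_congr rfl h1, Finset.sum_sub_distrib, Finset.sum_add_distrib]
    rw [Finset.sum_ite_mem, Finset.sum_ite_mem, Finset.inter_eq_right.2 hPI,
      Finset.inter_eq_right.2 hNI]
  · have h1 : gain p a j' + (P.card + N.card) = Gam p a := by
      unfold gain Gam
      have hPc : P.card = ∑ i ∈ I p, if i ∈ P then 1 else 0 := by
        rw [Finset.sum_ite_mem, Finset.inter_eq_right.2 hPI, Finset.card_eq_sum_ones]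
      have hNc : N.card = ∑ i ∈ I p, if i ∈ N then 1 else 0 := by
        rw [Finset.sum_ite_mem, Finset.inter_eq_right.2 hNI, Finset.card_eq_sum_ones]
      rw [hPc, hNc, ← Finset.sum_add_distrib, ← Finset.sum_add_distrib]
      refine Finset.sum_congr rfl fun i hi => ?_
      rw [← heq i hi]
      simp only [hj']
      split_ifs with h1 h2 h2
      · exact absurd h2 (hdis i h1)
      · have h3 := hhalf i hi (hP i h1).2.1
        have h4 := (hP i h1).2.2
        obtain ⟨b, hb⟩ : ∃ b, j i = b + 1 := ⟨j i - 1, by omega⟩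
        rw [h3, hb]
        have e1 : 2 * (b + 1) - (b + 1 + 1) = b := by omega
        have e2 : 2 * (b + 1) - (b + 1) = b + 1 := by omega
        rw [e1, e2]; ring
      · have h3 := hhalf i hi (hN i h2).2.1
        have h4 := (hN i h2).2.2
        obtain ⟨b, hb⟩ : ∃ b, j i = b + 1 := ⟨j i - 1, by omega⟩
        rw [h3, hb]
        have e1 : 2 * (b + 1) - (b + 1 - 1) = b + 2 := by omega
        have e2 : 2 * (b + 1) - (b + 1) = b + 1 := by omega
        have e3 : b + 1 - 1 = b := by omega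
        rw [e1, e2, e3]; ring
      · ring
    omega

end SPR
end

section

set_option autoImplicit false

open Finset
open scoped Pointwise

namespace SPR

variable {p : ℕ} [Fact p.Prime]

private lemma b2_inj {i j : ℕ} (hi : i ∈ I p) (hj : j ∈ I p)
    (h : (i : ZMod p) = (j : ZMod p)) : i = j := by
  unfold I at hi hj
  rw [Finset.mem_Icc] at hi hj
  have h1 := (ZMod.natCast_eq_natCast_iff' i j p).1 h
  rwa [Nat.mod_eq_of_lt (by omega), Nat.mod_eq_of_lt (by omega)] at h1

private lemma b2_ne_zero {i : ℕ} (hi : i ∈ I p) : (i : ZMod p) ≠ 0 := by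
  unfold I at hi
  rw [Finset.mem_Icc] at hi
  intro h
  rw [ZMod.natCast_eq_zero_iff] at h
  have := Nat.le_of_dvd (by omega) h
  omega

private lemma b2_ne_neg {i j : ℕ} (hi : i ∈ I p) (hj : j ∈ I p) :
    (i : ZMod p) ≠ -(j : ZMod p) := by
  unfold I at hi hj
  rw [Finset.mem_Icc] at hi hj
  intro h
  have h1 : ((i + j : ℕ) : ZMod p) = 0 := by
    push_cast
    rw [h]
    ring
  rw [ZMod.natCast_eq_zero_iff] at h1
  have := Nat.le_of_dvd (by omega) h1
  omega

/-- `|R_{Γ-1}| ≥ min p (ρ + 2 e)`.  Proof: `R_{Γ-1} ⊇ R_Γ + Y`, `Y = {0} ∪ {± i : i even nonzero class}`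
(`move` with `|P| + |N| ≤ 1`, `R_anti`), `|Y| = 2 e + 1` (the `± i`, `1 ≤ i ≤ (p-1)/2`, are distinct and
nonzero in `ZMod p`), and Cauchy - Davenport `ZMod.cauchy_davenport`; `R_Γ` is nonempty. -/
lemma K1c (a : ℕ → ℕ) :
    min p ((R p a (Gam p a)).card + 2 * ee p a) ≤ (R p a (Gam p a - 1)).card := by
  classical
  have hp : p.Prime := Fact.out
  set Ev := (I p).filter (fun i => a i % 2 = 0 ∧ a i ≠ 0) with hEv
  have hEI : ∀ i ∈ Ev, i ∈ I p ∧ a i % 2 = 0 ∧ a i ≠ 0 := by
    intro i hi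
    rw [hEv, Finset.mem_filter] at hi
    exact hi
  set E1 : Finset (ZMod p) := Ev.image (fun i : ℕ => (i : ZMod p)) with hE1
  set E2 : Finset (ZMod p) := Ev.image (fun i : ℕ => -(i : ZMod p)) with hE2
  have hc1 : E1.card = ee p a := by
    rw [hE1, Finset.card_image_of_injOn]
    · rfl
    · intro i hi j hj h
      exact b2_inj (hEI i hi).1 (hEI j hj).1 h
  have hc2 : E2.card = ee p a := by
    rw [hE2, Finset.card_image_of_injOn]
    · rfl
    · intro i hi j hj h
      exact b2_inj (hEI i hi).1 (hEI j hj).1 (neg_injective h)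
  have hdis : Disjoint E1 E2 := by
    rw [Finset.disjoint_left]
    intro x hx hy
    rw [hE1, Finset.mem_image] at hx
    rw [hE2, Finset.mem_image] at hy
    obtain ⟨i, hi, rfl⟩ := hx
    obtain ⟨j, hj, h⟩ := hy
    exact b2_ne_neg (hEI i hi).1 (hEI j hj).1 h.symm
  have hz : (0 : ZMod p) ∉ E1 ∪ E2 := by
    rw [Finset.mem_union]
    rintro (h | h)
    · rw [hE1, Finset.mem_image] at h
      obtain ⟨i, hi, h⟩ := h
      exact b2_ne_zero (hEI i hi).1 h
    · rw [hE2, Finset.mem_image] at h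
      obtain ⟨i, hi, h⟩ := h
      exact b2_ne_zero (hEI i hi).1 (neg_eq_zero.1 h)
  set Y : Finset (ZMod p) := insert 0 (E1 ∪ E2) with hY
  have hYc : Y.card = 2 * ee p a + 1 := by
    rw [hY, Finset.card_insert_of_notMem hz, Finset.card_union_of_disjoint hdis, hc1, hc2]
    ring
  have hne : (R p a (Gam p a)).Nonempty := by
    rw [← Finset.card_pos]
    have h1 := K0 (p := p) a
    have h2 : 0 < min p (1 + T (oo p a)) := lt_min hp.pos (by omega)
    omega
  have hYne : Y.Nonempty := ⟨0, by rw [hY]; exact Finset.mem_insert_self _ _⟩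
  have hcd := ZMod.cauchy_davenport hp hne hYne
  rw [hYc] at hcd
  have hsub : R p a (Gam p a) + Y ⊆ R p a (Gam p a - 1) := by
    intro x hx
    rw [Finset.mem_add] at hx
    obtain ⟨t, ht, y, hy, rfl⟩ := hx
    rw [hY, Finset.mem_insert, Finset.mem_union] at hy
    rcases hy with rfl | hy | hy
    · rw [add_zero]
      exact R_anti a (Nat.sub_le _ _) ht
    · rw [hE1, Finset.mem_image] at hy
      obtain ⟨i, hi, rfl⟩ := hy
      have h1 := move (p := p) a {i} ∅ (by
        intro k hk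
        rw [Finset.mem_singleton] at hk
        subst hk
        exact hEI k hi) (by
        intro k hk
        exact absurd hk (Finset.notMem_empty k)) (Finset.disjoint_empty_right _) t ht
      simpa using h1
    · rw [hE2, Finset.mem_image] at hy
      obtain ⟨i, hi, rfl⟩ := hy
      have h1 := move (p := p) a ∅ {i} (by
        intro k hk
        exact absurd hk (Finset.notMem_empty k)) (by
        intro k hk
        rw [Finset.mem_singleton] at hk
        subst hk
        exact hEI k hi) (Finset.disjoint_empty_left _) t ht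
      simpa [sub_eq_add_neg] using h1
  refine le_trans ?_ (hcd.trans (Finset.card_le_card hsub))
  apply min_le_min le_rfl
  omega

end SPR
end
end

section

section

set_option autoImplicit false

open Finset Pointwise

namespace SPR

/-- The reduction `ℤ/pq → ℤ/p`. -/
def pr (p q : ℕ) : ZMod (p * q) →+* ZMod p := ZMod.castHom (dvd_mul_right p q) (ZMod p)

/-- The embedding `ℤ/q → ℤ/pq`, `y ↦ p y`. -/
def psi (p q : ℕ) : ZMod q →+ ZMod (p * q) :=
  ZMod.lift q ⟨(AddMonoidHom.mulLeft (p : ZMod (p * q))).comp (Int.castAddHom (ZMod (p * q))), by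
    simp only [AddMonoidHom.coe_comp, Function.comp_apply, Int.coe_castAddHom, Int.cast_natCast,
      AddMonoidHom.coe_mulLeft]
    rw [← Nat.cast_mul]
    exact ZMod.natCast_self (p * q)⟩

lemma psi_natCast (p q k : ℕ) : psi p q (k : ZMod q) = (p : ZMod (p * q)) * (k : ZMod (p * q)) := by
  have h : ((k : ℕ) : ZMod q) = ((k : ℤ) : ZMod q) := by push_cast; rfl
  rw [h]
  unfold psi
  rw [ZMod.lift_coe]
  simp

private lemma psi_natCast' (p q k : ℕ) : psi p q (k : ZMod q) = ((p * k : ℕ) : ZMod (p * q)) := by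
  rw [psi_natCast]; push_cast; rfl

lemma psi_injective (p q : ℕ) (hp : 0 < p) (hq : 0 < q) : Function.Injective (psi p q) := by
  have : NeZero q := ⟨hq.ne'⟩
  intro y z hyz
  rw [← ZMod.natCast_zmod_val y, ← ZMod.natCast_zmod_val z, psi_natCast', psi_natCast',
    ZMod.natCast_eq_natCast_iff', Nat.mod_eq_of_lt (Nat.mul_lt_mul_of_pos_left (ZMod.val_lt y) hp),
    Nat.mod_eq_of_lt (Nat.mul_lt_mul_of_pos_left (ZMod.val_lt z) hp)] at hyz
  exact ZMod.val_injective q (Nat.eq_of_mul_eq_mul_left hp hyz)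

/-- The kernel of `pr` is the image of `psi`. -/
lemma exists_psi (p q : ℕ) (hp : 0 < p) (hq : 0 < q) (x : ZMod (p * q)) (hx : pr p q x = 0) :
    ∃ y : ZMod q, psi p q y = x := by
  have : NeZero (p * q) := ⟨(Nat.mul_pos hp hq).ne'⟩
  have h1 : pr p q x = ((x.val : ℕ) : ZMod p) := by
    conv_lhs => rw [← ZMod.natCast_zmod_val x]
    rw [map_natCast]
  rw [h1, ZMod.natCast_eq_zero_iff] at hx
  obtain ⟨k, hk⟩ := hx
  refine ⟨(k : ZMod q), ?_⟩
  rw [psi_natCast', ← hk, ZMod.natCast_zmod_val]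

lemma pr_psi (p q : ℕ) (hq : 0 < q) (y : ZMod q) : pr p q (psi p q y) = 0 := by
  have : NeZero q := ⟨hq.ne'⟩
  rw [← ZMod.natCast_zmod_val y, psi_natCast, map_mul, map_natCast, ZMod.natCast_self, zero_mul]

end SPR
end

section

set_option autoImplicit false

open Finset Pointwise

namespace SPR

private lemma flip_one {G : Type*} [AddCommGroup G] [DecidableEq G] (A : Finset G)
    (hA : ∀ a ∈ A, -a ∉ A) (x : G) (hx : x ∈ A) :
    (insert (-x) (A.erase x)).card = A.card ∧
      (∀ a ∈ insert (-x) (A.erase x), -a ∉ insert (-x) (A.erase x)) ∧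
      (insert (-x) (A.erase x)).subsetSum.card = A.subsetSum.card := by
  have hnx : -x ∉ A := hA x hx
  have hne : x ≠ -x := fun h => hnx (h ▸ hx)
  have hne' : -x ∉ A.erase x := fun h => hnx (Finset.mem_of_mem_erase h)
  have hxe : x ∉ A.erase x := Finset.notMem_erase x A
  refine ⟨?_, ?_, ?_⟩
  · rw [Finset.card_insert_of_notMem hne', Finset.card_erase_add_one hx]
  · intro a ha hna
    rw [Finset.mem_insert] at ha hna
    rcases ha with rfl | ha
    · rw [neg_neg] at hna
      rcases hna with h | h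
      · exact hne h
      · exact hxe h
    · rcases hna with h | h
      · have : a = x := neg_injective h
        exact hxe (this ▸ ha)
      · exact hA a (Finset.mem_of_mem_erase ha) (Finset.mem_of_mem_erase h)
  · have h1 : A.subsetSum = (A.erase x).subsetSum ∪ (x +ᵥ (A.erase x).subsetSum) := by
      conv_lhs => rw [← Finset.insert_erase hx]
      exact Pool.Agent.Lib.MP_d3cc86_co.subsetSum_insert' hxe
    have h2 := Pool.Agent.Lib.MP_d3cc86_co.subsetSum_insert' hne'
    have h3 : (insert (-x) (A.erase x)).subsetSum = -x +ᵥ A.subsetSum := by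
      rw [h2, h1, Finset.vadd_finset_union, vadd_vadd, neg_add_cancel, zero_vadd,
        Finset.union_comm]
    rw [h3, Finset.card_vadd_finset]

/-- Sign changes.  For one element `x ∈ A`: `Σ (A \ {x} ∪ {-x})` is a translate of `Σ A`
(`Σ (B ∪ {x}) = Σ B + {0, x}` and `{0, -x} = {x, 0} - x`).  Induct on the number of `x ∈ A` with
`(pr x).val > (p-1)/2` (then `(pr (-x)).val = p - (pr x).val ≤ (p-1)/2`, `p` odd). -/
lemma flip (p q : ℕ) [Fact p.Prime] (hp : p ≠ 2) (hq : 0 < q) (A : Finset (ZMod (p * q)))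
    (hA : ∀ a ∈ A, -a ∉ A) :
    ∃ A' : Finset (ZMod (p * q)), A'.card = A.card ∧ (∀ a ∈ A', -a ∉ A') ∧
      A'.subsetSum.card = A.subsetSum.card ∧ ∀ x ∈ A', (pr p q x).val ≤ (p - 1) / 2 := by
  obtain ⟨N, hN⟩ : ∃ N, (A.filter fun x => (p - 1) / 2 < (pr p q x).val).card = N := ⟨_, rfl⟩
  induction N generalizing A with
  | zero =>
    refine ⟨A, rfl, hA, rfl, fun x hx => ?_⟩
    by_contra hcon
    have : x ∈ A.filter fun x => (p - 1) / 2 < (pr p q x).val :=
      Finset.mem_filter.mpr ⟨hx, not_le.mp hcon⟩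
    rw [Finset.card_eq_zero.mp hN] at this
    exact absurd this (Finset.notMem_empty _)
  | succ N ih =>
    have hne : (A.filter fun x => (p - 1) / 2 < (pr p q x).val).Nonempty := by
      rw [← Finset.card_pos]; omega
    obtain ⟨x, hx⟩ := hne
    obtain ⟨hxA, hxv⟩ := Finset.mem_filter.mp hx
    obtain ⟨h1, h2, h3⟩ := flip_one A hA x hxA
    have hodd : Odd p := (Fact.out : p.Prime).odd_of_ne_two hp
    have hpr : pr p q x ≠ 0 := by
      intro h
      rw [h, ZMod.val_zero] at hxv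
      omega
    have hval : (pr p q (-x)).val = p - (pr p q x).val := by
      rw [map_neg, ZMod.neg_val, if_neg hpr]
    have hvle : ¬ (p - 1) / 2 < (pr p q (-x)).val := by
      rw [hval]
      obtain ⟨k, hk⟩ := hodd
      omega
    have hcard : ((insert (-x) (A.erase x)).filter
        fun x => (p - 1) / 2 < (pr p q x).val).card = N := by
      rw [Finset.filter_insert, if_neg hvle, Finset.filter_erase,
        Finset.card_erase_of_mem hx, hN]
      rfl
    obtain ⟨A', h4, h5, h6, h7⟩ := ih (insert (-x) (A.erase x)) h2 hcard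
    exact ⟨A', h4.trans h1, h5, h6.trans h3, h7⟩

end SPR
end

section

set_option autoImplicit false

open Finset Pointwise

namespace SPR

/-- The part of `A` in the coset `pr x = i` of `K = ker pr`. -/
def cls (p q : ℕ) (A : Finset (ZMod (p * q))) (i : ℕ) : Finset (ZMod (p * q)) :=
  A.filter (fun x => (pr p q x).val = i)

/-- `cls A i = x_i + psi (B)` with `x_i = (i : ZMod (p q))`, `B` a subset of `ZMod q` of the same size
(`i < p`): `pr (x - i) = 0` for `x ∈ cls A i`. -/
lemma cls_eq (p q : ℕ) [Fact p.Prime] (hq : 0 < q) (A : Finset (ZMod (p * q))) (i : ℕ) (hi : i < p) :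
    ∃ B : Finset (ZMod q), B.card = (cls p q A i).card ∧
      (cls p q A i) = B.image (fun y => (i : ZMod (p * q)) + psi p q y) := by
  classical
  haveI : NeZero q := ⟨hq.ne'⟩
  have hp : 0 < p := (Fact.out : p.Prime).pos
  have hinj : Function.Injective (fun y : ZMod q => (i : ZMod (p * q)) + psi p q y) := by
    intro y y' h
    exact psi_injective p q hp hq (add_left_cancel h)
  set B : Finset (ZMod q) := Finset.univ.filter (fun y => (i : ZMod (p * q)) + psi p q y ∈ A) with hB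
  have hEq : (cls p q A i) = B.image (fun y => (i : ZMod (p * q)) + psi p q y) := by
    ext x
    simp only [cls, Finset.mem_filter, Finset.mem_image, hB, Finset.mem_univ, true_and]
    constructor
    · rintro ⟨hxA, hx⟩
      have h1 : pr p q x = (i : ZMod p) := by
        rw [← hx, ZMod.natCast_zmod_val]
      have h2 : pr p q (x - (i : ZMod (p * q))) = 0 := by
        rw [map_sub, h1, map_natCast, sub_self]
      obtain ⟨y, hy⟩ := exists_psi p q hp hq _ h2
      refine ⟨y, ?_, ?_⟩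
      · rw [hy]; simpa using hxA
      · rw [hy]; simp
    · rintro ⟨y, hyA, rfl⟩
      refine ⟨hyA, ?_⟩
      rw [map_add, pr_psi p q hq, add_zero, map_natCast, ZMod.val_natCast, Nat.mod_eq_of_lt hi]
  refine ⟨B, ?_, hEq⟩
  rw [hEq, Finset.card_image_of_injective _ hinj]

/-- The set `cls A 0 = psi B`, `B` asymmetric in `ZMod q`: `2 |B| < q` for odd `q`. -/
lemma cls_zero_card (p q : ℕ) [Fact p.Prime] [Fact q.Prime] (A : Finset (ZMod (p * q)))
    (hA : ∀ a ∈ A, -a ∉ A) : (cls p q A 0).card ≤ (q - 1) / 2 := by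
  classical
  have hp : 0 < p := (Fact.out : p.Prime).pos
  have hq : 0 < q := (Fact.out : q.Prime).pos
  haveI : NeZero q := ⟨hq.ne'⟩
  obtain ⟨B, hBc, hB⟩ := cls_eq p q hq A 0 hp
  have hBA : ∀ y ∈ B, psi p q y ∈ A := by
    intro y hy
    have h1 : ((0 : ℕ) : ZMod (p * q)) + psi p q y ∈ cls p q A 0 := by
      rw [hB]; exact Finset.mem_image_of_mem (fun y => ((0 : ℕ) : ZMod (p * q)) + psi p q y) hy
    have h2 := (Finset.mem_filter.mp h1).1
    simpa using h2
  have hasym : ∀ y ∈ B, -y ∉ B := by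
    intro y hy hny
    have h1 := hBA y hy
    have h2 := hBA (-y) hny
    rw [map_neg] at h2
    exact hA _ h1 h2
  have h0 : (0 : ZMod q) ∉ B := by
    intro h
    exact hasym 0 h (by simpa using h)
  have hdisj : Disjoint B (B.image (fun y => -y)) := by
    rw [Finset.disjoint_left]
    intro y hy hy'
    obtain ⟨z, hz, rfl⟩ := Finset.mem_image.mp hy'
    exact hasym z hz hy
  have hsub : B ∪ B.image (fun y => -y) ⊆ Finset.univ.erase (0 : ZMod q) := by
    intro y hy
    rw [Finset.mem_erase]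
    refine ⟨?_, Finset.mem_univ _⟩
    rintro rfl
    rcases Finset.mem_union.mp hy with h | h
    · exact h0 h
    · obtain ⟨z, hz, hz0⟩ := Finset.mem_image.mp h
      have : z = 0 := neg_eq_zero.mp hz0
      exact h0 (this ▸ hz)
  have hcard := Finset.card_le_card hsub
  rw [Finset.card_union_of_disjoint hdisj, Finset.card_image_of_injective _ neg_injective,
    Finset.card_erase_of_mem (Finset.mem_univ _), Finset.card_univ, ZMod.card] at hcard
  rw [← hBc]
  omega

end SPR
end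

section

set_option autoImplicit false

open Finset Pointwise

namespace SPR

/-- Elements of a pointwise sum of finite sets. -/
private theorem mem_sum_sets_G2b {q : ℕ} {ι : Type*} [DecidableEq ι] (s : Finset ι)
    (X : ι → Finset (ZMod q)) :
    ∀ x : ZMod q, x ∈ ∑ i ∈ s, X i → ∃ g : ι → ZMod q, (∀ i ∈ s, g i ∈ X i) ∧
      ∑ i ∈ s, g i = x := by
  induction s using Finset.induction_on with
  | empty =>
    intro x hx
    simp only [Finset.sum_empty] at hx
    refine ⟨fun _ => 0, by simp, ?_⟩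
    have : x = 0 := by simpa using hx
    simp [this]
  | insert a s ha ih =>
    intro x hx
    rw [Finset.sum_insert ha] at hx
    obtain ⟨y, hy, z, hz, rfl⟩ := Finset.mem_add.mp hx
    obtain ⟨g, hg, hgz⟩ := ih z hz
    refine ⟨Function.update g a y, ?_, ?_⟩
    · intro i hi
      by_cases hia : i = a
      · subst hia
        simpa using hy
      · rw [Function.update_of_ne hia]
        exact hg i (Finset.mem_of_mem_insert_of_ne hi hia)
    · rw [Finset.sum_insert ha, Function.update_self]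
      congr 1
      rw [← hgz]
      refine Finset.sum_congr rfl ?_
      intro i hi
      rw [Function.update_of_ne]
      rintro rfl
      exact ha hi

/-- From lower bounds `min q (1 + w i) ≤ |X i|` to a lower bound for `|∑ X i|`. -/
private theorem sum_bound_G2b {q : ℕ} [Fact q.Prime] {ι : Type*} [DecidableEq ι] (s : Finset ι)
    (X : ι → Finset (ZMod q)) (w : ι → ℕ) (h : ∀ i ∈ s, min q (1 + w i) ≤ (X i).card) :
    min q (1 + ∑ i ∈ s, w i) ≤ (∑ i ∈ s, X i).card := by
  have hq : q.Prime := Fact.out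
  have hq2 : 2 ≤ q := hq.two_le
  have hne : ∀ i ∈ s, (X i).Nonempty := by
    intro i hi
    have := h i hi
    apply Finset.card_pos.mp
    omega
  refine le_trans ?_ (cd_multi s X hne)
  by_cases hbig : ∃ i ∈ s, q - 1 ≤ w i
  · obtain ⟨i, hi, hw⟩ := hbig
    have h1 := h i hi
    have h2 : (X i).card - 1 ≤ ∑ i ∈ s, ((X i).card - 1) :=
      Finset.single_le_sum (f := fun i => (X i).card - 1) (fun _ _ => Nat.zero_le _) hi
    omega
  · have hbig' : ∀ i ∈ s, w i < q - 1 := by
      intro i hi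
      by_contra hcon
      exact hbig ⟨i, hi, by omega⟩
    have h3 : ∑ i ∈ s, w i ≤ ∑ i ∈ s, ((X i).card - 1) := by
      apply Finset.sum_le_sum
      intro i hi
      have h1 := h i hi
      have h2 := hbig' i hi
      omega
    omega

/-- Fibre bound: let `B_0, B_i ⊆ ZMod q` be as in `cls_eq`.  For `X = Σ B_0` (`B_0` asymmetric,
`|X| ≥ min q (1 + T |B_0|)`, `balandraud`) and `X_i` = sums of `j i` distinct elements of `B_i`
(`|X_i| ≥ min q (1 + j i (a i - j i))`, `dsh`), the set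
`∑ i j_i + psi (X + ∑ X_i)` consists of elements of `Σ A` with image `pos p j`, and
`|X + ∑ X_i| ≥ min q (1 + T a0 + ∑ j_i (a_i - j_i))` by `cd_multi` (in `ZMod q`), `psi` is injective. -/
lemma fibre (p q : ℕ) [Fact p.Prime] [Fact q.Prime] (A : Finset (ZMod (p * q)))
    (hA : ∀ a ∈ A, -a ∉ A) (j : ℕ → ℕ) (hj : ∀ i ∈ I p, j i ≤ (cls p q A i).card) :
    min q (1 + T (cls p q A 0).card + gain p (fun i => (cls p q A i).card) j) ≤
      (A.subsetSum.filter (fun x => pr p q x = pos p j)).card := by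
  classical
  have hp : 0 < p := (Fact.out : p.Prime).pos
  have hq : 0 < q := (Fact.out : q.Prime).pos
  have hIp : ∀ i ∈ I p, 1 ≤ i ∧ i < p := by
    intro i hi
    have := Finset.mem_Icc.mp hi
    refine ⟨this.1, ?_⟩
    have h2 := this.2
    omega
  have h0I : (0 : ℕ) ∉ I p := fun h => by
    have := (hIp 0 h).1
    omega
  have hex : ∀ i, ∃ B : Finset (ZMod q), i < p → (B.card = (cls p q A i).card ∧
      (cls p q A i) = B.image (fun y => (i : ZMod (p * q)) + psi p q y)) := by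
    intro i
    by_cases hi : i < p
    · obtain ⟨B, h1, h2⟩ := cls_eq p q hq A i hi
      exact ⟨B, fun _ => ⟨h1, h2⟩⟩
    · exact ⟨∅, fun h => absurd h hi⟩
  choose B hB using hex
  have hBA : ∀ i, i < p → ∀ y ∈ B i, (i : ZMod (p * q)) + psi p q y ∈ cls p q A i := by
    intro i hi y hy
    rw [(hB i hi).2]
    exact Finset.mem_image_of_mem (fun y => (i : ZMod (p * q)) + psi p q y) hy
  have hasym : ∀ y ∈ B 0, -y ∉ B 0 := by
    intro y hy hny
    have h1 := (Finset.mem_filter.mp (hBA 0 hp y hy)).1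
    have h2 := (Finset.mem_filter.mp (hBA 0 hp (-y) hny)).1
    rw [Nat.cast_zero, zero_add] at h1 h2
    rw [map_neg] at h2
    exact hA _ h1 h2
  set J : Finset ℕ := insert 0 (I p) with hJ
  have hJp : ∀ i ∈ J, i < p := by
    intro i hi
    rcases Finset.mem_insert.mp hi with h | h
    · rw [h]; exact hp
    · exact (hIp i h).2
  let X : ℕ → Finset (ZMod q) := fun i =>
    if i = 0 then (B 0).subsetSum else ((B i).powersetCard (j i)).image (fun D => ∑ b ∈ D, b)
  let w : ℕ → ℕ := fun i => if i = 0 then T (B 0).card else j i * ((B i).card - j i)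
  have hXb : ∀ i ∈ J, min q (1 + w i) ≤ (X i).card := by
    intro i hi
    rcases Finset.mem_insert.mp hi with h | h
    · subst h
      simp only [X, w, if_true]
      exact balandraud q (B 0) hasym
    · have hi0 : i ≠ 0 := by
        have := (hIp i h).1
        omega
      simp only [X, w, if_neg hi0]
      apply dsh
      rw [(hB i (hIp i h).2).1]
      exact hj i h
  have hmain := sum_bound_G2b J X w hXb
  have hw : ∑ i ∈ J, w i = T (cls p q A 0).card + gain p (fun i => (cls p q A i).card) j := by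
    rw [hJ, Finset.sum_insert h0I]
    congr 1
    · simp only [w, if_true]
      rw [(hB 0 hp).1]
    · unfold gain
      refine Finset.sum_congr rfl fun i hi => ?_
      have hi0 : i ≠ 0 := by
        have := (hIp i hi).1
        omega
      simp only [w, if_neg hi0]
      rw [(hB i (hIp i hi).2).1]
  rw [hw, ← add_assoc] at hmain
  refine hmain.trans ?_
  set c : ZMod (p * q) := ∑ i ∈ I p, ((j i : ℕ) : ZMod (p * q)) * (i : ZMod (p * q)) with hc
  have hinj : Function.Injective (fun y : ZMod q => c + psi p q y) := by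
    intro y y' h
    exact psi_injective p q hp hq (add_left_cancel h)
  rw [← Finset.card_image_of_injective _ hinj]
  apply Finset.card_le_card
  intro x hx
  obtain ⟨y, hy, rfl⟩ := Finset.mem_image.mp hx
  rw [Finset.mem_filter]
  constructor
  · obtain ⟨g, hg, hgy⟩ := mem_sum_sets_G2b J X y hy
    have hD : ∀ i, ∃ D : Finset (ZMod q), i ∈ J → (D ⊆ B i ∧ ∑ b ∈ D, b = g i ∧
        (i ≠ 0 → D.card = j i)) := by
      intro i
      by_cases hi : i ∈ J
      · have h1 := hg i hi
        by_cases hi0 : i = 0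
        · subst hi0
          simp only [X, if_true] at h1
          obtain ⟨D, hD1, hD2⟩ := Finset.mem_subsetSum_iff.mp h1
          exact ⟨D, fun _ => ⟨hD1, hD2, fun h => absurd rfl h⟩⟩
        · simp only [X, if_neg hi0] at h1
          obtain ⟨D, hD1, hD2⟩ := Finset.mem_image.mp h1
          rw [Finset.mem_powersetCard] at hD1
          exact ⟨D, fun _ => ⟨hD1.1, hD2, fun _ => hD1.2⟩⟩
      · exact ⟨∅, fun h => absurd h hi⟩
    choose D hD using hD
    let F : ℕ → Finset (ZMod (p * q)) := fun i =>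
      (D i).image (fun y => (i : ZMod (p * q)) + psi p q y)
    have hFc : ∀ i ∈ J, F i ⊆ cls p q A i := by
      intro i hi x hx
      obtain ⟨y, hy, rfl⟩ := Finset.mem_image.mp hx
      exact hBA i (hJp i hi) y ((hD i hi).1 hy)
    rw [Finset.mem_subsetSum_iff]
    refine ⟨J.biUnion F, ?_, ?_⟩
    · intro x hx
      obtain ⟨i, hi, hxi⟩ := Finset.mem_biUnion.mp hx
      exact (Finset.mem_filter.mp (hFc i hi hxi)).1
    · rw [Finset.sum_biUnion]
      · have hsum : ∀ i ∈ J, ∑ x ∈ F i, x = ((D i).card : ZMod (p * q)) * (i : ZMod (p * q)) +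
            psi p q (g i) := by
          intro i hi
          have hinj' : Function.Injective (fun y : ZMod q => (i : ZMod (p * q)) + psi p q y) := by
            intro y y' h
            exact psi_injective p q hp hq (add_left_cancel h)
          simp only [F]
          rw [Finset.sum_image (fun a _ b _ h => hinj' h), Finset.sum_add_distrib,
            Finset.sum_const, nsmul_eq_mul, ← map_sum, (hD i hi).2.1]
        rw [Finset.sum_congr rfl hsum, Finset.sum_add_distrib, ← map_sum, hgy]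
        congr 1
        rw [hJ, Finset.sum_insert h0I, Nat.cast_zero, mul_zero, zero_add, hc]
        refine Finset.sum_congr rfl fun i hi => ?_
        have hi0 : i ≠ 0 := by
          have := (hIp i hi).1
          omega
        rw [(hD i (Finset.mem_insert_of_mem hi)).2.2 hi0]
      · intro i hi i' hi' hne
        rw [Function.onFun, Finset.disjoint_left]
        intro x hx hx'
        have h1 := (Finset.mem_filter.mp (hFc i (Finset.mem_coe.mp hi) hx)).2
        have h2 := (Finset.mem_filter.mp (hFc i' (Finset.mem_coe.mp hi') hx')).2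
        exact hne (h1.symm.trans h2)
  · rw [map_add, pr_psi p q hq, add_zero, hc, map_sum]
    unfold pos
    refine Finset.sum_congr rfl fun i _ => ?_
    rw [map_mul, map_natCast, map_natCast, mul_comm]

end SPR
end

section

set_option autoImplicit false

open Finset Pointwise

namespace SPR

/-- Double counting.  `LL = ∑_{v < q} |R_{v - T a0}| = ∑_t #{v < q : t ∈ R_{v - T a0}}`; if
`t ∈ R_{v - T a0}`, `v < q`, then `fibre` gives `v + 1 ≤ min q (1 + T a0 + gain) ≤ #{x ∈ Σ A : pr x = t}`. -/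
lemma LL_le (p q : ℕ) [Fact p.Prime] [Fact q.Prime] (A : Finset (ZMod (p * q)))
    (hA : ∀ a ∈ A, -a ∉ A) :
    LL p q (cls p q A 0).card (fun i => (cls p q A i).card) ≤ A.subsetSum.card := by
  classical
  set a0 := (cls p q A 0).card with ha0
  set a : ℕ → ℕ := fun i => (cls p q A i).card with ha
  have h1 : LL p q a0 a =
      ∑ t : ZMod p, ((Finset.range q).filter (fun v => t ∈ R p a (v - T a0))).card := by
    unfold LL
    simp_rw [Finset.card_filter]
    rw [Finset.sum_comm]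
    refine Finset.sum_congr rfl (fun v _ => ?_)
    rw [← Finset.card_filter]
    congr 1
    ext t
    simp
  have h2 : A.subsetSum.card =
      ∑ t : ZMod p, (A.subsetSum.filter (fun x => pr p q x = t)).card :=
    Finset.card_eq_sum_card_fiberwise (fun x _ => Finset.mem_coe.2 (Finset.mem_univ _))
  rw [h1, h2]
  refine Finset.sum_le_sum (fun t _ => ?_)
  rcases ((Finset.range q).filter (fun v => t ∈ R p a (v - T a0))).eq_empty_or_nonempty with h | h
  · rw [h]; simp
  · obtain ⟨v, hv, hmax⟩ := Finset.exists_max_image _ (fun v => v) h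
    rw [Finset.mem_filter, Finset.mem_range] at hv
    obtain ⟨hvq, hvR⟩ := hv
    unfold R at hvR
    rw [Finset.mem_filter] at hvR
    obtain ⟨-, j, hj, hpos, hgain⟩ := hvR
    have hf := fibre p q A hA j hj
    rw [hpos] at hf
    have hcard : ((Finset.range q).filter (fun v => t ∈ R p a (v - T a0))).card ≤ v + 1 := by
      calc _ ≤ (Finset.range (v + 1)).card := by
            apply Finset.card_le_card
            intro w hw
            have := hmax w hw
            rw [Finset.mem_range]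
            omega
        _ = v + 1 := Finset.card_range _
    have h3 : v + 1 ≤ min q (1 + T a0 + gain p a j) := by
      rw [le_min_iff]
      constructor <;> omega
    exact hcard.trans (h3.trans hf)

end SPR
end

section

set_option autoImplicit false

open Finset Pointwise

namespace SPR

/-- The group-theoretic reduction: `flip`, `cls_zero_card`, `LL_le`; the classes `0, 1, ..., (p-1)/2`
partition `A'`. -/
theorem group_bound (p q : ℕ) [Fact p.Prime] [Fact q.Prime] (hp : p ≠ 2)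
    (A : Finset (ZMod (p * q))) (hA : ∀ a ∈ A, -a ∉ A) :
    ∃ (a0 : ℕ) (a : ℕ → ℕ), a0 ≤ (q - 1) / 2 ∧ a0 + ∑ i ∈ I p, a i = A.card ∧
      LL p q a0 a ≤ A.subsetSum.card := by
  have hq : 0 < q := (Fact.out : q.Prime).pos
  obtain ⟨A', hcard, hasym, hsum, hval⟩ := flip p q hp hq A hA
  refine ⟨(cls p q A' 0).card, fun i => (cls p q A' i).card, cls_zero_card p q A' hasym, ?_, ?_⟩
  · have h1 : A'.card = ∑ i ∈ insert 0 (I p), (A'.filter (fun x => (pr p q x).val = i)).card := by
      apply Finset.card_eq_sum_card_fiberwise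
      intro x hx
      have h2 := hval x hx
      have h3 : (pr p q x).val ∈ insert 0 (I p) := by
        unfold I
        rw [Finset.mem_insert, Finset.mem_Icc]
        omega
      exact h3
    have h0 : (0 : ℕ) ∉ I p := by
      unfold I
      rw [Finset.mem_Icc]
      omega
    rw [Finset.sum_insert h0] at h1
    rw [← hcard, h1]
    rfl
  · rw [← hsum]
    exact LL_le p q A' hasym

end SPR
end
end

section

section

set_option autoImplicit false

open Finset

namespace SPR

private lemma n2_oo (p : ℕ) (a : ℕ → ℕ) :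
    (oo p a : ℤ) = ∑ i ∈ I p, if a i % 2 = 1 then (1 : ℤ) else 0 := by
  unfold oo
  rw [Finset.card_filter]
  push_cast
  rfl

private lemma n2_zz (p : ℕ) (a : ℕ → ℕ) :
    (zz p a : ℤ) = ∑ i ∈ I p, if a i = 0 then (1 : ℤ) else 0 := by
  unfold zz
  rw [Finset.card_filter]
  push_cast
  rfl

private lemma n2_card (p : ℕ) (hp : p % 2 = 1) : 2 * ((I p).card : ℤ) + 1 = p := by
  unfold I
  rw [Nat.card_Icc]
  omega

private lemma n2_quarter (b : ℕ) :
    8 * ((b ^ 2 / 4 : ℕ) : ℤ) = 2 * (b : ℤ) ^ 2 - 2 * (if b % 2 = 1 then 1 else 0) := by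
  rcases Nat.mod_two_eq_zero_or_one b with h | h
  · obtain ⟨c, rfl⟩ : ∃ c, b = 2 * c := ⟨b / 2, by omega⟩
    have e : (2 * c) ^ 2 / 4 = c ^ 2 := by
      have : (2 * c) ^ 2 = 4 * c ^ 2 := by ring
      rw [this, Nat.mul_div_cancel_left _ (by norm_num)]
    rw [e, if_neg (by omega)]
    push_cast
    ring
  · obtain ⟨c, rfl⟩ : ∃ c, b = 2 * c + 1 := ⟨b / 2, by omega⟩
    have e : (2 * c + 1) ^ 2 / 4 = c ^ 2 + c := by
      have : (2 * c + 1) ^ 2 = 4 * (c ^ 2 + c) + 1 := by ring
      rw [this]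
      omega
    rw [e, if_pos (by omega)]
    push_cast
    ring

private lemma n2_gam (p : ℕ) (a : ℕ → ℕ) :
    8 * (Gam p a : ℤ) = 2 * ∑ i ∈ I p, (a i : ℤ) ^ 2 - 2 * (oo p a : ℤ) := by
  rw [n2_oo]
  unfold Gam
  rw [Nat.cast_sum, Finset.mul_sum, Finset.mul_sum, Finset.mul_sum, ← Finset.sum_sub_distrib]
  refine Finset.sum_congr rfl fun i _ => ?_
  exact n2_quarter (a i)

private lemma n2_term (b : ℕ) (al : ℤ) :
    (if b % 2 = 1 then (1 : ℤ) else 0) ≤ ((b : ℤ) - 2 * al) ^ 2 := by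
  by_cases h : b % 2 = 1
  · rw [if_pos h]
    have h0 : (b : ℤ) - 2 * al ≠ 0 := by omega
    have := Int.one_le_abs h0
    nlinarith [sq_abs ((b : ℤ) - 2 * al), abs_nonneg ((b : ℤ) - 2 * al)]
  · rw [if_neg h]
    positivity

private lemma n2_odd_sq (c : ℤ) : (8 : ℤ) ∣ (2 * c + 1) ^ 2 - 1 := by
  rcases Int.even_or_odd c with ⟨d, hd⟩ | ⟨d, hd⟩
  · refine ⟨d * (2 * d + 1), ?_⟩
    subst hd
    ring
  · refine ⟨(2 * d + 1) * (d + 1), ?_⟩
    subst hd
    ring

/-- The identity `8 p W = 8 p + M^2 - y^2 + p (S - x)`, `W = 1 + T a0 + Γ`, `M = 2 (a0 + ∑ a) + 1`,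
`y = M - 2 α p`, `S = SS`, `x = 2 o + 1`.

Proof.  `8 T a0 = (2 a0 + 1)^2 - 1` and `8 (a^2 / 4) = 2 a^2 - 2 [a odd]`, so
`8 W = 8 + (2 a0+1)^2 + 2 ∑ a_i^2 - (2 o + 1)`; `S = (2 a0 + 1)^2 + 2 ∑ a_i^2 - 4 α M + 4 α^2 p`
(`|I p| = (p-1)/2`, `p` odd, so `1 + 2 |I p| = p`). -/
lemma SS_identity (p : ℕ) (hp : p % 2 = 1) (a0 : ℕ) (a : ℕ → ℕ) (al : ℤ) :
    8 * (p : ℤ) * (1 + T a0 + Gam p a) = 8 * p + (2 * ((a0 : ℤ) + ∑ i ∈ I p, (a i : ℤ)) + 1) ^ 2
      - (2 * ((a0 : ℤ) + ∑ i ∈ I p, (a i : ℤ)) + 1 - 2 * al * p) ^ 2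
      + p * (SS p a0 a al - (2 * oo p a + 1)) := by
  have h1 := eight_T a0
  have h2 := n2_gam p a
  have h3 := n2_card p hp
  have h4 : SS p a0 a al = (2 * (a0 : ℤ) + 1) ^ 2 + 2 * ∑ i ∈ I p, (a i : ℤ) ^ 2
      - 4 * al * (2 * ((a0 : ℤ) + ∑ i ∈ I p, (a i : ℤ)) + 1) + 4 * al ^ 2 * p := by
    have e : ∑ i ∈ I p, ((a i : ℤ) - 2 * al) ^ 2 = ∑ i ∈ I p, (a i : ℤ) ^ 2
        - 4 * al * ∑ i ∈ I p, (a i : ℤ) + 4 * al ^ 2 * ((I p).card : ℤ) := by
      have e1 : ∀ i ∈ I p, ((a i : ℤ) - 2 * al) ^ 2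
          = (a i : ℤ) ^ 2 - 4 * al * (a i : ℤ) + 4 * al ^ 2 := fun i _ => by ring
      rw [Finset.sum_congr rfl e1, Finset.sum_add_distrib, Finset.sum_sub_distrib,
        ← Finset.mul_sum, Finset.sum_const, nsmul_eq_mul]
      ring
    unfold SS
    rw [e]
    linear_combination (4 * al ^ 2) * h3
  rw [h4]
  linear_combination (p : ℤ) * h1 + (p : ℤ) * h2

/-- `S ≥ x`: the terms of `S` at `0` and at the odd classes are odd squares. -/
lemma SS_ge (p a0 : ℕ) (a : ℕ → ℕ) (al : ℤ) : 2 * (oo p a : ℤ) + 1 ≤ SS p a0 a al := by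
  rw [n2_oo]
  unfold SS
  have h0 : (1 : ℤ) ≤ (2 * (a0 : ℤ) + 1 - 2 * al) ^ 2 := by
    have h0 : 2 * (a0 : ℤ) + 1 - 2 * al ≠ 0 := by omega
    have := Int.one_le_abs h0
    nlinarith [sq_abs (2 * (a0 : ℤ) + 1 - 2 * al), abs_nonneg (2 * (a0 : ℤ) + 1 - 2 * al)]
  have h1 : (∑ i ∈ I p, if a i % 2 = 1 then (1 : ℤ) else 0)
      ≤ ∑ i ∈ I p, ((a i : ℤ) - 2 * al) ^ 2 := Finset.sum_le_sum fun i _ => n2_term (a i) al
  linarith

/-- `S ≡ x (mod 8)`: odd squares are `1 (mod 8)`, and `2 * (even)^2 ≡ 0 (mod 8)`. -/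
lemma SS_mod (p a0 : ℕ) (a : ℕ → ℕ) (al : ℤ) : (8 : ℤ) ∣ SS p a0 a al - (2 * oo p a + 1) := by
  rw [n2_oo]
  unfold SS
  have h0 : (8 : ℤ) ∣ (2 * (a0 : ℤ) + 1 - 2 * al) ^ 2 - 1 := by
    have := n2_odd_sq ((a0 : ℤ) - al)
    have e : 2 * ((a0 : ℤ) - al) + 1 = 2 * (a0 : ℤ) + 1 - 2 * al := by ring
    rwa [e] at this
  have h1 : (8 : ℤ) ∣ ∑ i ∈ I p,
      2 * (((a i : ℤ) - 2 * al) ^ 2 - if a i % 2 = 1 then (1 : ℤ) else 0) := by
    refine Finset.dvd_sum fun i _ => ?_
    by_cases h : a i % 2 = 1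
    · rw [if_pos h]
      obtain ⟨c, hc⟩ : ∃ c : ℕ, a i = 2 * c + 1 := ⟨a i / 2, by omega⟩
      have h2 := n2_odd_sq ((c : ℤ) - al)
      have e : ((a i : ℤ) - 2 * al) = 2 * ((c : ℤ) - al) + 1 := by
        rw [hc]; push_cast; ring
      rw [e]
      exact Dvd.dvd.mul_left h2 2
    · rw [if_neg h]
      obtain ⟨c, hc⟩ : ∃ c : ℕ, a i = 2 * c := ⟨a i / 2, by omega⟩
      refine ⟨((c : ℤ) - al) ^ 2, ?_⟩
      rw [hc]; push_cast; ring
  have e : (2 * (a0 : ℤ) + 1 - 2 * al) ^ 2 + 2 * ∑ i ∈ I p, ((a i : ℤ) - 2 * al) ^ 2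
      - (2 * (∑ i ∈ I p, if a i % 2 = 1 then (1 : ℤ) else 0) + 1)
      = ((2 * (a0 : ℤ) + 1 - 2 * al) ^ 2 - 1) + ∑ i ∈ I p,
        2 * (((a i : ℤ) - 2 * al) ^ 2 - if a i % 2 = 1 then (1 : ℤ) else 0) := by
    rw [← Finset.mul_sum, Finset.sum_sub_distrib]
    ring
  rw [e]
  exact dvd_add h0 h1

/-- `2 |y| ≤ S + x`, `y = (2 a0 + 1 - 2 α) + 2 ∑ (a_i - 2 α)`: use `2 |η| ≤ η^2 + [η odd]`. -/
lemma SS_y (p : ℕ) (hp : p % 2 = 1) (a0 : ℕ) (a : ℕ → ℕ) (al : ℤ) :
    2 * |2 * ((a0 : ℤ) + ∑ i ∈ I p, (a i : ℤ)) + 1 - 2 * al * p| ≤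
      SS p a0 a al + (2 * oo p a + 1) := by
  have h3 := n2_card p hp
  have e : 2 * ((a0 : ℤ) + ∑ i ∈ I p, (a i : ℤ)) + 1 - 2 * al * p
      = (2 * (a0 : ℤ) + 1 - 2 * al) + 2 * ∑ i ∈ I p, ((a i : ℤ) - 2 * al) := by
    rw [Finset.sum_sub_distrib, Finset.sum_const, nsmul_eq_mul]
    linear_combination (2 * al) * h3
  rw [e, n2_oo]
  unfold SS
  have h1 : |∑ i ∈ I p, ((a i : ℤ) - 2 * al)| ≤ ∑ i ∈ I p, |(a i : ℤ) - 2 * al| :=
    Finset.abs_sum_le_sum_abs _ _
  have h2 : ∑ i ∈ I p, 2 * |(a i : ℤ) - 2 * al| ≤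
      ∑ i ∈ I p, (((a i : ℤ) - 2 * al) ^ 2 + if a i % 2 = 1 then (1 : ℤ) else 0) := by
    refine Finset.sum_le_sum fun i _ => ?_
    rw [← sq_abs]
    have h0 := abs_nonneg ((a i : ℤ) - 2 * al)
    by_cases h : a i % 2 = 1
    · rw [if_pos h]
      nlinarith [sq_nonneg (|(a i : ℤ) - 2 * al| - 1)]
    · rw [if_neg h]
      have h4 : |(a i : ℤ) - 2 * al| = 0 ∨ 2 ≤ |(a i : ℤ) - 2 * al| := by
        rcases abs_cases ((a i : ℤ) - 2 * al) with ⟨h5, _⟩ | ⟨h5, _⟩ <;> rw [h5] <;> omega
      rcases h4 with h4 | h4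
      · rw [h4]; norm_num
      · nlinarith
  rw [← Finset.mul_sum, Finset.sum_add_distrib] at h2
  have h5 := abs_add_le (2 * (a0 : ℤ) + 1 - 2 * al) (2 * ∑ i ∈ I p, ((a i : ℤ) - 2 * al))
  have h6 : |2 * ∑ i ∈ I p, ((a i : ℤ) - 2 * al)| = 2 * |∑ i ∈ I p, ((a i : ℤ) - 2 * al)| := by
    rw [abs_mul]; norm_num
  have h7 : 2 * |2 * (a0 : ℤ) + 1 - 2 * al| ≤ (2 * (a0 : ℤ) + 1 - 2 * al) ^ 2 + 1 := by
    rw [← sq_abs (2 * (a0 : ℤ) + 1 - 2 * al)]
    nlinarith [sq_nonneg (|2 * (a0 : ℤ) + 1 - 2 * al| - 1)]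
  linarith

/-- An empty class contributes `2 (2 α)^2 ≥ 8` to `S` and nothing to `x`. -/
lemma SS_z (p a0 : ℕ) (a : ℕ → ℕ) (al : ℤ) (hal : 1 ≤ al) :
    2 * (oo p a : ℤ) + 1 + 8 * zz p a ≤ SS p a0 a al := by
  rw [n2_oo, n2_zz]
  unfold SS
  have h0 : (1 : ℤ) ≤ (2 * (a0 : ℤ) + 1 - 2 * al) ^ 2 := by
    have h0 : 2 * (a0 : ℤ) + 1 - 2 * al ≠ 0 := by omega
    have := Int.one_le_abs h0
    nlinarith [sq_abs (2 * (a0 : ℤ) + 1 - 2 * al), abs_nonneg (2 * (a0 : ℤ) + 1 - 2 * al)]
  have h1 : ∑ i ∈ I p, ((if a i % 2 = 1 then (1 : ℤ) else 0) + 4 * (if a i = 0 then (1 : ℤ) else 0))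
      ≤ ∑ i ∈ I p, ((a i : ℤ) - 2 * al) ^ 2 := by
    refine Finset.sum_le_sum fun i _ => ?_
    by_cases h : a i = 0
    · rw [if_pos h, if_neg (by omega), h]
      push_cast
      nlinarith
    · rw [if_neg h]
      have := n2_term (a i) al
      linarith
  rw [Finset.sum_add_distrib, ← Finset.mul_sum] at h1
  linarith

end SPR
end

section

set_option autoImplicit false

open Finset

namespace SPR

variable {p : ℕ} [Fact p.Prime]

private lemma b3a_Icc (f : ℕ → ℕ) (n : ℕ) :
    ∑ v ∈ Finset.Icc 1 n, f v = ∑ v ∈ Finset.range n, f (v + 1) := by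
  induction n with
  | zero => simp
  | succ n ih => rw [Finset.sum_Icc_succ_top (by omega), ih, Finset.sum_range_succ]

private lemma b3a_full {a : ℕ → ℕ} {w : ℕ} (h : R p a w = univ) {v : ℕ} (hv : v ≤ w) :
    (R p a v).card = p := by
  have h1 : R p a v = univ := by
    refine Finset.eq_univ_iff_forall.2 fun t => R_anti a hv ?_
    rw [h]
    exact mem_univ t
  rw [h1, Finset.card_univ, ZMod.card]

/-- the full levels and the rest -/
private lemma b3a_split {a : ℕ → ℕ} {w r : ℕ} (a0 : ℕ) (h : R p a w = univ)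
    (hr : Gam p a = w + r) :
    Linf p a0 a = (1 + T a0) * p + w * p + ∑ x ∈ Finset.range r, (R p a (w + x + 1)).card := by
  unfold Linf EE
  rw [b3a_Icc, hr, Finset.sum_range_add, b3a_full h (Nat.zero_le w)]
  have h1 : ∑ x ∈ Finset.range w, (R p a (x + 1)).card = w * p := by
    rw [Finset.sum_congr rfl fun x hx => b3a_full h (v := x + 1) (by
      have := Finset.mem_range.1 hx
      omega), Finset.sum_const, Finset.card_range, smul_eq_mul]
  rw [h1]
  ring

/-- `R_{Γ-c} = ℤ/p`: the levels `v ≤ Γ - c` of `Linf = (1 + T a0) |R_0| + ∑_{v=1}^{Γ} |R_v|` are full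
(`R_anti`), so `Linf ≥ p (1 + T a0 + (Γ - c)) ≥ p (1 + T a0 + Γ - c)`. -/
lemma Linf_univ (a0 : ℕ) (a : ℕ → ℕ) (c : ℕ) (h : R p a (Gam p a - c) = univ) :
    (p : ℤ) * (1 + T a0 + Gam p a - c) ≤ Linf p a0 a := by
  obtain ⟨r, hr⟩ : ∃ r, Gam p a = (Gam p a - c) + r := ⟨Gam p a - (Gam p a - c), by omega⟩
  have h1 := b3a_split a0 h hr
  have h2 : (1 + T a0) * p + (Gam p a - c) * p ≤ Linf p a0 a := by
    rw [h1]
    exact Nat.le_add_right _ _
  have h3 : (p : ℤ) * (1 + T a0 + Gam p a - c)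
      ≤ (((1 + T a0) * p + (Gam p a - c) * p : ℕ) : ℤ) := by
    push_cast
    have h4 : (Gam p a : ℤ) - c ≤ ((Gam p a - c : ℕ) : ℤ) := by omega
    have h5 : (0 : ℤ) ≤ p := Int.natCast_nonneg p
    have h6 := mul_le_mul_of_nonneg_left h4 h5
    linarith
  exact h3.trans (by exact_mod_cast h2)

/-- `R_{Γ-1} = ℤ/p`: `Linf ≥ p (T a0 + Γ) + |R_Γ|`. (If `Γ = 0` then `R_0 = ℤ/p`.) -/
lemma Linf_univ1 (a0 : ℕ) (a : ℕ → ℕ) (h : R p a (Gam p a - 1) = univ) :
    p * (T a0 + Gam p a) + (R p a (Gam p a)).card ≤ Linf p a0 a := by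
  rcases Nat.eq_zero_or_pos (Gam p a) with h0 | h0
  · rw [h0] at h
    have h1 := b3a_split (r := 0) a0 h (by rw [h0])
    have h2 := b3a_full h (v := 0) (Nat.zero_le _)
    rw [h1, h0, h2]
    simp
    nlinarith
  · have h1 := b3a_split (r := 1) a0 h (by omega)
    rw [h1, Finset.sum_range_one]
    have e : Gam p a - 1 + 0 + 1 = Gam p a := by omega
    rw [e]
    obtain ⟨g, hg⟩ : ∃ g, Gam p a = g + 1 := ⟨Gam p a - 1, by omega⟩
    have e2 : p * (T a0 + Gam p a) = (1 + T a0) * p + (Gam p a - 1) * p := by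
      rw [hg, Nat.add_sub_cancel]
      ring
    omega

/-- `R_{Γ-2} = ℤ/p`: `Linf ≥ p (T a0 + Γ - 1) + |R_Γ| + |R_{Γ-1}|`. (Also if `Γ = 0, 1`: then
`R_0 = ℤ/p` and `|R_Γ|, |R_{Γ-1}| ≤ p`.) -/
lemma Linf_univ2 (a0 : ℕ) (a : ℕ → ℕ) (h : R p a (Gam p a - 2) = univ) :
    (p : ℤ) * (T a0 + Gam p a - 1) + (R p a (Gam p a)).card + (R p a (Gam p a - 1)).card
      ≤ Linf p a0 a := by
  have hp0 : (0 : ℤ) ≤ p := Int.natCast_nonneg p
  rcases Nat.lt_or_ge (Gam p a) 2 with h0 | h0
  · have hw : Gam p a - 2 = 0 := by omega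
    rw [hw] at h
    have hf := b3a_full h (v := 0) (Nat.zero_le _)
    have h1 := b3a_split (r := Gam p a) a0 h (by omega)
    rcases Nat.lt_or_ge (Gam p a) 1 with h2 | h2
    · have h3 : Gam p a = 0 := by omega
      rw [h1, h3]
      simp only [Nat.zero_sub, hf, Finset.range_zero, Finset.sum_empty]
      push_cast
      nlinarith
    · have h3 : Gam p a = 1 := by omega
      rw [h1, h3]
      simp only [Nat.sub_self, hf, Finset.sum_range_one]
      push_cast
      nlinarith
  · have h1 := b3a_split (r := 2) a0 h (by omega)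
    rw [h1, Finset.sum_range_succ, Finset.sum_range_one]
    have e : Gam p a - 2 + 0 + 1 = Gam p a - 1 := by omega
    have e' : Gam p a - 1 + 1 = Gam p a := by omega
    rw [e, e']
    obtain ⟨g, hg⟩ : ∃ g, Gam p a = g + 2 := ⟨Gam p a - 2, by omega⟩
    rw [hg, Nat.add_sub_cancel]
    push_cast
    nlinarith

/-- No truncation. `∑_{v < q} |R_{v - T a0}| = (1 + T a0) |R_0| + ∑_{v=1}^{q - 1 - T a0} |R_v|` and
`|R_v| = 0` for `v > Γ`. -/
lemma LL_eq_Linf (q a0 : ℕ) (a : ℕ → ℕ) (h : 1 + T a0 + Gam p a ≤ q) :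
    LL p q a0 a = Linf p a0 a := by
  obtain ⟨r, hr⟩ : ∃ r, q = (1 + T a0) + (Gam p a + r) := ⟨q - (1 + T a0 + Gam p a), by omega⟩
  unfold LL Linf EE
  rw [hr, Finset.sum_range_add _ (1 + T a0) (Gam p a + r),
    Finset.sum_range_add _ (Gam p a) r, b3a_Icc]
  have h1 : ∑ x ∈ Finset.range (1 + T a0), (R p a (x - T a0)).card
      = (1 + T a0) * (R p a 0).card := by
    rw [Finset.sum_congr rfl (g := fun _ => (R p a 0).card) (fun x hx => by
      have := Finset.mem_range.1 hx
      have e : x - T a0 = 0 := by omega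
      rw [e]), Finset.sum_const, Finset.card_range, smul_eq_mul]
  have h2 : ∑ x ∈ Finset.range (Gam p a), (R p a (1 + T a0 + x - T a0)).card
      = ∑ x ∈ Finset.range (Gam p a), (R p a (x + 1)).card := by
    refine Finset.sum_congr rfl fun x _ => ?_
    have e : 1 + T a0 + x - T a0 = x + 1 := by omega
    rw [e]
  have h3 : ∑ x ∈ Finset.range r, (R p a (1 + T a0 + (Gam p a + x) - T a0)).card = 0 := by
    refine Finset.sum_eq_zero fun x _ => ?_
    rw [R_empty a (by omega), Finset.card_empty]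
  rw [h1, h2, h3, add_zero]

end SPR
end

section

set_option autoImplicit false

open Finset

namespace SPR

variable {p : ℕ} [Fact p.Prime]

private lemma k1u_cast_inj {i k : ℕ} (hi : i ≤ (p - 1) / 2) (hk : k ≤ (p - 1) / 2)
    (h : (i : ZMod p) = (k : ZMod p)) : i = k := by
  have hp := (Fact.out : p.Prime).pos
  have h1 := (ZMod.natCast_eq_natCast_iff' i k p).1 h
  rwa [Nat.mod_eq_of_lt (by omega), Nat.mod_eq_of_lt (by omega)] at h1

private lemma k1u_cast_ne {i k : ℕ} (hi0 : 1 ≤ i) (hi : i ≤ (p - 1) / 2) (hk : k ≤ (p - 1) / 2) :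
    (i : ZMod p) ≠ -(k : ZMod p) := by
  intro h
  have hp := (Fact.out : p.Prime).pos
  have h1 : ((i + k : ℕ) : ZMod p) = 0 := by
    push_cast
    rw [h]; ring
  rw [ZMod.natCast_eq_zero_iff] at h1
  have h2 := Nat.le_of_dvd (by omega) h1
  omega

private lemma k1u_small (hp : 7 ≤ p) {m : ℕ} (h1 : 1 ≤ m) (h5 : m ≤ 5) : (m : ZMod p) ≠ 0 := by
  intro h
  rw [ZMod.natCast_eq_zero_iff] at h
  have h2 := Nat.le_of_dvd (by omega) h
  omega

private lemma k1u_mul (hp : 7 ≤ p) {m : ℕ} (h1 : 1 ≤ m) (h5 : m ≤ 5) {x : ZMod p} (hx : x ≠ 0) :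
    (m : ZMod p) * x ≠ 0 := mul_ne_zero (k1u_small hp h1 h5) hx

private lemma k1u_one (hp : 7 ≤ p) {x w : ZMod p} (hx : x ≠ 0) (h0 : w = x ∨ w = -x)
    (h1 : w - x = x ∨ w - x = -x) : False := by
  have m2 := k1u_mul hp (m := 2) (by norm_num) (by norm_num) hx
  have m3 := k1u_mul hp (m := 3) (by norm_num) (by norm_num) hx
  push_cast at m2 m3
  rcases h0 with rfl | rfl <;> rcases h1 with h1 | h1
  · apply hx; linear_combination -h1
  · apply hx; linear_combination h1
  · apply m3; linear_combination -h1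
  · apply hx; linear_combination -h1

/-- one half of the case of two odd classes -/
private lemma k1u_two' (hp : 7 ≤ p) {x y w : ZMod p} (hx : x ≠ 0)
    (hw : w = -x)
    (h1 : w - x = x ∨ w - x = -x ∨ w - x = y ∨ w - x = -y)
    (h2 : w - y = x ∨ w - y = -x ∨ w - y = y ∨ w - y = -y)
    (h3 : w - x - y = x ∨ w - x - y = -x ∨ w - x - y = y ∨ w - x - y = -y) : False := by
  have m2 := k1u_mul hp (m := 2) (by norm_num) (by norm_num) hx
  have m3 := k1u_mul hp (m := 3) (by norm_num) (by norm_num) hx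
  have m4 := k1u_mul hp (m := 4) (by norm_num) (by norm_num) hx
  have m5 := k1u_mul hp (m := 5) (by norm_num) (by norm_num) hx
  push_cast at m2 m3 m4 m5
  subst hw
  rcases h1 with h1 | h1 | h1 | h1
  · apply m3; linear_combination -h1
  · apply hx; linear_combination -h1
  · -- `y = -2 x`
    have hy : y = -2 * x := by linear_combination -h1
    subst hy
    rcases h3 with h3 | h3 | h3 | h3
    · apply hx; linear_combination -h3
    · apply hx; linear_combination h3
    · apply m2; linear_combination h3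
    · apply m2; linear_combination -h3
  · -- `y = 2 x`
    have hy : y = 2 * x := by linear_combination h1
    subst hy
    rcases h2 with h2 | h2 | h2 | h2
    · apply m4; linear_combination -h2
    · apply m2; linear_combination -h2
    · apply m5; linear_combination -h2
    · apply hx; linear_combination -h2

private lemma k1u_two (hp : 7 ≤ p) {x y w : ZMod p} (hx : x ≠ 0) (hy : y ≠ 0)
    (h0 : w = x ∨ w = -x ∨ w = y ∨ w = -y)
    (h1 : w - x = x ∨ w - x = -x ∨ w - x = y ∨ w - x = -y)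
    (h2 : w - y = x ∨ w - y = -x ∨ w - y = y ∨ w - y = -y)
    (h3 : w - x - y = x ∨ w - x - y = -x ∨ w - x - y = y ∨ w - x - y = -y) : False := by
  have n0 : ∀ z : ZMod p, z ≠ 0 → z - z ≠ x ∨ True := fun _ _ => Or.inr trivial
  rcases h0 with h0 | h0 | h0 | h0
  · subst h0
    rw [sub_self] at h1
    rcases h1 with h1 | h1 | h1 | h1
    · exact hx h1.symm
    · exact hx (neg_eq_zero.1 h1.symm)
    · exact hy h1.symm
    · exact hy (neg_eq_zero.1 h1.symm)
  · exact k1u_two' hp hx h0 h1 h2 h3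
  · subst h0
    rw [sub_self] at h2
    rcases h2 with h2 | h2 | h2 | h2
    · exact hx h2.symm
    · exact hx (neg_eq_zero.1 h2.symm)
    · exact hy h2.symm
    · exact hy (neg_eq_zero.1 h2.symm)
  · refine k1u_two' hp (x := y) (y := x) hy h0 ?_ ?_ ?_
    · tauto
    · tauto
    · have e : w - y - x = w - x - y := by ring
      rw [e]
      tauto

private lemma k1u_T (s : ℕ) (h : 1 + T s ≤ 2 * s) : s = 1 ∨ s = 2 := by
  have h1 : 2 * T s = s * (s + 1) := by
    unfold T
    have h : 2 ∣ s * (s + 1) := (Nat.even_mul_succ_self s).two_dvd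
    omega
  have h2 : s * (s + 1) + 2 ≤ 4 * s := by omega
  have h3 : s ≤ 2 := by
    by_contra hc
    push Not at hc
    nlinarith
  interval_cases s
  · omega
  · exact Or.inl rfl
  · exact Or.inr rfl

/-- `R_Γ` contains the points `b + ∑_{i ∈ S} i`, `S` a set of odd classes -/
private lemma k1u_mem (a : ℕ → ℕ) (S : Finset ℕ) (hS : ∀ i ∈ S, i ∈ I p ∧ a i % 2 = 1) :
    pos p (fun i => a i / 2) + ∑ i ∈ S, (i : ZMod p) ∈ R p a (Gam p a) := by
  classical
  rw [mem_R]
  refine ⟨fun i => if i ∈ S then a i / 2 + 1 else a i / 2, ?_, ?_, ?_⟩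
  · intro i hi
    show (if i ∈ S then a i / 2 + 1 else a i / 2) ≤ a i
    split_ifs with h
    · have := (hS i h).2
      omega
    · omega
  · unfold pos
    have h1 : ∀ i ∈ I p, (i : ZMod p) * (((if i ∈ S then a i / 2 + 1 else a i / 2 : ℕ)) : ZMod p)
        = (i : ZMod p) * ((a i / 2 : ℕ) : ZMod p) + (if i ∈ S then (i : ZMod p) else 0) := by
      intro i _
      split_ifs with h
      · push_cast; ring
      · ring
    rw [Finset.sum_congr rfl h1, Finset.sum_add_distrib, Finset.sum_ite_mem,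
      Finset.inter_eq_right.2 (fun i hi => (hS i hi).1)]
  · unfold gain Gam
    refine Finset.sum_le_sum fun i _ => ?_
    show a i ^ 2 / 4 ≤ (if i ∈ S then a i / 2 + 1 else a i / 2) *
      (a i - (if i ∈ S then a i / 2 + 1 else a i / 2))
    rcases Nat.mod_two_eq_zero_or_one (a i) with h | h
    · obtain ⟨b, hb⟩ : ∃ b, a i = 2 * b := ⟨a i / 2, by omega⟩
      have hn : i ∉ S := fun hc => by
        have := (hS i hc).2
        omega
      rw [if_neg hn, hb]
      have e1 : (2 * b) ^ 2 = b ^ 2 * 4 := by ring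
      have e2 : 2 * b / 2 = b := by omega
      have e3 : 2 * b - b = b := by omega
      rw [e1, Nat.mul_div_cancel _ (by norm_num), e2, e3, sq]
    · obtain ⟨b, hb⟩ : ∃ b, a i = 2 * b + 1 := ⟨a i / 2, by omega⟩
      have e1 : (2 * b + 1) ^ 2 = 1 + (b * (b + 1)) * 4 := by ring
      have e2 : (2 * b + 1) / 2 = b := by omega
      have e3 : 2 * b + 1 - (b + 1) = b := by omega
      have e4 : 2 * b + 1 - b = b + 1 := by omega
      have e5 : (1 + b * (b + 1) * 4) / 4 = b * (b + 1) := by omega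
      rw [hb, e1, e5, e2]
      split_ifs
      · rw [e3, mul_comm]
      · rw [e4]

/-- every element of `ℤ/p` is `0` or `± i` -/
private lemma k1u_rep (h2 : p ≠ 2) (w : ZMod p) (hw : w ≠ 0) :
    ∃ i ∈ I p, w = (i : ZMod p) ∨ w = -(i : ZMod p) := by
  have hp : p.Prime := Fact.out
  have hodd : p % 2 = 1 := by
    rcases hp.eq_two_or_odd with h0 | h0
    · exact absurd h0 h2
    · exact h0
  have hv : w.val < p := ZMod.val_lt w
  have hv0 : w.val ≠ 0 := fun h => hw ((ZMod.val_eq_zero w).1 h)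
  have hcast : ((w.val : ℕ) : ZMod p) = w := ZMod.natCast_zmod_val w
  rcases le_or_gt w.val ((p - 1) / 2) with h | h
  · refine ⟨w.val, ?_, Or.inl hcast.symm⟩
    unfold I
    rw [Finset.mem_Icc]
    omega
  · refine ⟨p - w.val, ?_, Or.inr ?_⟩
    · unfold I
      rw [Finset.mem_Icc]
      omega
    · rw [Nat.cast_sub hv.le, hcast, ZMod.natCast_self]
      ring

/-- If no class is empty then `R_{Γ-1} = ℤ/p` (`p ≥ 7`).

Proof.  Let `X = R_Γ`, `O` = set of odd classes (`|O| = o`), `E` = set of even (nonzero) classes,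
`o + e = (p-1)/2`, `Y = {0} ∪ {± i : i ∈ E}` = complement of `{± i : i ∈ O}`, `|Y| = p - 2 o`.  By `move`,
`X + Y ⊆ R_{Γ-1}`.  If `|X| + |Y| > p` then `X + Y = ℤ/p` (for `u`, the sets `u - X` and `Y` meet), done.
By `K0` `|X| ≥ min p (1 + T o)`, so `|X| + |Y| > p` unless `1 + T o ≤ 2 o`, i.e. `o ∈ {1, 2}`
(`p - 2 o ≥ 1`, so the case `|X| ≥ p` is fine).

Case `o = 1`, `O = {i}`.  With `b = ∑ l (a l / 2)` (floor), `X ⊇ {b, b + i}` (take `j = a/2`, or
`j_i = (a_i+1)/2`).  If `u ∉ X + Y`, then `u - b`, `u - b - i ∈ {i, -i}`; `u - b = i` gives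
`0 = ± i`; `u - b = -i` gives `-2 i = ± i`, i.e. `3 i = 0` or `i = 0`; impossible as `p ≥ 5`.

Case `o = 2`, `O = {i, k}`, `X ⊇ {b, b+i, b+k, b+i+k}`.  If `u ∉ X + Y`, `w = u - b`, then `w, w - i, w - k,
w - i - k ∈ {±i, ±k}`.  `w = i`: `w - i = 0` impossible.  `w = k`: the same.  `w = -i`: `w - i = -2i` must be
one of `±i, ±k`, so (as `3 i ≠ 0`, `i ≠ 0`) `k = ± 2 i`; `k = 2 i`: `w - k = -3 i ∈ {±i, ±2i}`:
`4i, 2i, 5i or i = 0`, impossible; `k = -2i`: `w - i - k = 0`, impossible.  `w = -k`: symmetric. -/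
lemma K1u (hp : 7 ≤ p) (a : ℕ → ℕ) (hz : zz p a = 0) :
    R p a (Gam p a - 1) = univ := by
  classical
  have hpp : p.Prime := Fact.out
  have h2 : p ≠ 2 := by omega
  have hodd : p % 2 = 1 := by
    rcases hpp.eq_two_or_odd with h0 | h0
    · exact absurd h0 h2
    · exact h0
  have hne0 : ∀ i ∈ I p, a i ≠ 0 := by
    unfold zz at hz
    rw [Finset.card_eq_zero, Finset.filter_eq_empty_iff] at hz
    exact fun i hi => hz hi
  set E : Finset ℕ := (I p).filter (fun i => a i % 2 = 0 ∧ a i ≠ 0) with hE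
  set O : Finset ℕ := (I p).filter (fun i => a i % 2 = 1) with hO
  have hEcard : E.card = ee p a := rfl
  have hOcard : O.card = oo p a := rfl
  have hEI : ∀ i ∈ E, 1 ≤ i ∧ i ≤ (p - 1) / 2 := by
    intro i hi
    have h1 := (Finset.mem_filter.1 hi).1
    unfold I at h1
    exact Finset.mem_Icc.1 h1
  have hOI : ∀ i ∈ O, 1 ≤ i ∧ i ≤ (p - 1) / 2 := by
    intro i hi
    have h1 := (Finset.mem_filter.1 hi).1
    unfold I at h1
    exact Finset.mem_Icc.1 h1
  have hEm : ∀ i ∈ E, i ∈ I p ∧ a i % 2 = 0 ∧ a i ≠ 0 := fun i hi => by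
    have h1 := Finset.mem_filter.1 hi
    exact ⟨h1.1, h1.2.1, h1.2.2⟩
  have hOm : ∀ i ∈ O, i ∈ I p ∧ a i % 2 = 1 := fun i hi => Finset.mem_filter.1 hi
  have hOne : ∀ i ∈ O, (i : ZMod p) ≠ 0 := by
    intro i hi h
    have := k1u_cast_inj (p := p) (i := i) (k := 0) (hOI i hi).2 (Nat.zero_le _) (by simpa using h)
    have := (hOI i hi).1
    omega
  -- the set `Y`
  set Yp : Finset (ZMod p) := E.image (fun i : ℕ => (i : ZMod p)) with hYp
  set Yn : Finset (ZMod p) := E.image (fun i : ℕ => -(i : ZMod p)) with hYn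
  set Y : Finset (ZMod p) := insert 0 (Yp ∪ Yn) with hY
  have hYpc : Yp.card = ee p a := by
    rw [hYp, Finset.card_image_of_injOn, hEcard]
    intro i hi k hk hik
    exact k1u_cast_inj (hEI i hi).2 (hEI k hk).2 hik
  have hYnc : Yn.card = ee p a := by
    rw [hYn, Finset.card_image_of_injOn, hEcard]
    intro i hi k hk hik
    exact k1u_cast_inj (hEI i hi).2 (hEI k hk).2 (neg_injective hik)
  have hdisj : Disjoint Yp Yn := by
    rw [Finset.disjoint_left]
    intro y hy1 hy2
    obtain ⟨i, hi, rfl⟩ := Finset.mem_image.1 hy1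
    obtain ⟨k, hk, hik⟩ := Finset.mem_image.1 hy2
    exact k1u_cast_ne (hEI i hi).1 (hEI i hi).2 (hEI k hk).2 hik.symm
  have h0 : (0 : ZMod p) ∉ Yp ∪ Yn := by
    intro h0
    rcases Finset.mem_union.1 h0 with h1 | h1
    · obtain ⟨i, hi, hi0⟩ := Finset.mem_image.1 h1
      refine k1u_cast_ne (k := 0) (hEI i hi).1 (hEI i hi).2 (Nat.zero_le _) ?_
      simpa using hi0
    · obtain ⟨i, hi, hi0⟩ := Finset.mem_image.1 h1
      refine k1u_cast_ne (k := 0) (hEI i hi).1 (hEI i hi).2 (Nat.zero_le _) ?_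
      simpa using hi0
  have hYc : Y.card = 2 * ee p a + 1 := by
    rw [hY, Finset.card_insert_of_notMem h0, Finset.card_union_of_disjoint hdisj, hYpc, hYnc]
    ring
  -- complement of `Y`
  have hcompl : ∀ w : ZMod p, w ∉ Y → ∃ i ∈ O, w = (i : ZMod p) ∨ w = -(i : ZMod p) := by
    intro w hw
    have hw0 : w ≠ 0 := fun h => hw (by rw [h]; exact Finset.mem_insert_self _ _)
    obtain ⟨i, hi, hwi⟩ := k1u_rep h2 w hw0
    refine ⟨i, ?_, hwi⟩
    rw [hO, Finset.mem_filter]
    refine ⟨hi, ?_⟩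
    rcases Nat.mod_two_eq_zero_or_one (a i) with h | h
    · exfalso
      apply hw
      have hiE : i ∈ E := by
        rw [hE, Finset.mem_filter]
        exact ⟨hi, h, hne0 i hi⟩
      refine Finset.mem_insert_of_mem ?_
      rcases hwi with h3 | h3
      · exact Finset.mem_union_left _ (Finset.mem_image.2 ⟨i, hiE, h3.symm⟩)
      · exact Finset.mem_union_right _ (Finset.mem_image.2 ⟨i, hiE, h3.symm⟩)
    · exact h
  -- `R_Γ + Y ⊆ R_{Γ-1}`
  have hsum : ∀ t ∈ R p a (Gam p a), ∀ y ∈ Y, t + y ∈ R p a (Gam p a - 1) := by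
    intro t ht y hy
    rcases Finset.mem_insert.1 hy with h1 | h1
    · rw [h1, add_zero]
      exact R_anti a (Nat.sub_le _ _) ht
    · rcases Finset.mem_union.1 h1 with h1 | h1
      · obtain ⟨i, hi, rfl⟩ := Finset.mem_image.1 h1
        have h3 := move a {i} ∅ (by simpa using hEm i hi) (by simp) (by simp) t ht
        simpa using h3
      · obtain ⟨i, hi, rfl⟩ := Finset.mem_image.1 h1
        have h3 := move a ∅ {i} (by simp) (by simpa using hEm i hi) (by simp) t ht
        simpa [sub_eq_add_neg] using h3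
  rw [Finset.eq_univ_iff_forall]
  intro u
  by_contra hu
  have hnot : ∀ x ∈ R p a (Gam p a), u - x ∉ Y := by
    intro x hx hxY
    apply hu
    have := hsum x hx _ hxY
    simpa using this
  have hd : Disjoint (R p a (Gam p a)) (Y.image (fun y => u - y)) := by
    rw [Finset.disjoint_left]
    intro t ht1 ht2
    obtain ⟨y, hy, rfl⟩ := Finset.mem_image.1 ht2
    apply hnot _ ht1
    simpa using hy
  have h5 := Finset.card_le_univ ((R p a (Gam p a)) ∪ (Y.image (fun y => u - y)))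
  rw [Finset.card_union_of_disjoint hd, Finset.card_image_of_injective _ (sub_right_injective),
    ZMod.card, hYc] at h5
  have hcount := count (p := p) a
  have hK0 := K0 (p := p) a
  have hTo : 1 + T (oo p a) ≤ 2 * oo p a := by
    rcases le_total p (1 + T (oo p a)) with h3 | h3
    · rw [min_eq_left h3] at hK0
      omega
    · rw [min_eq_right h3] at hK0
      omega
  set b : ZMod p := pos p (fun i => a i / 2) with hb
  rcases k1u_T _ hTo with ho | ho
  · rw [← hOcard, Finset.card_eq_one] at ho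
    obtain ⟨i, hi⟩ := ho
    have hiO : i ∈ O := by rw [hi]; exact Finset.mem_singleton_self i
    have hc : ∀ x ∈ R p a (Gam p a), u - x = (i : ZMod p) ∨ u - x = -(i : ZMod p) := by
      intro x hx
      obtain ⟨k, hk, hk2⟩ := hcompl _ (hnot x hx)
      rw [hi, Finset.mem_singleton] at hk
      rwa [hk] at hk2
    have e0 := hc _ (k1u_mem a ∅ (by simp))
    have e1 := hc _ (k1u_mem a {i} (by simpa using hOm i hiO))
    rw [Finset.sum_empty, add_zero, ← hb] at e0
    rw [Finset.sum_singleton, ← hb, ← sub_sub] at e1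
    exact k1u_one hp (hOne i hiO) e0 e1
  · rw [← hOcard, Finset.card_eq_two] at ho
    obtain ⟨i, k, hik, hi⟩ := ho
    have hiO : i ∈ O := by rw [hi]; simp
    have hkO : k ∈ O := by rw [hi]; simp
    have hc : ∀ x ∈ R p a (Gam p a), u - x = (i : ZMod p) ∨ u - x = -(i : ZMod p) ∨
        u - x = (k : ZMod p) ∨ u - x = -(k : ZMod p) := by
      intro x hx
      obtain ⟨l, hl, hl2⟩ := hcompl _ (hnot x hx)
      rw [hi, Finset.mem_insert, Finset.mem_singleton] at hl
      rcases hl with rfl | rfl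
      · rcases hl2 with h | h
        · exact Or.inl h
        · exact Or.inr (Or.inl h)
      · exact Or.inr (Or.inr hl2)
    have e0 := hc _ (k1u_mem a ∅ (by simp))
    have e1 := hc _ (k1u_mem a {i} (by simpa using hOm i hiO))
    have e2 := hc _ (k1u_mem a {k} (by simpa using hOm k hkO))
    have e3 := hc _ (k1u_mem a {i, k} (by
      intro l hl
      rw [Finset.mem_insert, Finset.mem_singleton] at hl
      rcases hl with rfl | rfl
      · exact hOm _ hiO
      · exact hOm _ hkO))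
    rw [Finset.sum_empty, add_zero, ← hb] at e0
    rw [Finset.sum_singleton, ← hb, ← sub_sub] at e1 e2
    rw [Finset.sum_pair hik, ← hb, ← add_assoc, ← sub_sub, ← sub_sub] at e3
    exact k1u_two hp (hOne i hiO) (hOne k hkO) e0 e1 e2 e3

end SPR
end

section

set_option autoImplicit false

open Finset

namespace SPR

variable {p : ℕ} [Fact p.Prime]

/-- Levels below a full level are full. -/
private lemma b3b_card_eq (a : ℕ → ℕ) {v w : ℕ} (h : R p a w = univ) (hv : v ≤ w) :
    (R p a v).card = p := by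
  have h1 : R p a v = univ := by
    apply Finset.eq_univ_of_forall
    intro t
    exact R_anti a hv (h ▸ Finset.mem_univ t)
  rw [h1, Finset.card_univ, ZMod.card]

/-- The first `k` levels being full gives `p k`. -/
private lemma b3b_sum_ge (q a0 : ℕ) (a : ℕ → ℕ) (w k : ℕ) (h : R p a w = univ) (hk : k ≤ q)
    (hv : ∀ v, v < k → v - T a0 ≤ w) : p * k ≤ LL p q a0 a := by
  unfold LL
  have h1 : ∑ v ∈ Finset.range k, (R p a (v - T a0)).card = p * k := by
    rw [Finset.sum_congr rfl fun v hv' => b3b_card_eq a h (hv v (Finset.mem_range.mp hv'))]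
    simp [mul_comm]
  rw [← h1]
  exact Finset.sum_le_sum_of_subset (Finset.range_subset_range.mpr hk)

/-- All levels `v < q` are nonempty (`v - T a0 ≤ Γ`). -/
lemma LL_ge_q (q a0 : ℕ) (a : ℕ → ℕ) (h : q ≤ 1 + T a0 + Gam p a) : q ≤ LL p q a0 a := by
  unfold LL
  have h1 : ∑ v ∈ Finset.range q, 1 ≤ ∑ v ∈ Finset.range q, (R p a (v - T a0)).card := by
    apply Finset.sum_le_sum
    intro v hv
    have hv' := Finset.mem_range.mp hv
    exact Finset.card_pos.mpr (R_nonempty a (by omega))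
  simpa using h1

/-- All levels `v < q` are full (`v - T a0 ≤ Γ - c`). -/
lemma LL_full (q a0 : ℕ) (a : ℕ → ℕ) (c : ℕ) (h : R p a (Gam p a - c) = univ)
    (hq : q + c ≤ 1 + T a0 + Gam p a) : LL p q a0 a = p * q := by
  unfold LL
  rw [Finset.sum_congr rfl fun v hv' => b3b_card_eq a h
    (show v - T a0 ≤ Gam p a - c by have := Finset.mem_range.mp hv'; omega)]
  simp [mul_comm]

/-- The levels `v < min (q, 1 + T a0 + (Γ - c))` are full. -/
lemma LL_univ (q a0 : ℕ) (a : ℕ → ℕ) (c : ℕ) (h : R p a (Gam p a - c) = univ) :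
    min ((p : ℤ) * q) ((p : ℤ) * (1 + T a0 + Gam p a - c)) ≤ LL p q a0 a := by
  have hp : (0 : ℤ) ≤ p := Int.natCast_nonneg p
  rcases le_total q (1 + T a0 + (Gam p a - c)) with hq | hq
  · refine (min_le_left _ _).trans ?_
    have h1 := b3b_sum_ge q a0 a (Gam p a - c) q h le_rfl (fun v hv => by omega)
    exact_mod_cast h1
  · refine (min_le_right _ _).trans ?_
    have h1 := b3b_sum_ge q a0 a (Gam p a - c) (1 + T a0 + (Gam p a - c)) h hq
      (fun v hv => by omega)
    have h2 : (p : ℤ) * (1 + T a0 + Gam p a - c) ≤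
        (p : ℤ) * ((1 + T a0 + (Gam p a - c) : ℕ) : ℤ) := by
      apply mul_le_mul_of_nonneg_left _ hp
      omega
    refine h2.trans ?_
    exact_mod_cast h1

/-- `1 + T a0 + Γ = q + 1`, `R_{Γ-2} = ℤ/p`: the levels `v ≤ q - 2` are full and for `v = q - 1`
`v - T a0 = Γ - 1` (natural subtraction; if `Γ = 0` both are `0`). -/
lemma LL_W (q a0 : ℕ) (a : ℕ → ℕ) (h : R p a (Gam p a - 2) = univ)
    (hq : T a0 + Gam p a = q) (hq0 : 1 ≤ q) :
    p * (q - 1) + (R p a (Gam p a - 1)).card ≤ LL p q a0 a := by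
  obtain ⟨r, rfl⟩ : ∃ r, q = r + 1 := ⟨q - 1, by omega⟩
  unfold LL
  rw [Finset.sum_range_succ, Finset.sum_congr rfl fun v hv' => b3b_card_eq a h
    (show v - T a0 ≤ Gam p a - 2 by have := Finset.mem_range.mp hv'; omega)]
  have h1 : r - T a0 = Gam p a - 1 := by omega
  rw [h1]
  simp [mul_comm]

end SPR
end
end
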