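import Pool.Agent.Lib.MP_d3cc86_co.SP.B3b
import Pool.Agent.Lib.MP_d3cc86_co.SP.B1
import Pool.Agent.Lib.MP_d3cc86_co.SP.N1
import Pool.Agent.Lib.MP_d3cc86_co.SP.U0

section

set_option autoImplicit false

open Finset

namespace SPR

variable {p : ℕ} [Fact p.Prime]

private lemma b3_half (m : ℕ) : (m / 2) * (m - m / 2) = m ^ 2 / 4 := by
  rcases Nat.even_or_odd' m with ⟨k, rfl | rfl⟩
  · have h1 : 2 * k / 2 = k := by omega
    have h2 : (2 * k) ^ 2 = 4 * (k * k) := by ring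
    rw [h1, h2, Nat.mul_div_cancel_left _ (by norm_num)]
    congr 1
    omega
  · have h1 : (2 * k + 1) / 2 = k := by omega
    have h2 : (2 * k + 1) ^ 2 = 1 + 4 * (k * (k + 1)) := by ring
    rw [h1, h2, Nat.add_mul_div_left _ _ (by norm_num)]
    have h3 : 2 * k + 1 - k = k + 1 := by omega
    rw [h3]
    omega

/-- For `v < q` and `j i ≤ a i - d i` the vector `j + d/2` is `≤ a` and has gain
`≥ ∑ (d i / 2) (d i - d i / 2) = Gam p d ≥ v - T a0`.  So `R_{v - T a0}` contains a translate of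
`R p (a - d) 0`, which has at least `min p (1 + ∑ (a i - d i))` elements (`seq_bound'`). -/
lemma FQ (q a0 : ℕ) (a d : ℕ → ℕ) (hd : ∀ i ∈ I p, d i ≤ a i) (hq : q ≤ 1 + T a0 + Gam p d) :
    q * min p (1 + ∑ i ∈ I p, (a i - d i)) ≤ LL p q a0 a := by
  classical
  unfold LL
  have h0 : q * min p (1 + ∑ i ∈ I p, (a i - d i)) =
      ∑ _v ∈ Finset.range q, min p (1 + ∑ i ∈ I p, (a i - d i)) := by
    rw [Finset.sum_const, Finset.card_range, smul_eq_mul]
  rw [h0]
  refine Finset.sum_le_sum fun v hv => ?_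
  rw [Finset.mem_range] at hv
  refine (seq_bound' p (fun i => a i - d i)).trans ?_
  refine Finset.card_le_card_of_injOn (fun t => t + pos p (fun i => d i / 2)) ?_ ?_
  · intro t ht
    rw [Finset.mem_coe, R, Finset.mem_filter] at ht
    obtain ⟨-, j, hj, hpos, -⟩ := ht
    rw [Finset.mem_coe, R, Finset.mem_filter]
    refine ⟨Finset.mem_univ _, fun i => j i + d i / 2, ?_, ?_, ?_⟩
    · intro i hi
      have h1 := hj i hi
      have h2 := hd i hi
      beta_reduce at h1 ⊢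
      omega
    · rw [← hpos]
      unfold pos
      beta_reduce
      rw [← Finset.sum_add_distrib]
      refine Finset.sum_congr rfl fun i _ => ?_
      push_cast
      ring
    · have h3 : Gam p d ≤ gain p a (fun i => j i + d i / 2) := by
        unfold Gam gain
        refine Finset.sum_le_sum fun i hi => ?_
        rw [← b3_half]
        have h1 := hj i hi
        have h2 := hd i hi
        refine Nat.mul_le_mul (by beta_reduce at h1 ⊢; omega) (by beta_reduce at h1 ⊢; omega)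
      omega
  · intro x _ y _ hxy
    exact add_right_cancel hxy

end SPR
end

section

set_option autoImplicit false

open Finset

namespace SPR

/-- numeric facts about `o` and `sqrt p`. -/
lemma sqrt_facts {p o : ℕ} (hp : 1000 ≤ p) (ho : 1 + T o < p) :
    31 ≤ Nat.sqrt p ∧ Nat.sqrt p * Nat.sqrt p ≤ p ∧ o ≤ 2 * Nat.sqrt p := by
  have h1 : Nat.sqrt p * Nat.sqrt p ≤ p := Nat.sqrt_le p
  have h2 : p < (Nat.sqrt p + 1) * (Nat.sqrt p + 1) := Nat.lt_succ_sqrt p
  have h3 : 2 * T o = o * (o + 1) := two_T o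
  refine ⟨?_, h1, ?_⟩
  · by_contra h
    push Not at h
    have : Nat.sqrt p + 1 ≤ 31 := h
    nlinarith
  · by_contra h
    push Not at h
    nlinarith

/-- `ρ < p` (in the form `1 + T o < p`), few empty classes: `e` is large.
`o^2 ≤ o (o+1) < 2 p`, `o + e + z = (p-1)/2`, `z < 2 (sqrt p + 1)`, `p ≥ 1000`. -/
lemma ee_big {p : ℕ} [Fact p.Prime] (hp : 1000 ≤ p) (a : ℕ → ℕ) (ho : 1 + T (oo p a) < p)
    (hz : zz p a < 2 * (Nat.sqrt p + 1)) :
    zz p a + 2 ≤ ee p a ∧ oo p a + 2 ≤ ee p a ∧ 2 ≤ ee p a := by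
  obtain ⟨h31, hs, ho2⟩ := sqrt_facts hp ho
  have hc := count (p := p) a
  have hbig : 12 * Nat.sqrt p + 12 ≤ p := by nlinarith
  omega

/-- `k0 = sqrt p + 1` satisfies `p ≤ 1 + k0 (k0 + 1)`. -/
lemma sqrt_bound (p : ℕ) : p ≤ 1 + (Nat.sqrt p + 1) * ((Nat.sqrt p + 1) + 1) := by
  have := Nat.lt_succ_sqrt p
  simp only [Nat.succ_eq_add_one] at this
  nlinarith

/-- If all classes have at most `2 α + 1` elements and `a0 ≤ α`, and `M ≥ (2 α - 1) p`
(`α = (M + p)/(2p)`), then many classes have at least two elements.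

Proof.  `∑ a ≤ (2 α + 1) r2 + o` (the classes with `a_i = 1` are odd), so if `r2 ≤ sqrt p`,
`(2 α - 1) p ≤ M = 2 a0 + 1 + 2 ∑ a ≤ 2 α + 1 + 2 (2 α + 1) sqrt p + 2 o`, with `2 α + 1 ≤ 3 (2 α - 1)`:
`p ≤ 3 + 6 sqrt p + 2 o`, `o^2 < 2 p`: impossible for `p ≥ 1000`. -/
lemma r2_big {p : ℕ} (hp : 1000 ≤ p) (a0 : ℕ) (a : ℕ → ℕ) (al : ℕ) (hal : 1 ≤ al)
    (h0 : a0 ≤ al) (ha : ∀ i ∈ I p, a i ≤ 2 * al + 1)
    (hM : (2 * al - 1) * p ≤ 2 * (a0 + ∑ i ∈ I p, a i) + 1) (ho : 1 + T (oo p a) < p) :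
    Nat.sqrt p + 1 ≤ r2 p a := by
  obtain ⟨h31, hs, ho2⟩ := sqrt_facts hp ho
  by_contra hcon
  push Not at hcon
  have hr : r2 p a ≤ Nat.sqrt p := by omega
  have hsum : ∑ i ∈ I p, a i ≤ (2 * al + 1) * r2 p a + oo p a := by
    unfold r2 oo
    rw [Finset.card_filter, Finset.card_filter, Finset.mul_sum, ← Finset.sum_add_distrib]
    refine Finset.sum_le_sum fun i hi => ?_
    have hai := ha i hi
    by_cases h2 : 2 ≤ a i
    · simp only [h2, if_true, mul_one]
      omega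
    · by_cases h1 : a i = 1
      · simp [h1]
      · have h0' : a i = 0 := by omega
        simp [h0']
  obtain ⟨c, hc⟩ : ∃ c, 2 * al = c + 1 := ⟨2 * al - 1, by omega⟩
  have hc1 : 1 ≤ c := by omega
  have hc2 : 2 * al - 1 = c := by omega
  rw [hc2] at hM
  have h1 : (2 * al + 1) * r2 p a ≤ (3 * c) * Nat.sqrt p :=
    Nat.mul_le_mul (by omega) hr
  have h2 : c * p ≤ 3 * c + 6 * (c * Nat.sqrt p) + 4 * Nat.sqrt p := by
    have h3 : (3 * c) * Nat.sqrt p = 3 * (c * Nat.sqrt p) := by ring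
    omega
  have h4 : Nat.sqrt p ≤ c * Nat.sqrt p := Nat.le_mul_of_pos_left _ hc1
  have h5 : c * p ≤ c * (3 + 10 * Nat.sqrt p) := by
    have : c * (3 + 10 * Nat.sqrt p) = 3 * c + 10 * (c * Nat.sqrt p) := by ring
    omega
  have h6 : p ≤ 3 + 10 * Nat.sqrt p := Nat.le_of_mul_le_mul_left h5 hc1
  nlinarith

end SPR
end

section

set_option autoImplicit false

open Finset

namespace SPR

variable {p : ℕ} [Fact p.Prime]

private lemma two_mul_T (s : ℕ) : 2 * T s = s * (s + 1) := by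
  unfold T
  have h : 2 ∣ s * (s + 1) := (Nat.even_mul_succ_self s).two_dvd
  omega

private lemma local_gain (x j : ℕ) (h2 : 2 ≤ x) (hj : j ≤ 2) :
    x ^ 2 / 4 ≤ (x / 2 - 1 + j) * (x - (x / 2 - 1 + j)) + 2 := by
  obtain ⟨b, hb⟩ : ∃ b, x = 2 * b + 2 ∨ x = 2 * b + 3 := by
    refine ⟨x / 2 - 1, ?_⟩
    omega
  rcases hb with hb | hb
  · subst hb
    have e1 : (2 * b + 2) / 2 - 1 = b := by omega
    have e2 : (2 * b + 2) ^ 2 / 4 = (b + 1) ^ 2 := by
      have : (2 * b + 2) ^ 2 = 4 * (b + 1) ^ 2 := by ring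
      rw [this]; simp
    rw [e1, e2]
    interval_cases j
    · have e3 : 2 * b + 2 - (b + 0) = b + 2 := by omega
      rw [e3]; nlinarith
    · have e3 : 2 * b + 2 - (b + 1) = b + 1 := by omega
      rw [e3]; nlinarith
    · have e3 : 2 * b + 2 - (b + 2) = b := by omega
      rw [e3]; nlinarith
  · subst hb
    have e1 : (2 * b + 3) / 2 - 1 = b := by omega
    have e2 : (2 * b + 3) ^ 2 / 4 = (b + 1) * (b + 2) := by
      have : (2 * b + 3) ^ 2 = 1 + 4 * ((b + 1) * (b + 2)) := by ring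
      rw [this]; omega
    rw [e1, e2]
    interval_cases j
    · have e3 : 2 * b + 3 - (b + 0) = b + 3 := by omega
      rw [e3]; nlinarith
    · have e3 : 2 * b + 3 - (b + 1) = b + 2 := by omega
      rw [e3]; nlinarith
    · have e3 : 2 * b + 3 - (b + 2) = b + 1 := by omega
      rw [e3]; nlinarith

/-- `k ≤ r2`, `p ≤ 1 + k (k+1)` implies `R_{Γ-2k} = ℤ/p`.

Proof.  Take a set `S` of `k` classes with `a i ≥ 2`.  Put `s i = a i / 2 - 1` for `i ∈ S`,
`s i = a i / 2` for the other classes, `f i = 2` on `S`, `f i = 0` otherwise.  For `0 ≤ j i ≤ f i` the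
vector `s + j` is `≤ a` and its gain is at least `Γ - 2 k`: for `a = 2 b` the values
`j (a - j)`, `j = b - 1, b, b + 1`, are `b^2 - 1, b^2, b^2 - 1`; for `a = 2 b + 1`:
`j = b - 1, b, b + 1` gives `(b-1)(b+2) = b(b+1) - 2, b(b+1), b(b+1)`.  So `R_{Γ - 2k} ⊇ pos s + R p f 0`
and by `seq_bound` `|R p f 0| ≥ min p (1 + U p f)`, `U p f = 2 T k = k (k+1)` (levels `l = 0, 1`;
`∑ f = 2 k`; `k ≥ 1` because `p ≥ 2`). -/
lemma K2k (a : ℕ → ℕ) (k : ℕ) (hk : k ≤ r2 p a) (hp : p ≤ 1 + k * (k + 1)) :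
    R p a (Gam p a - 2 * k) = univ := by
  classical
  have hp2 : 2 ≤ p := (Fact.out : p.Prime).two_le
  have hk1 : 1 ≤ k := by
    rcases Nat.eq_zero_or_pos k with h | h
    · subst h; simp at hp; omega
    · exact h
  obtain ⟨S, hS, hScard⟩ := Finset.exists_subset_card_eq (s := (I p).filter (fun i => 2 ≤ a i)) hk
  have hSI : ∀ i ∈ S, i ∈ I p ∧ 2 ≤ a i := fun i hi => Finset.mem_filter.1 (hS hi)
  set s : ℕ → ℕ := fun i => if i ∈ S then a i / 2 - 1 else a i / 2 with hs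
  set f : ℕ → ℕ := fun i => if i ∈ S then 2 else 0 with hf
  have hfilt : ∀ l, l < 2 → (I p).filter (fun i => l < f i) = S := by
    intro l hl
    ext i
    simp only [Finset.mem_filter, hf]
    constructor
    · rintro ⟨_, h2⟩
      by_contra h
      simp [h] at h2
    · intro h
      refine ⟨(hSI i h).1, ?_⟩
      simp [h, hl]
  have hsumf : ∑ i ∈ I p, f i = 2 * k := by
    simp only [hf]
    rw [← Finset.sum_filter]
    have : (I p).filter (fun i => i ∈ S) = S := by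
      ext i
      simp only [Finset.mem_filter]
      exact ⟨fun h => h.2, fun h => ⟨(hSI i h).1, h⟩⟩
    rw [this]
    simp [hScard, mul_comm]
  have hU : k * (k + 1) ≤ U p f := by
    unfold U
    rw [hsumf]
    calc k * (k + 1) = ∑ l ∈ Finset.range 2, T ((I p).filter (fun i => l < f i)).card := by
          rw [Finset.sum_range_succ, Finset.sum_range_one, hfilt 0 (by omega), hfilt 1 (by omega),
            hScard, ← two_mul_T]
          ring
      _ ≤ ∑ l ∈ Finset.range (2 * k), T ((I p).filter (fun i => l < f i)).card := by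
          apply Finset.sum_le_sum_of_subset
          intro l hl
          simp only [Finset.mem_range] at hl ⊢
          omega
  have hR : R p f 0 = univ := by
    apply Finset.eq_univ_of_card
    rw [ZMod.card]
    have h1 := seq_bound p f
    have h2 : p ≤ 1 + U p f := by omega
    rw [min_eq_left h2] at h1
    have h3 : (R p f 0).card ≤ Fintype.card (ZMod p) := Finset.card_le_univ _
    rw [ZMod.card] at h3
    omega
  rw [Finset.eq_univ_iff_forall]
  intro t
  have ht : t - pos p s ∈ R p f 0 := by rw [hR]; exact Finset.mem_univ _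
  rw [mem_R] at ht ⊢
  obtain ⟨j, hj1, hj2, _⟩ := ht
  refine ⟨fun i => s i + j i, ?_, ?_, ?_⟩
  · intro i hi
    have := hj1 i hi
    simp only [hf, hs] at this ⊢
    by_cases h : i ∈ S
    · simp only [h, if_true] at this ⊢
      have := (hSI i h).2
      omega
    · simp only [h, if_false] at this ⊢
      omega
  · have : pos p (fun i => s i + j i) = pos p s + pos p j := by
      simp only [pos]
      rw [← Finset.sum_add_distrib]
      apply Finset.sum_congr rfl
      intro i _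
      push_cast
      ring
    rw [this, hj2]
    ring
  · have h2k : 2 * k = ∑ i ∈ I p, f i := hsumf.symm
    have key : Gam p a ≤ gain p a (fun i => s i + j i) + 2 * k := by
      rw [h2k]
      simp only [Gam, gain]
      rw [← Finset.sum_add_distrib]
      apply Finset.sum_le_sum
      intro i hi
      have := hj1 i hi
      simp only [hf, hs] at this ⊢
      by_cases h : i ∈ S
      · simp only [h, if_true] at this ⊢
        exact local_gain (a i) (j i) (hSI i h).2 this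
      · simp only [h, if_false] at this ⊢
        have hj0 : j i = 0 := by omega
        rw [hj0, add_zero, add_zero]
        rcases Nat.even_or_odd' (a i) with ⟨c, hc | hc⟩
        · rw [hc]
          have e1 : 2 * c / 2 = c := by omega
          have e2 : (2 * c) ^ 2 / 4 = c ^ 2 := by
            have : (2 * c) ^ 2 = 4 * c ^ 2 := by ring
            rw [this]; simp
          have e3 : 2 * c - c = c := by omega
          rw [e1, e2, e3]; nlinarith
        · rw [hc]
          have e1 : (2 * c + 1) / 2 = c := by omega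
          have e2 : (2 * c + 1) ^ 2 / 4 = c * (c + 1) := by
            have : (2 * c + 1) ^ 2 = 1 + 4 * (c * (c + 1)) := by ring
            rw [this]; omega
          have e3 : 2 * c + 1 - c = c + 1 := by omega
          rw [e1, e2, e3]
    omega

end SPR
end

section

set_option autoImplicit false

open Finset

namespace SPR

variable {p : ℕ} [Fact p.Prime]

private lemma k2u_cast_inj {i k : ℕ} (hi : i ≤ (p - 1) / 2) (hk : k ≤ (p - 1) / 2)
    (h : (i : ZMod p) = (k : ZMod p)) : i = k := by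
  have hp := (Fact.out : p.Prime).pos
  have h1 := (ZMod.natCast_eq_natCast_iff' i k p).1 h
  rwa [Nat.mod_eq_of_lt (by omega), Nat.mod_eq_of_lt (by omega)] at h1

private lemma k2u_cast_ne {i k : ℕ} (hi0 : 1 ≤ i) (hi : i ≤ (p - 1) / 2) (hk : k ≤ (p - 1) / 2) :
    (i : ZMod p) ≠ -(k : ZMod p) := by
  intro h
  have hp := (Fact.out : p.Prime).pos
  have h1 : ((i + k : ℕ) : ZMod p) = 0 := by
    push_cast
    rw [h]; ring
  rw [ZMod.natCast_eq_zero_iff] at h1
  have h2 := Nat.le_of_dvd (by omega) h1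
  omega

private lemma k2u_T (s : ℕ) : 2 * s ≤ T s + 1 := by
  have h1 : 2 * T s = s * (s + 1) := by
    unfold T
    have h : 2 ∣ s * (s + 1) := (Nat.even_mul_succ_self s).two_dvd
    omega
  have h2 : 4 * s ≤ s * (s + 1) + 2 := by
    zify
    rcases Nat.lt_or_ge s 2 with h | h
    · interval_cases s <;> norm_num
    · have h3 : (2 : ℤ) ≤ s := by exact_mod_cast h
      nlinarith [mul_nonneg (sub_nonneg.2 h3) (by linarith : (0 : ℤ) ≤ (s : ℤ) - 1)]
  omega

/-- `ρ < p`, `e ≥ z + 2` implies `R_{Γ-2} = ℤ/p` (`p` odd).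

Proof.  Let `Y = {0} ∪ {± i : i ∈ E}`, `|Y| = 2 e + 1`.  By `dsh` with `j = 2` the set `Y2` of all sums of
two distinct elements of `Y` has at least `min p (1 + 2 (2 e - 1)) = min p (4 e - 1)` elements.
`R_Γ + Y2 ⊆ R_{Γ-2}` by `move` (a sum of two distinct elements of `Y` is `0`, `± i` or `± i ± i'` with
`i ≠ i'` in `E`).  Now `p = 1 + 2 (o + e + z)` (`count`), `ρ ≥ 1 + T o` (`K0`, `ρ < p`) and
`ρ + (4 e - 1) ≥ T o + 4 e ≥ T o + 2 e + 2 z + 4 > 1 + 2 o + 2 e + 2 z = p` because `T o + 3 ≥ 2 o`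
(check `o = 0, 1, 2, 3`, and `T o ≥ 2 o` for `o ≥ 3`).  Two sets of sizes with sum `> p` have sumset
`ℤ/p`. -/
lemma K2u (h2 : p ≠ 2) (a : ℕ → ℕ) (h : (R p a (Gam p a)).card < p) (he : zz p a + 2 ≤ ee p a) :
    R p a (Gam p a - 2) = univ := by
  classical
  have hp : p.Prime := Fact.out
  have hp2 := hp.two_le
  have hodd : p % 2 = 1 := by
    rcases hp.eq_two_or_odd with h0 | h0
    · exact absurd h0 h2
    · exact h0
  set E : Finset ℕ := (I p).filter (fun i => a i % 2 = 0 ∧ a i ≠ 0) with hE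
  have hEcard : E.card = ee p a := rfl
  have hEI : ∀ i ∈ E, 1 ≤ i ∧ i ≤ (p - 1) / 2 := by
    intro i hi
    have h1 := (Finset.mem_filter.1 hi).1
    unfold I at h1
    exact Finset.mem_Icc.1 h1
  have hEm : ∀ i ∈ E, i ∈ I p ∧ a i % 2 = 0 ∧ a i ≠ 0 := fun i hi => by
    have h1 := Finset.mem_filter.1 hi
    exact ⟨h1.1, h1.2.1, h1.2.2⟩
  -- the set `Y`
  set Yp : Finset (ZMod p) := E.image (fun i : ℕ => (i : ZMod p)) with hYp
  set Yn : Finset (ZMod p) := E.image (fun i : ℕ => -(i : ZMod p)) with hYn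
  set Y : Finset (ZMod p) := insert 0 (Yp ∪ Yn) with hY
  have hYpc : Yp.card = ee p a := by
    rw [hYp, Finset.card_image_of_injOn, hEcard]
    intro i hi k hk hik
    exact k2u_cast_inj (hEI i hi).2 (hEI k hk).2 hik
  have hYnc : Yn.card = ee p a := by
    rw [hYn, Finset.card_image_of_injOn, hEcard]
    intro i hi k hk hik
    exact k2u_cast_inj (hEI i hi).2 (hEI k hk).2 (neg_injective hik)
  have hdisj : Disjoint Yp Yn := by
    rw [Finset.disjoint_left]
    intro y hy1 hy2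
    obtain ⟨i, hi, rfl⟩ := Finset.mem_image.1 hy1
    obtain ⟨k, hk, hik⟩ := Finset.mem_image.1 hy2
    exact k2u_cast_ne (hEI i hi).1 (hEI i hi).2 (hEI k hk).2 hik.symm
  have h0 : (0 : ZMod p) ∉ Yp ∪ Yn := by
    intro h0
    rcases Finset.mem_union.1 h0 with h1 | h1
    · obtain ⟨i, hi, hi0⟩ := Finset.mem_image.1 h1
      refine k2u_cast_ne (k := 0) (hEI i hi).1 (hEI i hi).2 (Nat.zero_le _) ?_
      simpa using hi0
    · obtain ⟨i, hi, hi0⟩ := Finset.mem_image.1 h1
      refine k2u_cast_ne (k := 0) (hEI i hi).1 (hEI i hi).2 (Nat.zero_le _) ?_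
      simpa using hi0
  have hYc : Y.card = 2 * ee p a + 1 := by
    rw [hY, Finset.card_insert_of_notMem h0, Finset.card_union_of_disjoint hdisj, hYpc, hYnc]
    ring
  have hcase : ∀ y ∈ Y, y = 0 ∨ (∃ i ∈ E, y = (i : ZMod p)) ∨ ∃ i ∈ E, y = -(i : ZMod p) := by
    intro y hy
    rcases Finset.mem_insert.1 hy with h1 | h1
    · exact Or.inl h1
    · rcases Finset.mem_union.1 h1 with h1 | h1
      · obtain ⟨i, hi, hi0⟩ := Finset.mem_image.1 h1
        exact Or.inr (Or.inl ⟨i, hi, hi0.symm⟩)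
      · obtain ⟨i, hi, hi0⟩ := Finset.mem_image.1 h1
        exact Or.inr (Or.inr ⟨i, hi, hi0.symm⟩)
  set Y2 : Finset (ZMod p) := (Y.powersetCard 2).image (fun B => ∑ b ∈ B, b) with hY2
  have hee : 2 ≤ ee p a := by omega
  have hY2c : min p (4 * ee p a - 1) ≤ Y2.card := by
    have h1 := dsh p Y 2 (by omega)
    rw [hYc] at h1
    have h3 : 1 + 2 * (2 * ee p a + 1 - 2) = 4 * ee p a - 1 := by omega
    rwa [h3] at h1
  -- `R_Γ + Y2 ⊆ R_{Γ-2}`
  have hmove : ∀ t ∈ R p a (Gam p a), ∀ P N : Finset ℕ, P ⊆ E → N ⊆ E → Disjoint P N →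
      P.card + N.card ≤ 2 →
      t + ∑ i ∈ P, (i : ZMod p) - ∑ i ∈ N, (i : ZMod p) ∈ R p a (Gam p a - 2) := by
    intro t ht P N hP hN hPN hc
    have h1 := move a P N (fun i hi => hEm i (hP hi)) (fun i hi => hEm i (hN hi)) hPN t ht
    exact R_anti a (by omega) h1
  have hsum : ∀ t ∈ R p a (Gam p a), ∀ y ∈ Y2, t + y ∈ R p a (Gam p a - 2) := by
    intro t ht y hy
    obtain ⟨B, hB, rfl⟩ := Finset.mem_image.1 hy
    obtain ⟨hBY, hBc⟩ := Finset.mem_powersetCard.1 hB
    obtain ⟨x, z, hxz, rfl⟩ := Finset.card_eq_two.1 hBc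
    simp only [Finset.sum_pair hxz]
    have hx := hcase x (hBY (by simp))
    have hz := hcase z (hBY (by simp))
    have hm := hmove t ht
    rcases hx with rfl | ⟨i, hi, rfl⟩ | ⟨i, hi, rfl⟩ <;>
      rcases hz with rfl | ⟨k, hk, rfl⟩ | ⟨k, hk, rfl⟩
    · exact absurd rfl hxz
    · have := hm {k} ∅ (by simpa using hk) (by simp) (by simp) (by simp)
      simpa using this
    · have := hm ∅ {k} (by simp) (by simpa using hk) (by simp) (by simp)
      simpa [sub_eq_add_neg] using this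
    · have := hm {i} ∅ (by simpa using hi) (by simp) (by simp) (by simp)
      simpa using this
    · have hik : i ≠ k := fun h => hxz (by rw [h])
      have := hm {i, k} ∅ (by
        intro r hr
        rcases Finset.mem_insert.1 hr with h | h
        · rw [h]; exact hi
        · rw [Finset.mem_singleton.1 h]; exact hk) (by simp) (by simp)
        (by rw [Finset.card_pair hik]; simp)
      simpa [Finset.sum_pair hik] using this
    · by_cases hik : i = k
      · subst hik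
        have := hm ∅ ∅ (by simp) (by simp) (by simp) (by simp)
        simpa using this
      · have := hm {i} {k} (by simpa using hi) (by simpa using hk)
          (by simpa using hik) (by simp)
        simpa [sub_eq_add_neg, add_assoc] using this
    · have := hm ∅ {i} (by simp) (by simpa using hi) (by simp) (by simp)
      simpa [sub_eq_add_neg] using this
    · by_cases hik : k = i
      · subst hik
        have := hm ∅ ∅ (by simp) (by simp) (by simp) (by simp)
        simpa using this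
      · have := hm {k} {i} (by simpa using hk) (by simpa using hi)
          (by simpa using hik) (by simp)
        rw [Finset.sum_singleton, Finset.sum_singleton] at this
        have e1 : t + (-(i : ZMod p) + (k : ZMod p)) = t + (k : ZMod p) - (i : ZMod p) := by ring
        rw [e1]
        exact this
    · have hik : i ≠ k := fun h => hxz (by rw [h])
      have := hm ∅ {i, k} (by simp) (by
        intro r hr
        rcases Finset.mem_insert.1 hr with h | h
        · rw [h]; exact hi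
        · rw [Finset.mem_singleton.1 h]; exact hk) (by simp)
        (by rw [Finset.card_pair hik]; simp)
      rw [Finset.sum_pair hik, Finset.sum_empty, add_zero] at this
      have e1 : t + (-(i : ZMod p) + -(k : ZMod p)) = t - ((i : ZMod p) + (k : ZMod p)) := by ring
      rw [e1]
      exact this
  -- counting
  have hcount := count (p := p) a
  have hK0 := K0 (p := p) a
  have hT := k2u_T (oo p a)
  have hbig : p < (R p a (Gam p a)).card + Y2.card := by
    have hpos : 0 < (R p a (Gam p a)).card := by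
      have h1 := (R_nonempty (p := p) a (le_refl (Gam p a))).card_pos
      exact h1
    rcases le_total p (4 * ee p a - 1) with h1 | h1
    · rw [min_eq_left h1] at hY2c
      omega
    · rw [min_eq_right h1] at hY2c
      rcases le_total p (1 + T (oo p a)) with h3 | h3
      · rw [min_eq_left h3] at hK0
        omega
      · rw [min_eq_right h3] at hK0
        omega
  rw [Finset.eq_univ_iff_forall]
  intro u
  by_contra hu
  have hd : Disjoint (R p a (Gam p a)) (Y2.image (fun y => u - y)) := by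
    rw [Finset.disjoint_left]
    intro t ht1 ht2
    obtain ⟨y, hy, rfl⟩ := Finset.mem_image.1 ht2
    apply hu
    have := hsum (u - y) ht1 y hy
    simpa using this
  have h5 := Finset.card_le_univ ((R p a (Gam p a)) ∪ (Y2.image (fun y => u - y)))
  rw [Finset.card_union_of_disjoint hd, Finset.card_image_of_injective _ (sub_right_injective),
    ZMod.card] at h5
  omega

end SPR
end

section

set_option autoImplicit false

open Finset

namespace SPR

private lemma n3_exists_le (J : Finset ℕ) (a : ℕ → ℕ) :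
    ∀ D : ℕ, D ≤ ∑ i ∈ J, a i → ∃ d : ℕ → ℕ, (∀ i ∈ J, d i ≤ a i) ∧ ∑ i ∈ J, d i = D := by
  classical
  induction J using Finset.induction_on with
  | empty =>
    intro D hD
    rw [Finset.sum_empty, Nat.le_zero] at hD
    exact ⟨fun _ => 0, by simp, by simp [hD]⟩
  | insert j J hj ih =>
    intro D hD
    rw [Finset.sum_insert hj] at hD
    obtain ⟨d, hd1, hd2⟩ := ih (D - min D (a j)) (by
      rcases le_total D (a j) with h | h
      · rw [min_eq_left h]; omega
      · rw [min_eq_right h]; omega)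
    refine ⟨Function.update d j (min D (a j)), ?_, ?_⟩
    · intro i hi
      by_cases hij : i = j
      · rw [hij, Function.update_self]
        exact min_le_right _ _
      · rw [Function.update_of_ne hij]
        exact hd1 i ((Finset.mem_insert.1 hi).resolve_left hij)
    · rw [Finset.sum_insert hj, Function.update_self]
      have : ∑ i ∈ J, Function.update d j (min D (a j)) i = ∑ i ∈ J, d i :=
        Finset.sum_congr rfl fun i hi => by
          rw [Function.update_of_ne]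
          rintro rfl
          exact hj hi
      rw [this, hd2]
      have := min_le_left D (a j)
      omega

private lemma n3_small {x q : ℕ} (hq : 1000 ≤ q) (h : T x + 2 ≤ q) : 22 * x ≤ q := by
  have h2 : 2 * T x = x * (x + 1) := two_T x
  by_contra hlt
  push Not at hlt
  have h3 : x * x + 4 ≤ 2 * q := by nlinarith
  have h4 : q + 1 ≤ 22 * x := hlt
  have h5 : (q + 1) * (q + 1) ≤ (22 * x) * (22 * x) := Nat.mul_le_mul h4 h4
  nlinarith

/-- Existence of the vector `d` in `FQ`.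

Proof.  Let `s = (q-1)/2`, `J = {i ∈ I p : a i ≥ 2}` (`|J| = r2 ≤ sqrt p`),
`D = min (∑_{i ∈ J} a i) (s - a0)`.  Since `T a0 + 2 ≤ q`: `a0^2 < 2 q`, so `22 a0 ≤ q` (`q ≥ 1000`), the
same for `o` (`oo`): `22 o ≤ q`.  `∑_{i ∈ J} a i ≥ (m - a0) - o`, `m ≥ s + 1` (from `q < 2 m + 1`), so
`D ≥ s - a0 - o ≥ (q-1)/2 - q/11`.  Choose `d ≤ a` on `J`, `d = 0` off `J`, with `∑ d = D`.
`Gam p d ≥ (∑ d^2 - r2)/4` and `r2 ∑ d^2 ≥ D^2` (Cauchy - Schwarz), so `4 r2 Gam p d ≥ D^2 - r2^2`.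
`32 r2 ≤ q` (`r2 ≤ sqrt p ≤ sqrt q`, `sqrt q ^ 2 ≤ q`, `1000 ≤ q`), and
`D^2 - r2^2 ≥ 4 r2 q` (`(9 q/22 - 1/2)^2 ≥ q^2/8 + q^2/1024`, `q ≥ 1000`), hence `Gam p d ≥ q`
(`r2 ≥ 1` as `D > 0`). -/
lemma exists_d {p q : ℕ} (hp : 1000 ≤ p) (hpq : p ≤ q) (a0 : ℕ) (a : ℕ → ℕ)
    (h0 : a0 ≤ (q - 1) / 2) (hT : T a0 + 2 ≤ q) (ho : 1 + T (oo p a) < p)
    (hr : r2 p a ≤ Nat.sqrt p) (hM : q < 2 * (a0 + ∑ i ∈ I p, a i) + 1) :
    ∃ d : ℕ → ℕ, (∀ i ∈ I p, d i ≤ a i) ∧ q ≤ 1 + T a0 + Gam p d ∧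
      a0 + ∑ i ∈ I p, d i ≤ (q - 1) / 2 := by
  classical
  have hq : 1000 ≤ q := hp.trans hpq
  have ha0 : 22 * a0 ≤ q := n3_small hq hT
  have hoo : 22 * oo p a ≤ q := n3_small hq (by omega)
  set J : Finset ℕ := (I p).filter (fun i => 2 ≤ a i) with hJ
  have hJc : J.card = r2 p a := rfl
  set D : ℕ := min (∑ i ∈ J, a i) ((q - 1) / 2 - a0) with hD
  obtain ⟨d', hd1, hd2⟩ := n3_exists_le J a D (min_le_left _ _)
  -- the sum over `J`
  have hsplit : ∑ i ∈ I p, a i = ∑ i ∈ J, a i + ∑ i ∈ (I p).filter (fun i => ¬ 2 ≤ a i), a i :=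
    (Finset.sum_filter_add_sum_filter_not (I p) (fun i => 2 ≤ a i) a).symm
  have hoff : ∑ i ∈ (I p).filter (fun i => ¬ 2 ≤ a i), a i ≤ oo p a := by
    unfold oo
    rw [Finset.card_filter, Finset.sum_filter]
    refine Finset.sum_le_sum fun i _ => ?_
    by_cases h : 2 ≤ a i
    · simp [h]
    · have : a i = 0 ∨ a i = 1 := by omega
      rcases this with h1 | h1 <;> simp [h1]
  have hD2 : q ≤ 2 * D + 2 + 2 * a0 + 2 * oo p a := by
    rcases le_total (∑ i ∈ J, a i) ((q - 1) / 2 - a0) with h | h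
    · rw [hD, min_eq_left h]
      omega
    · rw [hD, min_eq_right h]
      omega
  have hD3 : 9 * q ≤ 22 * D + 22 := by omega
  refine ⟨fun i => if i ∈ J then d' i else 0, ?_, ?_, ?_⟩
  · intro i _
    by_cases h : i ∈ J
    · simp only [h, if_true]
      exact hd1 i h
    · simp [h]
  · -- Gam
    have hG : Gam p (fun i => if i ∈ J then d' i else 0) = ∑ i ∈ J, d' i ^ 2 / 4 := by
      unfold Gam
      rw [hJ, Finset.sum_filter]
      refine Finset.sum_congr rfl fun i hi => ?_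
      by_cases h : 2 ≤ a i
      · have : i ∈ (I p).filter (fun i => 2 ≤ a i) := Finset.mem_filter.2 ⟨hi, h⟩
        simp [h, this]
      · have : i ∉ (I p).filter (fun i => 2 ≤ a i) := fun hc => h (Finset.mem_filter.1 hc).2
        simp [h, this]
    rw [hG]
    set G := ∑ i ∈ J, d' i ^ 2 / 4 with hGdef
    have h4 : ∑ i ∈ J, d' i ^ 2 ≤ 4 * G + J.card := by
      rw [hGdef, Finset.mul_sum, Finset.card_eq_sum_ones, ← Finset.sum_add_distrib]
      refine Finset.sum_le_sum fun i _ => ?_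
      have h5 : d' i ^ 2 % 4 ≤ 1 := by
        rcases Nat.even_or_odd (d' i) with ⟨c, hc⟩ | ⟨c, hc⟩
        · rw [hc]
          have : (c + c) ^ 2 = 4 * (c ^ 2) := by ring
          rw [this]
          simp
        · rw [hc]
          have : (2 * c + 1) ^ 2 = 4 * (c ^ 2 + c) + 1 := by ring
          rw [this]
          omega
      omega
    have hcs : D ^ 2 ≤ J.card * ∑ i ∈ J, d' i ^ 2 := by
      have := sq_sum_le_card_mul_sum_sq (s := J) (f := d')
      rwa [hd2] at this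
    by_contra hcon
    push Not at hcon
    have hGq : G ≤ q - 1 := by omega
    rw [hJc] at h4 hcs
    set r := r2 p a with hrdef
    have hrq : 32 * r ≤ q := by
      have h6 : r * r ≤ p := (Nat.mul_le_mul hr hr).trans (Nat.sqrt_le p)
      by_cases h7 : 32 ≤ r
      · have : 32 * r ≤ r * r := Nat.mul_le_mul_right r h7
        omega
      · omega
    have h8 : D ^ 2 ≤ r * (4 * q + r) := by
      refine hcs.trans (Nat.mul_le_mul_left r (h4.trans ?_))
      omega
    have h9 : 1024 * (r * r) ≤ q * q := by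
      have := Nat.mul_le_mul hrq hrq
      nlinarith
    have h10 : 32 * (r * q) ≤ q * q := by
      have := Nat.mul_le_mul_right q hrq
      nlinarith
    have h11 : (9 * q) * (9 * q) ≤ (22 * D + 22) * (22 * D + 22) := Nat.mul_le_mul hD3 hD3
    have hq2 : 1000 * q ≤ q * q := Nat.mul_le_mul_right q hq
    -- upper bound for D
    have hDq : D ≤ q := by
      have : D ≤ (q - 1) / 2 - a0 := min_le_right _ _
      omega
    nlinarith
  · have : ∑ i ∈ I p, (if i ∈ J then d' i else 0) = ∑ i ∈ J, d' i := by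
      rw [← Finset.sum_filter]
      congr 1
      ext i
      simp only [Finset.mem_filter, hJ]
      tauto
    rw [this, hd2]
    have : D ≤ (q - 1) / 2 - a0 := min_le_right _ _
    omega

end SPR
end

section

set_option autoImplicit false

open Finset

namespace SPR

/-- `q ≤ 1 + T a0`: `FQ` with `d = 0`, `∑ a = m - a0 ≥ m - (q-1)/2`, and `phi_q`. -/
lemma case_A {p q : ℕ} [Fact p.Prime] (hpq : p ≤ q) (a0 : ℕ) (a : ℕ → ℕ) (h0 : a0 ≤ (q - 1) / 2)
    (h : q ≤ 1 + T a0) :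
    min (phi q (a0 + ∑ i ∈ I p, a i)) (p * q) ≤ LL p q a0 a := by
  have hFQ := FQ (p := p) q a0 a (fun _ => 0) (fun _ _ => Nat.zero_le _) (by omega)
  have hq := phi_q p q (a0 + ∑ i ∈ I p, a i) hpq
  refine le_trans ?_ hFQ
  refine hq.trans (Nat.mul_le_mul_left q ?_)
  simp only [Nat.sub_zero]
  omega

/-- `M > q`, `T a0 + 2 ≤ q`, `1 + T o < p`, `r2 ≤ sqrt p`: `exists_d`, `FQ`, `phi_q`
(`∑ (a - d) = (m - a0) - ∑ d ≥ m - (q-1)/2`). -/
lemma case_FQ {p q : ℕ} [Fact p.Prime] (hp : 1000 ≤ p) (hpq : p ≤ q) (a0 : ℕ) (a : ℕ → ℕ)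
    (h0 : a0 ≤ (q - 1) / 2) (hT : T a0 + 2 ≤ q) (ho : 1 + T (oo p a) < p)
    (hr : r2 p a ≤ Nat.sqrt p) (hM : q < 2 * (a0 + ∑ i ∈ I p, a i) + 1) :
    min (phi q (a0 + ∑ i ∈ I p, a i)) (p * q) ≤ LL p q a0 a := by
  obtain ⟨d, hd1, hd2, hd3⟩ := exists_d hp hpq a0 a h0 hT ho hr hM
  have hFQ := FQ (p := p) q a0 a d hd1 hd2
  have hq := phi_q p q (a0 + ∑ i ∈ I p, a i) hpq
  refine le_trans ?_ hFQ
  refine hq.trans (Nat.mul_le_mul_left q ?_)
  have hs : ∑ i ∈ I p, (a i - d i) + ∑ i ∈ I p, d i = ∑ i ∈ I p, a i := by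
    rw [← Finset.sum_add_distrib]
    exact Finset.sum_congr rfl fun i hi => Nat.sub_add_cancel (hd1 i hi)
  omega

end SPR
end

section

set_option autoImplicit false

open Finset

namespace SPR

/-- Put `m = a0 + ∑ a`, `M = 2 m + 1 ≥ p`, `α = (M + p)/(2p) ≥ 1`, `y = M - 2 α p` (`|y| ≤ p`),
`x = 2 o + 1`, `S = SS p a0 a α`.  The four facts used below:
`8 p (1 + T a0 + Γ) = 8 p + M^2 - y^2 + p (S - x)`, `8 φ_p = M^2 - y^2 + 8 p`, `8 φ_1 = M^2 + 7`,
`2 |y| ≤ S + x`, in one statement (`N1`, `N2`). -/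
lemma facts {p : ℕ} (hodd : p % 2 = 1) (a0 : ℕ) (a : ℕ → ℕ)
    (hM : p ≤ 2 * (a0 + ∑ i ∈ I p, a i) + 1) :
    ∃ (M y S : ℤ) (al : ℕ), 1 ≤ al ∧ al = (2 * (a0 + ∑ i ∈ I p, a i) + 1 + p) / (2 * p) ∧
      M = 2 * ((a0 + ∑ i ∈ I p, a i : ℕ) : ℤ) + 1 ∧ y = M - 2 * al * p ∧
      S = SS p a0 a al ∧
      8 * (p : ℤ) * (1 + T a0 + Gam p a) = 8 * p + M ^ 2 - y ^ 2 + p * (S - (2 * oo p a + 1)) ∧
      8 * (phi p (a0 + ∑ i ∈ I p, a i) : ℤ) = M ^ 2 - y ^ 2 + 8 * p ∧
      8 * (phi 1 (a0 + ∑ i ∈ I p, a i) : ℤ) = M ^ 2 + 7 ∧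
      2 * |y| ≤ S + (2 * oo p a + 1) ∧ |y| ≤ p ∧ (2 * oo p a + 1 : ℤ) ≤ S ∧
      (8 : ℤ) ∣ S - (2 * oo p a + 1) ∧ (2 * oo p a + 1 : ℤ) + 8 * zz p a ≤ S ∧
      (2 * oo p a + 1 : ℤ) ≤ p := by
  have hp : 0 < p := by omega
  set m : ℕ := a0 + ∑ i ∈ I p, a i with hm
  have hmZ : ((m : ℕ) : ℤ) = (a0 : ℤ) + ∑ i ∈ I p, (a i : ℤ) := by
    rw [hm]; push_cast; rfl
  set al : ℕ := (2 * m + 1 + p) / (2 * p) with hal
  have hal1 : 1 ≤ al := by
    rw [hal, Nat.le_div_iff_mul_le (by omega)]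
    omega
  have hlo : al * (2 * p) ≤ 2 * m + 1 + p := Nat.div_mul_le_self _ _
  have hhi : 2 * m + 1 + p < (al + 1) * (2 * p) := by
    exact (Nat.div_lt_iff_lt_mul (by omega)).1 (Nat.lt_succ_self _)
  have hloZ : (al : ℤ) * (2 * p) ≤ 2 * m + 1 + p := by exact_mod_cast hlo
  have hhiZ : (2 * m + 1 + p : ℤ) < (al + 1) * (2 * p) := by exact_mod_cast hhi
  have hoo : 2 * oo p a + 1 ≤ p := by
    have h1 : oo p a ≤ (I p).card := card_filter_le _ _
    have h2 : (I p).card = (p - 1) / 2 := by simp [I]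
    omega
  refine ⟨2 * (m : ℤ) + 1, 2 * (m : ℤ) + 1 - 2 * al * p, SS p a0 a al, al, hal1, rfl, rfl, rfl, rfl,
    ?_, ?_, ?_, ?_, ?_, ?_, ?_, ?_, ?_⟩
  · have h := SS_identity p hodd a0 a al
    rw [← hmZ] at h
    exact h
  · exact phi_eq p m hodd hM
  · have h := eight_T m
    rw [phi_one]
    push_cast
    exact h
  · have h := SS_y p hodd a0 a al
    rw [← hmZ] at h
    exact h
  · rw [abs_le]
    constructor <;> nlinarith
  · have h := SS_ge p a0 a al
    exact h
  · exact SS_mod p a0 a al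
  · exact SS_z p a0 a al (by exact_mod_cast hal1)
  · exact_mod_cast hoo

end SPR
end

section

set_option autoImplicit false

open Finset

namespace SPR

/-- (P0) `R_0 = ℤ/p`, `M > p`, `a0 + 1 > α` (the new `a0` is `a0 + 1 ≥ α + 1`): remove one element of `K`.
`Linf (a0+1) a = Linf a0 a + (a0 + 1) p`, `φ_1(m+1) = φ_1(m) + (m + 1)`, `m + 1 ≤ (α + 1) p ≤ (a0+1) p`
(from `α = (2 (m+1) + 1 + p)/(2p)`: `2 m + 3 + p < 2 p (α + 1)`), `φ_p(m+1) ≤ φ_p(m) + α p` (`phi_step`). -/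
lemma U_P0 {p : ℕ} [Fact p.Prime] (hodd : p % 2 = 1) (a0 : ℕ) (a : ℕ → ℕ)
    (hR : (R p a 0).card = p) (hM : p < 2 * (a0 + 1 + ∑ i ∈ I p, a i) + 1)
    (hal : (2 * (a0 + 1 + ∑ i ∈ I p, a i) + 1 + p) / (2 * p) + 1 ≤ a0 + 1)
    (IH : min (phi 1 (a0 + ∑ i ∈ I p, a i)) (phi p (a0 + ∑ i ∈ I p, a i)) ≤ Linf p a0 a) :
    min (phi 1 (a0 + 1 + ∑ i ∈ I p, a i)) (phi p (a0 + 1 + ∑ i ∈ I p, a i)) ≤ Linf p (a0 + 1) a := by
  have hp : 0 < p := (Fact.out : p.Prime).pos
  set s := ∑ i ∈ I p, a i with hs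
  have e : a0 + 1 + s = (a0 + s) + 1 := by ring
  rw [e] at hM hal ⊢
  set m := a0 + s with hm
  set al := (2 * (m + 1) + 1 + p) / (2 * p) with hal'
  have hα : 2 * (m + 1) + 1 + p < 2 * p * (al + 1) := by
    have := Nat.lt_mul_div_succ (2 * (m + 1) + 1 + p) (show 0 < 2 * p by omega)
    exact this
  have hL : Linf p (a0 + 1) a = Linf p a0 a + (a0 + 1) * p := by
    unfold Linf
    rw [hR, T_succ]; ring
  have h1 : phi 1 (m + 1) = phi 1 m + (m + 1) := phi_one_step m
  have h2 : phi p (m + 1) ≤ phi p m + al * p := by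
    have := phi_step p m hodd (by omega)
    rwa [show 2 * m + 3 + p = 2 * (m + 1) + 1 + p by ring, ← hal'] at this
  have h3 : p * (al + 1) ≤ p * (a0 + 1) := Nat.mul_le_mul_left p hal
  have h4 : al * p ≤ (a0 + 1) * p := Nat.mul_le_mul_right p (by omega)
  have h5 : 2 * p * (al + 1) = 2 * (p * (al + 1)) := by ring
  have h6 : p * (a0 + 1) = (a0 + 1) * p := by ring
  rw [hL]
  rcases min_le_iff.1 IH with h | h
  · exact (min_le_left _ _).trans (by omega)
  · exact (min_le_right _ _).trans (by omega)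

/-- (P1), first case: `R a' 0 = ℤ/p`, `a' = update a i (a i - 2)`, `a i ≥ 2 α + 2`.
`Linf a0 a ≥ Linf a0 a' + (a i - 1) p` (`peel`; also `|R a 0| = p`), and with `m = m' + 2`,
`φ_1(m) = φ_1(m') + 2 m - 1`, `2 m - 1 = M - 2 < (2 α + 1) p`, `φ_p(m) ≤ φ_p(m') + 2 α p` (`phi_step2`). -/
lemma U_P1a {p : ℕ} [Fact p.Prime] (hodd : p % 2 = 1) (a0 : ℕ) (a : ℕ → ℕ) (i : ℕ) (hi : i ∈ I p)
    (hM : p < 2 * (a0 + ∑ i ∈ I p, a i) + 1)
    (hai : 2 * ((2 * (a0 + ∑ i ∈ I p, a i) + 1 + p) / (2 * p)) + 2 ≤ a i)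
    (hR : (R p (Function.update a i (a i - 2)) 0).card = p)
    (IH : min (phi 1 (a0 + ∑ l ∈ I p, (Function.update a i (a i - 2)) l))
        (phi p (a0 + ∑ l ∈ I p, (Function.update a i (a i - 2)) l))
          ≤ Linf p a0 (Function.update a i (a i - 2))) :
    min (phi 1 (a0 + ∑ i ∈ I p, a i)) (phi p (a0 + ∑ i ∈ I p, a i)) ≤ Linf p a0 a := by
  have hp : 0 < p := (Fact.out : p.Prime).pos
  have hsum := sum_update p a i hi (by omega)
  have hpeel := peel (p := p) a i hi (by omega)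
  have hle := R_update_le (p := p) a i
  set a' := Function.update a i (a i - 2) with ha'
  set s' := ∑ l ∈ I p, a' l with hs'
  rw [hsum] at hM hai ⊢
  have e : a0 + (s' + 2) = (a0 + s') + 2 := by ring
  rw [e] at hM hai ⊢
  set m := a0 + s' with hm
  set al := (2 * (m + 2) + 1 + p) / (2 * p) with hal'
  have hα : 2 * (m + 2) + 1 + p < 2 * p * (al + 1) := by
    have := Nat.lt_mul_div_succ (2 * (m + 2) + 1 + p) (show 0 < 2 * p by omega)
    exact this
  rw [hR] at hpeel hle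
  have hL : Linf p a0 a' + (a i - 1) * p ≤ Linf p a0 a := by
    unfold Linf
    rw [hR]
    have := Nat.mul_le_mul_left (1 + T a0) hle
    omega
  have h1 : phi 1 (m + 2) = phi 1 m + (2 * m + 3) := by
    rw [show m + 2 = (m + 1) + 1 by ring, phi_one_step, phi_one_step]; ring
  have h2 : phi p (m + 2) ≤ phi p m + 2 * al * p := by
    have := phi_step2 p m hodd (by omega)
    rwa [show 2 * m + 5 + p = 2 * (m + 2) + 1 + p by ring, ← hal'] at this
  have h3 : (2 * al + 1) * p ≤ (a i - 1) * p := Nat.mul_le_mul_right p (by omega)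
  have h5 : 2 * p * (al + 1) = (2 * al + 1) * p + p := by ring
  have h6 : (2 * al + 1) * p = 2 * al * p + p := by ring
  rcases min_le_iff.1 IH with h | h
  · exact (min_le_left _ _).trans (by omega)
  · exact (min_le_right _ _).trans (by omega)

end SPR
end

section

set_option autoImplicit false

open Finset

namespace SPR

/-- (P1), second case: `|R f 0| < p`, `f = update a i (a i - 2)`, `i` maximal, `c = a i ≥ 2 α + 2`,
`a0 ≤ α`, `M > p`.  Let `σ = ∑ f`; `seq_bound'` gives `σ + 1 < p`; so `M = 2 a0 + 2 σ + 5 ≤ 2 α + 2 p + 1`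
while `M ≥ (2 α - 1) p`; hence `α = 1`, `a0 ≤ 1`; `c ≥ 4`; `σ ≥ (p - 5)/2`.
By `seq_bound`, `1 + U f ≤ |R f 0| ≤ |R a 0|`; by `peel`, `EE a ≥ EE f + (c - 1) (1 + U f)`; by `U0` for
`f`: `1 + T (m - 2) ≤ EE f + (1 + T a0)(1 + U f)`.  So
`Linf a0 a ≥ 1 + T (m-2) + (c-1)(1 + U f)` and it is enough that `(c - 1)(1 + U f) ≥ 2 m - 1`.  By
`U_cs` (`f ≤ c`) `2 c U f ≥ σ^2 + c σ`, and `(c-1)/c ≥ 3/4`:
`8 (c-1)(1 + U f) ≥ 3 σ^2 + 12 σ + 24 ≥ 16 σ + 40 ≥ 8 (2 m - 1)` (`2 m - 1 = 2 a0 + 2 σ + 3 ≤ 2 σ + 5`,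
`σ ≥ 4`). -/
lemma U_P1b {p : ℕ} [Fact p.Prime] (hp : 1000 ≤ p) (a0 : ℕ) (a : ℕ → ℕ) (i : ℕ) (hi : i ∈ I p)
    (hmax : ∀ l ∈ I p, a l ≤ a i) (hM : p < 2 * (a0 + ∑ i ∈ I p, a i) + 1)
    (h0 : a0 ≤ (2 * (a0 + ∑ i ∈ I p, a i) + 1 + p) / (2 * p))
    (hai : 2 * ((2 * (a0 + ∑ i ∈ I p, a i) + 1 + p) / (2 * p)) + 2 ≤ a i)
    (hR : (R p (Function.update a i (a i - 2)) 0).card < p) :
    phi 1 (a0 + ∑ i ∈ I p, a i) ≤ Linf p a0 a := by
  have hcpos : 2 ≤ a i := by omega
  have hsum := sum_update p a i hi hcpos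
  obtain ⟨f, hf⟩ : ∃ f : ℕ → ℕ, f = Function.update a i (a i - 2) := ⟨_, rfl⟩
  have hpeel := peel a i hi hcpos
  have hupd := R_update_le (p := p) a i
  rw [← hf] at hR hsum hpeel hupd
  have hfle : ∀ l ∈ I p, f l ≤ a i := by
    intro l hl
    by_cases hli : l = i
    · subst hli; rw [hf, Function.update_self]; omega
    · rw [hf, Function.update_of_ne hli]; exact hmax l hl
  have hcs := U_cs p f (a i) hfle
  have hU0 := U0 a0 f hR
  have hs1 := seq_bound p f
  have hs2 := seq_bound' p f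
  obtain ⟨σ, hσ⟩ : ∃ σ, σ = ∑ l ∈ I p, f l := ⟨_, rfl⟩
  rw [← hσ] at hsum hcs hU0 hs2
  rw [hsum] at hM h0 hai ⊢
  obtain ⟨al, hal⟩ : ∃ al, al = (2 * (a0 + (σ + 2)) + 1 + p) / (2 * p) := ⟨_, rfl⟩
  rw [← hal] at h0 hai
  have hσp : 1 + σ < p := by
    rcases le_total p (1 + σ) with h | h
    · rw [min_eq_left h] at hs2; omega
    · rw [min_eq_right h] at hs2; omega
  have hUf : 1 + U p f ≤ (R p f 0).card := by
    rcases le_total p (1 + U p f) with h | h
    · rw [min_eq_left h] at hs1; omega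
    · rwa [min_eq_right h] at hs1
  have hal1 : al * (2 * p) ≤ 2 * (a0 + (σ + 2)) + 1 + p := by
    rw [hal]; exact Nat.div_mul_le_self _ _
  have hal2 : al ≤ 1 := by
    by_contra hcon
    push Not at hcon
    obtain ⟨b, rfl⟩ : ∃ b, al = b + 2 := ⟨al - 2, by omega⟩
    have h1 : (b + 2) * (2 * p) = 2 * (b * p) + 4 * p := by ring
    have h2 : b * 1 ≤ b * p := Nat.mul_le_mul_left b (by omega)
    rw [h1] at hal1
    omega
  have hal3 : 1 ≤ al := by
    rw [hal]
    exact Nat.div_pos (by omega) (by omega)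
  have hal4 : al = 1 := le_antisymm hal2 hal3
  subst hal4
  have hσ4 : 400 ≤ σ := by omega
  obtain ⟨d, hd⟩ : ∃ d, a i = d + 1 := ⟨a i - 1, by omega⟩
  have hd3 : 3 ≤ d := by omega
  have hd1 : a i - 1 = d := by omega
  rw [hd1] at hpeel
  rw [hd] at hcs
  have hX : 2 * σ + 5 ≤ d * (1 + U p f) := by
    by_contra hcon
    push Not at hcon
    have h1 : 2 * (d + 1) * (d * (1 + U p f)) ≤ 2 * (d + 1) * (2 * σ + 4) :=
      Nat.mul_le_mul_left _ (by omega)
    have h2 := Nat.mul_le_mul_left d hcs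
    nlinarith [Nat.mul_le_mul_right (σ * σ) hd3, Nat.mul_le_mul_right (d * σ) hd3,
      Nat.mul_le_mul_right σ hσ4, Nat.mul_le_mul_right d hσ4, Nat.mul_le_mul_left (d * σ) hσ4]
  rw [phi_one]
  have hT : T (a0 + (σ + 2)) = T (a0 + σ) + (a0 + σ + 1) + (a0 + σ + 2) := by
    have e : a0 + (σ + 2) = a0 + σ + 1 + 1 := by ring
    rw [e, T_succ, T_succ]
  rw [hT]
  have h5 : d * (1 + U p f) ≤ d * (R p f 0).card := Nat.mul_le_mul_left d hUf
  have h6 : (1 + T a0) * (1 + U p f) ≤ (1 + T a0) * (R p a 0).card :=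
    Nat.mul_le_mul_left _ (hUf.trans hupd)
  unfold Linf
  omega

end SPR
end

section

set_option autoImplicit false

open Finset

namespace SPR

/-- No empty class.  `R_{Γ-1} = ℤ/p` (`K1u`), so `Linf ≥ p (W - 1) + ρ` (`Linf_univ1`),
`8 Linf ≥ M^2 - y^2 + p (S - x) + 8 ρ`, `ρ ≥ min p (1 + T o)` (`K0`).
If `ρ ≥ p` this is `≥ 8 φ_p`.  If `ρ ≥ 1 + T o` then `8 ρ ≥ x^2 + 7`: for `|y| ≤ x` it is `≥ M^2 + 7`;
for `|y| > x`, `S - x ≥ 2 (|y| - x)` and `y^2 - x^2 = (|y| - x)(|y| + x) ≤ 2 p (|y| - x)`. -/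
theorem U_z0 {p : ℕ} [Fact p.Prime] (hp : 7 ≤ p) (a0 : ℕ) (a : ℕ → ℕ)
    (hM : p ≤ 2 * (a0 + ∑ i ∈ I p, a i) + 1) (hz : zz p a = 0) :
    min (phi 1 (a0 + ∑ i ∈ I p, a i)) (phi p (a0 + ∑ i ∈ I p, a i)) ≤ Linf p a0 a := by
  have hodd : p % 2 = 1 := by
    rcases (Fact.out : p.Prime).eq_two_or_odd with h | h
    · omega
    · exact h
  obtain ⟨M, y, S, al, -, -, -, -, -, h8W, h8p, h81, h2y, hyp, hxS, -, -, hxp⟩ :=
    facts hodd a0 a hM
  have hL := Linf_univ1 (p := p) a0 a (K1u hp a hz)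
  have hK := K0 (p := p) a
  have hT := eight_T (oo p a)
  generalize phi 1 (a0 + ∑ i ∈ I p, a i) = φ1 at h81 ⊢
  generalize phi p (a0 + ∑ i ∈ I p, a i) = φp at h8p ⊢
  generalize (R p a (Gam p a)).card = ρ at hL hK
  generalize Linf p a0 a = L at hL ⊢
  generalize T a0 = t0 at hL h8W
  generalize Gam p a = G at hL h8W
  generalize T (oo p a) = tt at hK hT
  generalize oo p a = o at h8W h2y hxS hxp hT
  have hL' : (p : ℤ) * (t0 + G) + ρ ≤ L := by exact_mod_cast hL
  have hp0 : (0 : ℤ) ≤ p := Int.natCast_nonneg p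
  have hyy : y ^ 2 = |y| ^ 2 := (sq_abs y).symm
  have hS0 : 0 ≤ (p : ℤ) * (S - (2 * o + 1)) := mul_nonneg hp0 (by linarith)
  rcases min_le_iff.1 hK with h | h
  · refine (min_le_right _ _).trans ?_
    have h' : (p : ℤ) ≤ ρ := by exact_mod_cast h
    have hfin : 8 * (φp : ℤ) ≤ 8 * L := by
      rw [h8p]
      linarith
    have : (φp : ℤ) ≤ L := by linarith
    exact_mod_cast this
  · refine (min_le_left _ _).trans ?_
    have h' : (1 : ℤ) + tt ≤ ρ := by exact_mod_cast h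
    have hkey : y ^ 2 ≤ (p : ℤ) * (S - (2 * o + 1)) + (2 * o + 1) ^ 2 := by
      rw [hyy]
      have ho0 : (0 : ℤ) ≤ o := Int.natCast_nonneg o
      have hy0 : (0 : ℤ) ≤ |y| := abs_nonneg y
      rcases le_total |y| (2 * (o : ℤ) + 1) with hc | hc
      · have : |y| ^ 2 ≤ (2 * (o : ℤ) + 1) ^ 2 := pow_le_pow_left₀ hy0 hc 2
        linarith
      · have h1 : 2 * (|y| - (2 * (o : ℤ) + 1)) ≤ S - (2 * o + 1) := by linarith
        have h2 : (p : ℤ) * (2 * (|y| - (2 * (o : ℤ) + 1))) ≤ p * (S - (2 * o + 1)) :=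
          mul_le_mul_of_nonneg_left h1 hp0
        have h3 : (|y| - (2 * (o : ℤ) + 1)) * (|y| + (2 * (o : ℤ) + 1)) ≤
            (|y| - (2 * (o : ℤ) + 1)) * (2 * p) :=
          mul_le_mul_of_nonneg_left (by linarith) (by linarith)
        nlinarith
    have hfin : 8 * (φ1 : ℤ) ≤ 8 * L := by
      rw [h81]
      linarith
    have : (φ1 : ℤ) ≤ L := by linarith
    exact_mod_cast this

/-- `ρ = p`: `Linf ≥ p W ≥ φ_p` (`Linf_univ` with `c = 0`, `S ≥ x`). -/
theorem U_rho {p : ℕ} [Fact p.Prime] (hp : 3 ≤ p) (a0 : ℕ) (a : ℕ → ℕ)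
    (hM : p ≤ 2 * (a0 + ∑ i ∈ I p, a i) + 1) (hr : (R p a (Gam p a)).card = p) :
    phi p (a0 + ∑ i ∈ I p, a i) ≤ Linf p a0 a := by
  have hodd : p % 2 = 1 := by
    rcases (Fact.out : p.Prime).eq_two_or_odd with h | h
    · omega
    · exact h
  obtain ⟨M, y, S, al, -, -, -, -, -, h8W, h8p, h81, h2y, hyp, hxS, -, -, hxp⟩ :=
    facts hodd a0 a hM
  have hu : R p a (Gam p a - 0) = univ := by
    rw [Nat.sub_zero]
    apply Finset.eq_univ_of_card
    rw [hr, ZMod.card]
  have hL := Linf_univ (p := p) a0 a 0 hu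
  have hp0 : (0 : ℤ) ≤ p := Int.natCast_nonneg p
  have hS0 : 0 ≤ (p : ℤ) * (S - (2 * oo p a + 1)) := mul_nonneg hp0 (by linarith)
  have h1 : (p : ℤ) * (1 + T a0 + Gam p a - ((0 : ℕ) : ℤ)) = p * (1 + T a0 + Gam p a) := by
    push_cast
    ring
  rw [h1] at hL
  have : (phi p (a0 + ∑ i ∈ I p, a i) : ℤ) ≤ Linf p a0 a := by linarith
  exact_mod_cast this

end SPR
end

section

set_option autoImplicit false

open Finset

namespace SPR

/-- Empty classes exist, many classes with at least two elements (`k0 = sqrt p + 1 ≤ r2`).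

If `z ≥ 2 k0`: `R_{Γ-2k0} = ℤ/p` (`K2k`, `sqrt_bound`), `Linf ≥ p (W - 2 k0)` and
`p (S - x) ≥ 8 p z ≥ 16 p k0`, so `Linf ≥ φ_p`.
If `z < 2 k0`: `ρ = p` is `U_rho`; otherwise `1 + T o < p` (`K0`), `ee_big`, `R_{Γ-2} = ℤ/p` (`K2u`).  If
`S - x ≥ 16`: `Linf ≥ p (W - 2)` and `8 Linf ≥ 8 φ_p`.  If `S - x < 16`, then `S - x = 8` (`8 ∣ S - x`,
`z ≥ 1`), `|y| ≤ x + 4`, `Linf ≥ p (W - 2) + ρ + |R_{Γ-1}|` (`Linf_univ2`), `|R_{Γ-1}| ≥ min p (ρ + 2 e)`
(`K1c`): `8 Linf ≥ M^2 - y^2 + 8 ρ + 8 min p (ρ + 2 e)`; if the minimum is `p` this is `≥ 8 φ_p`,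
else `≥ M^2 - (x+4)^2 + 16 ρ + 16 e ≥ M^2 - (x + 4)^2 + 2 (x^2 + 7) + 16 e ≥ M^2 + 7` (`e ≥ 2`,
`x^2 - 8 x ≥ - 16`). -/
theorem U_z1 {p : ℕ} [Fact p.Prime] (hp : 1000 ≤ p) (a0 : ℕ) (a : ℕ → ℕ)
    (hM : p ≤ 2 * (a0 + ∑ i ∈ I p, a i) + 1) (hz : 1 ≤ zz p a) (hr : Nat.sqrt p + 1 ≤ r2 p a) :
    min (phi 1 (a0 + ∑ i ∈ I p, a i)) (phi p (a0 + ∑ i ∈ I p, a i)) ≤ Linf p a0 a := by
  have hpp : p.Prime := Fact.out
  have hodd : p % 2 = 1 := by
    rcases hpp.eq_two_or_odd with h | h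
    · omega
    · exact h
  obtain ⟨M, y, S, al, hal, -, -, -, -, F1, F2, F3, F4, -, F6, F7, F8, -⟩ := facts hodd a0 a hM
  set x : ℤ := 2 * (oo p a : ℤ) + 1 with hx
  set φp : ℕ := phi p (a0 + ∑ i ∈ I p, a i) with hφp
  set φ1 : ℕ := phi 1 (a0 + ∑ i ∈ I p, a i) with hφ1
  have hp0 : (0 : ℤ) ≤ p := Int.natCast_nonneg p
  have hz' : (1 : ℤ) ≤ zz p a := by exact_mod_cast hz
  rcases Nat.lt_or_ge (zz p a) (2 * (Nat.sqrt p + 1)) with hzk | hzk
  · -- few empty classes
    have hρle : (R p a (Gam p a)).card ≤ p := by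
      have h3 : (R p a (Gam p a)).card ≤ Fintype.card (ZMod p) := Finset.card_le_univ _
      rwa [ZMod.card] at h3
    rcases Nat.lt_or_ge (R p a (Gam p a)).card p with hρ | hρ
    · have hK0 := K0 (p := p) a
      have ho : 1 + T (oo p a) < p := by
        by_contra hcon
        rw [min_eq_left (not_lt.mp hcon)] at hK0
        omega
      rw [min_eq_right ho.le] at hK0
      obtain ⟨he1, -, he3⟩ := ee_big hp a ho hzk
      have hR2 := K2u (p := p) (by omega) a hρ he1
      rcases lt_or_ge (S - x) 16 with h16 | h16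
      · have hSx : S - x = 8 := by omega
        have hyx : |y| ≤ x + 4 := by linarith
        have hL := Linf_univ2 (p := p) a0 a hR2
        have hK1 := K1c (p := p) a
        have hy2 : y ^ 2 ≤ (x + 4) ^ 2 := by
          rw [← sq_abs y]
          exact pow_le_pow_left₀ (abs_nonneg y) hyx 2
        have h8T := eight_T (oo p a)
        rw [← hx] at h8T
        rw [hSx] at F1
        rcases Nat.lt_or_ge ((R p a (Gam p a)).card + 2 * ee p a) p with hm | hm
        · rw [min_eq_right hm.le] at hK1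
          refine (min_le_left _ _).trans ?_
          zify at hK1 hK0 he3 ⊢
          nlinarith [sq_nonneg (x - 4)]
        · rw [min_eq_left hm] at hK1
          refine (min_le_right _ _).trans ?_
          zify at hK1 ⊢
          nlinarith
      · have hL := Linf_univ (p := p) a0 a 2 hR2
        refine (min_le_right _ _).trans ?_
        have h1 : (p : ℤ) * 16 ≤ p * (S - x) := mul_le_mul_of_nonneg_left h16 hp0
        zify
        push_cast at hL
        nlinarith
    · refine (min_le_right _ _).trans ?_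
      exact U_rho (by omega) a0 a hM (le_antisymm hρle hρ)
  · have hR := K2k (p := p) a (Nat.sqrt p + 1) hr (sqrt_bound p)
    have hL := Linf_univ (p := p) a0 a (2 * (Nat.sqrt p + 1)) hR
    refine (min_le_right _ _).trans ?_
    have hzk' : (2 * ((Nat.sqrt p : ℤ) + 1)) ≤ zz p a := by exact_mod_cast hzk
    have h1 : (p : ℤ) * (8 * (2 * ((Nat.sqrt p : ℤ) + 1))) ≤ p * (S - x) :=
      mul_le_mul_of_nonneg_left (by linarith) hp0
    zify
    push_cast at hL
    nlinarith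

end SPR
end

section

set_option autoImplicit false

open Finset

namespace SPR

/-- `W = 1 + T a0 + Γ > q`, `M > q`, `z ≥ 1`, `1 + T o < p`, `r2 ≥ k0 = sqrt p + 1`.

If `z ≥ 2 k0`: `R_{Γ-2k0} = ℤ/p` (`K2k`, `sqrt_bound`), `LL ≥ min (p q) (p (W - 2 k0))` (`LL_univ`) and
`8 p (W - 2 k0) = 8 φ_p + p (S - x) - 16 p k0 ≥ 8 φ_p` (`S - x ≥ 8 z`).
If `z < 2 k0`: `ee_big`, `R_{Γ-2} = ℤ/p` (`K2u`).  If `W ≥ q + 2`: `LL = p q` (`LL_full`, `c = 2`).
`W = q + 1`: `LL ≥ p (q-1) + |R_{Γ-1}|` (`LL_W`), `|R_{Γ-1}| ≥ min p (ρ + 2 e)` (`K1c`); if the minimum is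
`p`, `LL ≥ p q`; otherwise `8 LL ≥ 8 p (W - 2) + 8 (ρ + 2 e) = M^2 - y^2 + 8 p + p (S - x) - 16 p + 8 ρ + 16 e`;
if `S - x ≥ 16` it is `≥ 8 φ_p`; if `S - x = 8`, `|y| ≤ x + 4`, `8 ρ ≥ x^2 + 7` and it is
`≥ M^2 - 8 x - 9 + 16 e ≥ M^2 + 7` since `e ≥ o + 2`. -/
lemma case_D {p q : ℕ} [Fact p.Prime] (hp : 1000 ≤ p) (hpq : p ≤ q) (a0 : ℕ) (a : ℕ → ℕ)
    (hW : q + 1 ≤ 1 + T a0 + Gam p a) (ho : (R p a (Gam p a)).card < p)
    (hr : Nat.sqrt p + 1 ≤ r2 p a) (hM : q < 2 * (a0 + ∑ i ∈ I p, a i) + 1) (hz : 1 ≤ zz p a) :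
    min (min (phi 1 (a0 + ∑ i ∈ I p, a i)) (phi p (a0 + ∑ i ∈ I p, a i))) (p * q) ≤ LL p q a0 a := by
  have hpp : p.Prime := Fact.out
  have hp2 : p ≠ 2 := by omega
  have hodd : p % 2 = 1 := by
    rcases hpp.eq_two_or_odd with h | h
    · omega
    · exact h
  have hM' : p ≤ 2 * (a0 + ∑ i ∈ I p, a i) + 1 := by omega
  have hK0 := K0 (p := p) a
  have hrho : 1 + T (oo p a) ≤ (R p a (Gam p a)).card := by
    rcases min_le_iff.mp hK0 with h | h
    · omega
    · exact h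
  have ho' : 1 + T (oo p a) < p := by omega
  obtain ⟨M, y, S, al, _, _, _, _, _, h8W, h8p, h81, hy, _, hxS, hdvd, hzS, _⟩ :=
    facts hodd a0 a hM'
  have h8T := eight_T (oo p a)
  have hrhoZ : (1 : ℤ) + (T (oo p a) : ℤ) ≤ ((R p a (Gam p a)).card : ℤ) := by
    exact_mod_cast hrho
  have hpZ : (1000 : ℤ) ≤ (p : ℤ) := by exact_mod_cast hp
  rw [min_le_iff, min_le_iff]
  rcases Nat.lt_or_ge (zz p a) (2 * (Nat.sqrt p + 1)) with hzc | hzc
  · obtain ⟨he1, he2, _⟩ := ee_big hp a ho' hzc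
    have hR2 := K2u hp2 a ho he1
    rcases Nat.lt_or_ge (1 + T a0 + Gam p a) (q + 2) with hWq | hWq
    · -- W = q + 1
      have hWe : T a0 + Gam p a = q := by omega
      have hLW := LL_W q a0 a hR2 hWe (by omega)
      have hK1 := K1c (p := p) a
      rcases min_le_iff.mp hK1 with h | h
      · right
        have e : p * q = p * (q - 1) + p := by
          obtain ⟨r, hr'⟩ : ∃ r, q = r + 1 := ⟨q - 1, by omega⟩
          rw [hr', Nat.add_sub_cancel]
          ring
        rw [e]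
        omega
      · left
        have hLZ : (p : ℤ) * ((q : ℤ) - 1) + ((R p a (Gam p a)).card + 2 * (ee p a : ℤ)) ≤
            (LL p q a0 a : ℤ) := by
          have h1 : p * (q - 1) + ((R p a (Gam p a)).card + 2 * ee p a) ≤ LL p q a0 a := by omega
          have h2 : ((q - 1 : ℕ) : ℤ) = (q : ℤ) - 1 := by
            rw [Nat.cast_sub (by omega)]
            simp
          have h3 : ((p * (q - 1) + ((R p a (Gam p a)).card + 2 * ee p a) : ℕ) : ℤ) ≤
              (LL p q a0 a : ℤ) := by exact_mod_cast h1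
          push_cast [h2] at h3
          linarith
        have hWZ : (T a0 : ℤ) + (Gam p a : ℤ) = (q : ℤ) := by exact_mod_cast hWe
        have he2Z : (oo p a : ℤ) + 2 ≤ (ee p a : ℤ) := by exact_mod_cast he2
        have h8W' : 8 * (p : ℤ) * (1 + q) = 8 * p + M ^ 2 - y ^ 2 +
            p * (S - (2 * oo p a + 1)) := by
          rw [← h8W, ← hWZ]
          ring
        have hzZ : (1 : ℤ) ≤ (zz p a : ℤ) := by exact_mod_cast hz
        obtain ⟨c, hc⟩ := hdvd
        rcases le_or_gt 2 c with hc2 | hc2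
        · right
          have h16 : (p : ℤ) * 16 ≤ p * (S - (2 * oo p a + 1)) :=
            mul_le_mul_of_nonneg_left (by omega) (by omega)
          have hT0 : (0 : ℤ) ≤ (T (oo p a) : ℤ) := Int.natCast_nonneg _
          have he0 : (0 : ℤ) ≤ (oo p a : ℤ) := Int.natCast_nonneg _
          have : 8 * (phi p (a0 + ∑ i ∈ I p, a i) : ℤ) ≤ 8 * (LL p q a0 a : ℤ) := by
            rw [h8p]
            nlinarith
          have h' : (phi p (a0 + ∑ i ∈ I p, a i) : ℤ) ≤ (LL p q a0 a : ℤ) := by linarith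
          exact_mod_cast h'
        · left
          have hc1 : c = 1 := by omega
          have hS8 : S - (2 * (oo p a : ℤ) + 1) = 8 := by rw [hc, hc1]; ring
          have hy4 : |y| ≤ (2 * (oo p a : ℤ) + 1) + 4 := by linarith
          have hysq : y ^ 2 ≤ ((2 * (oo p a : ℤ) + 1) + 4) ^ 2 := by
            rw [← sq_abs y]
            exact pow_le_pow_left₀ (abs_nonneg y) hy4 2
          rw [hS8] at h8W'
          have : 8 * (phi 1 (a0 + ∑ i ∈ I p, a i) : ℤ) ≤ 8 * (LL p q a0 a : ℤ) := by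
            rw [h81]
            nlinarith
          have h' : (phi 1 (a0 + ∑ i ∈ I p, a i) : ℤ) ≤ (LL p q a0 a : ℤ) := by linarith
          exact_mod_cast h'
    · right
      exact (LL_full q a0 a 2 hR2 hWq).ge
  · have hRk := K2k a (Nat.sqrt p + 1) hr (sqrt_bound p)
    have hL := LL_univ q a0 a (2 * (Nat.sqrt p + 1)) hRk
    rcases min_le_iff.mp hL with h | h
    · right
      exact_mod_cast h
    · left
      right
      have hzcZ : 2 * ((Nat.sqrt p : ℤ) + 1) ≤ (zz p a : ℤ) := by exact_mod_cast hzc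
      have h16 : (p : ℤ) * (8 * (2 * ((Nat.sqrt p : ℤ) + 1))) ≤ p * (S - (2 * oo p a + 1)) :=
        mul_le_mul_of_nonneg_left (by linarith) (by linarith)
      push_cast at h
      have : 8 * (phi p (a0 + ∑ i ∈ I p, a i) : ℤ) ≤ 8 * (LL p q a0 a : ℤ) := by
        rw [h8p]
        nlinarith
      have h' : (phi p (a0 + ∑ i ∈ I p, a i) : ℤ) ≤ (LL p q a0 a : ℤ) := by linarith
      exact_mod_cast h'

end SPR
end

section

set_option autoImplicit false

open Finset

namespace SPR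

/-- **Theorem U.**  Strong induction on `m = a0 + ∑ a`.
`|R a 0| < p`: `U0` and `seq_bound` (`1 + U a ≤ |R a 0|`) give `φ_1`.  `|R a 0| = p` and
`M ≤ p`: `φ_p = p ≤ Linf` (`phi_small`).  `M > p`: `α = (M + p)/(2p)`.  If `a0 ≥ α + 1`: `U_P0`.  Let `i` be a
class with `a i` maximal; if `a i ≥ 2 α + 2`: `U_P1a` or `U_P1b`.  Otherwise all `a i ≤ 2 α + 1`,
`a0 ≤ α`: `z = 0`: `U_z0`; `ρ = p`: `U_rho`; else `1 + T o < p` (`K0`) and `r2_big` gives
`sqrt p + 1 ≤ r2`: `U_z1`. -/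
theorem thmU {p : ℕ} [Fact p.Prime] (hp : 1000 ≤ p) (m : ℕ) : ∀ (a0 : ℕ) (a : ℕ → ℕ),
    a0 + ∑ i ∈ I p, a i = m → min (phi 1 m) (phi p m) ≤ Linf p a0 a := by
  have hodd : p % 2 = 1 := by
    rcases (Fact.out : p.Prime).eq_two_or_odd with h | h
    · omega
    · exact h
  have hcardle : ∀ (a : ℕ → ℕ) (v : ℕ), (R p a v).card ≤ p := by
    intro a v
    have h := Finset.card_le_univ (R p a v)
    rwa [ZMod.card] at h
  induction m using Nat.strong_induction_on with
  | _ m IH =>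
  intro a0 a hm
  by_cases hlt : (R p a 0).card < p
  · -- case 1
    have h1 := U0 a0 a hlt
    have h2 := seq_bound p a
    have h3 : 1 + U p a ≤ (R p a 0).card := by
      rcases min_le_iff.1 h2 with h | h
      · omega
      · exact h
    have h4 : (1 + T a0) * (1 + U p a) ≤ (1 + T a0) * (R p a 0).card := Nat.mul_le_mul_left _ h3
    rw [hm] at h1
    refine (min_le_left _ _).trans ?_
    rw [phi_one]
    unfold Linf
    omega
  have hR : (R p a 0).card = p := le_antisymm (hcardle a 0) (not_lt.1 hlt)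
  by_cases hM : 2 * m + 1 ≤ p
  · refine (min_le_right _ _).trans ?_
    rw [phi_small p m (by omega)]
    unfold Linf
    rw [hR]
    have : p ≤ (1 + T a0) * p := Nat.le_mul_of_pos_left _ (by omega)
    omega
  push Not at hM
  have hp0 : 0 < 2 * p := by omega
  set al := (2 * m + 1 + p) / (2 * p) with hal
  have hal1 : 1 ≤ al := by
    rw [hal, Nat.le_div_iff_mul_le hp0]
    omega
  have hal2 : (2 * al - 1) * p ≤ 2 * m + 1 := by
    have h : al * (2 * p) ≤ 2 * m + 1 + p := Nat.div_mul_le_self _ _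
    have h5 : (2 * al - 1) * p = 2 * al * p - p := by rw [Nat.sub_mul, one_mul]
    rw [h5]
    have h6 : 2 * al * p = al * (2 * p) := by ring
    omega
  by_cases h0 : al + 1 ≤ a0
  · obtain ⟨b, rfl⟩ : ∃ b, a0 = b + 1 := ⟨a0 - 1, by omega⟩
    have hI := IH (b + ∑ i ∈ I p, a i) (by omega) b a rfl
    have := U_P0 hodd b a hR (by omega) (by rw [hm]; exact h0) hI
    rw [hm] at this
    exact this
  push Not at h0
  have hne : (I p).Nonempty := by
    unfold I
    rw [Finset.nonempty_Icc]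
    omega
  obtain ⟨i, hi, hmax⟩ := Finset.exists_max_image (I p) a hne
  by_cases hai : 2 * al + 2 ≤ a i
  · by_cases hRf : (R p (Function.update a i (a i - 2)) 0).card < p
    · have := U_P1b hp a0 a i hi hmax (by omega) (by rw [hm]; omega) (by rw [hm]; exact hai) hRf
      rw [hm] at this
      exact (min_le_left _ _).trans this
    · have hRf' := le_antisymm (hcardle _ 0) (not_lt.1 hRf)
      have hs := sum_update p a i hi (by omega)
      have hI := IH (a0 + ∑ l ∈ I p, (Function.update a i (a i - 2)) l) (by omega) a0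
        (Function.update a i (a i - 2)) rfl
      have := U_P1a hodd a0 a i hi (by omega) (by rw [hm]; exact hai) hRf' hI
      rw [hm] at this
      exact this
  push Not at hai
  have hall : ∀ l ∈ I p, a l ≤ 2 * al + 1 := fun l hl => (hmax l hl).trans (by omega)
  rcases Nat.eq_zero_or_pos (zz p a) with hz | hz
  · have := U_z0 (by omega) a0 a (by omega) hz
    rw [hm] at this
    exact this
  by_cases hrho : (R p a (Gam p a)).card = p
  · have := U_rho (by omega) a0 a (by omega) hrho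
    rw [hm] at this
    exact (min_le_right _ _).trans this
  have hrho' : (R p a (Gam p a)).card < p := lt_of_le_of_ne (hcardle _ _) hrho
  have hT : 1 + T (oo p a) < p := by
    rcases min_le_iff.1 (K0 (p := p) a) with h | h
    · omega
    · omega
  have hr := r2_big hp a0 a al hal1 (by omega) hall (by rw [hm]; exact hal2) hT
  have := U_z1 hp a0 a (by omega) hz hr
  rw [hm] at this
  exact this

end SPR
end

section

set_option autoImplicit false

open Finset

namespace SPR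

/-- **Main combinatorial theorem.**  `m = a0 + ∑ a`, `M = 2 m + 1`, `W = 1 + T a0 + Γ`.
`q ≤ 1 + T a0`: `case_A`.  `W ≤ q`: `LL = Linf` (`LL_eq_Linf`) and `thmU`.  `W > q`, `M ≤ q`: `LL ≥ q = φ_q`
(`LL_ge_q`, `phi_small`).  `W > q`, `M > q`: `z = 0`: `R_{Γ-1} = ℤ/p` (`K1u`), `LL = p q` (`LL_full`);
`ρ = p`: `LL = p q` (`c = 0`); else `1 + T o < p` (`K0`): `r2 ≤ sqrt p`: `case_FQ`; `r2 ≥ sqrt p + 1`:
`case_D`. -/
theorem main_comb {p q : ℕ} [Fact p.Prime] (hp : 1000 ≤ p) (hpq : p ≤ q) (a0 : ℕ) (a : ℕ → ℕ)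
    (h0 : a0 ≤ (q - 1) / 2) :
    min (min (phi 1 (a0 + ∑ i ∈ I p, a i)) (phi p (a0 + ∑ i ∈ I p, a i)))
      (min (phi q (a0 + ∑ i ∈ I p, a i)) (p * q)) ≤ LL p q a0 a := by
  by_cases hA : q ≤ 1 + T a0
  · exact (min_le_right _ _).trans (case_A hpq a0 a h0 hA)
  · have hT : T a0 + 2 ≤ q := by omega
    by_cases hW : 1 + T a0 + Gam p a ≤ q
    · rw [LL_eq_Linf q a0 a hW]
      exact (min_le_left _ _).trans (thmU hp (a0 + ∑ i ∈ I p, a i) a0 a rfl)
    · have hW' : q + 1 ≤ 1 + T a0 + Gam p a := by omega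
      by_cases hM : q < 2 * (a0 + ∑ i ∈ I p, a i) + 1
      · by_cases hz : zz p a = 0
        · have h1 := K1u (by omega) a hz
          rw [LL_full q a0 a 1 h1 hW']
          exact (min_le_right _ _).trans (min_le_right _ _)
        · have hz' : 1 ≤ zz p a := Nat.one_le_iff_ne_zero.mpr hz
          by_cases ho : (R p a (Gam p a)).card < p
          · have hK := K0 (p := p) a
            have ho' : 1 + T (oo p a) < p := by
              by_contra hcon
              rw [min_eq_left (by omega)] at hK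
              omega
            by_cases hr : r2 p a ≤ Nat.sqrt p
            · exact (min_le_right _ _).trans (case_FQ hp hpq a0 a h0 hT ho' hr hM)
            · have hD := case_D hp hpq a0 a hW' ho (by omega) hM hz'
              refine le_trans ?_ hD
              exact min_le_min le_rfl (min_le_right _ _)
          · have h1 : R p a (Gam p a - 0) = univ := by
              rw [Nat.sub_zero]
              apply (Finset.card_eq_iff_eq_univ _).mp
              rw [ZMod.card]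
              have h2 : (R p a (Gam p a)).card ≤ Fintype.card (ZMod p) := Finset.card_le_univ _
              rw [ZMod.card] at h2
              omega
            rw [LL_full q a0 a 0 h1 (by omega)]
            exact (min_le_right _ _).trans (min_le_right _ _)
      · have h1 : phi q (a0 + ∑ i ∈ I p, a i) = q := phi_small q _ (by omega)
        have h2 := LL_ge_q q a0 a (by omega : q ≤ 1 + T a0 + Gam p a)
        refine (min_le_right _ _).trans ((min_le_left _ _).trans ?_)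
        rw [h1]
        exact h2

end SPR
end

section

set_option autoImplicit false

open Finset

namespace SPR

/-- Lower bound: every asymmetric `A ⊆ ℤ/pq` has `|Σ A| ≥ φ_h(|A|)` for some divisor `h` of `pq`. -/
theorem lower {p q : ℕ} (hp : p.Prime) (hq : q.Prime) (h1000 : 1000 ≤ p) (hpq : p ≤ q)
    (A : Finset (ZMod (p * q))) (hA : ∀ a ∈ A, -a ∉ A) (hm : A.card ≤ (p * q - 1) / 2) :
    ∃ h, h ∣ p * q ∧ phi h A.card ≤ A.subsetSum.card := by
  haveI : Fact p.Prime := ⟨hp⟩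
  haveI : Fact q.Prime := ⟨hq⟩
  obtain ⟨a0, a, h0, hc, hL⟩ := group_bound p q (by omega) A hA
  have h := main_comb h1000 hpq a0 a h0
  rw [hc] at h
  rw [min_le_iff, min_le_iff, min_le_iff] at h
  rcases h with (h | h) | (h | h)
  · exact ⟨1, one_dvd _, h.trans hL⟩
  · exact ⟨p, dvd_mul_right p q, h.trans hL⟩
  · exact ⟨q, dvd_mul_left q p, h.trans hL⟩
  · exact ⟨p * q, dvd_rfl, by rw [phi_n _ _ hm]; exact h.trans hL⟩

end SPR
end
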