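import Mathlib

/-!
Semiprime moduli `n = p q` (MP_d3cc86_co).  Definitions.

`K` = subgroup of order `q` of `ℤ/pq`, quotient `ℤ/p`; the classes `± i` (`1 ≤ i ≤ (p-1)/2`) of the
quotient are indexed by `I p`; `a i` = number of elements of the asymmetric set `A` in the class
`± i`, `a0` = number of elements of `A` in `K`.
-/

set_option autoImplicit false

open Finset

namespace SPR

/-- Triangular numbers. -/
def T (s : ℕ) : ℕ := s * (s + 1) / 2

/-- `φ_h(m)`, the number of subset sums of the extremal set built on the subgroup of order `h`: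
with `k = m - (h-1)/2` (natural subtraction), `k = Q h + s`, it is
`h (1 + h Q (Q+1)/2 + s (Q+1))`. -/
def phi (h m : ℕ) : ℕ :=
  h * (1 + h * T ((m - (h - 1) / 2) / h) +
    (m - (h - 1) / 2) % h * ((m - (h - 1) / 2) / h + 1))

/-- The nonzero classes `± i` of `ℤ/p`. -/
def I (p : ℕ) : Finset ℕ := Finset.Icc 1 ((p - 1) / 2)

/-- `∑ j_i (a_i - j_i)`. -/
def gain (p : ℕ) (a j : ℕ → ℕ) : ℕ := ∑ i ∈ I p, j i * (a i - j i)

/-- `∑ i j_i` in `ℤ/p`. -/
def pos (p : ℕ) (j : ℕ → ℕ) : ZMod p := ∑ i ∈ I p, (i : ZMod p) * (j i : ZMod p)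

open Classical in
/-- The set of all `t = ∑ i j_i` in `ℤ/p` with `0 ≤ j_i ≤ a_i` and `∑ j_i (a_i - j_i) ≥ v`. -/
noncomputable def R (p : ℕ) [Fact p.Prime] (a : ℕ → ℕ) (v : ℕ) : Finset (ZMod p) :=
  Finset.univ.filter (fun t => ∃ j : ℕ → ℕ, (∀ i ∈ I p, j i ≤ a i) ∧ pos p j = t ∧ v ≤ gain p a j)

/-- The maximum of `gain`. -/
def Gam (p : ℕ) (a : ℕ → ℕ) : ℕ := ∑ i ∈ I p, a i ^ 2 / 4

/-- `∑_{v ≥ 1} |R_v|`. -/
noncomputable def EE (p : ℕ) [Fact p.Prime] (a : ℕ → ℕ) : ℕ :=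
  ∑ v ∈ Finset.Icc 1 (Gam p a), (R p a v).card

/-- The lower bound functional for `|Σ A|`, `A` in `ℤ/pq`. -/
noncomputable def LL (p q : ℕ) [Fact p.Prime] (a0 : ℕ) (a : ℕ → ℕ) : ℕ :=
  ∑ v ∈ Finset.range q, (R p a (v - T a0)).card

/-- The same functional without truncation at `q`. -/
noncomputable def Linf (p : ℕ) [Fact p.Prime] (a0 : ℕ) (a : ℕ → ℕ) : ℕ :=
  (1 + T a0) * (R p a 0).card + EE p a

/-- `∑_l T(s_l)`, `s_l` the number of classes with `f_i > l`. -/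
def U (p : ℕ) (f : ℕ → ℕ) : ℕ :=
  ∑ l ∈ Finset.range (∑ i ∈ I p, f i), T ((I p).filter (fun i => l < f i)).card

/-- number of classes with an odd number of elements -/
def oo (p : ℕ) (a : ℕ → ℕ) : ℕ := ((I p).filter (fun i => a i % 2 = 1)).card

/-- number of nonempty classes with an even number of elements -/
def ee (p : ℕ) (a : ℕ → ℕ) : ℕ := ((I p).filter (fun i => a i % 2 = 0 ∧ a i ≠ 0)).card

/-- number of empty classes -/
def zz (p : ℕ) (a : ℕ → ℕ) : ℕ := ((I p).filter (fun i => a i = 0)).card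

/-- number of classes with at least two elements -/
def r2 (p : ℕ) (a : ℕ → ℕ) : ℕ := ((I p).filter (fun i => 2 ≤ a i)).card

/-- `∑ η_j^2` over all `p` cosets of `K`, `η_j = c_j - 2 al`, `c_0 = 2 a0 + 1`, `c_{± i} = a_i`. -/
def SS (p : ℕ) (a0 : ℕ) (a : ℕ → ℕ) (al : ℤ) : ℤ :=
  (2 * (a0 : ℤ) + 1 - 2 * al) ^ 2 + 2 * ∑ i ∈ I p, ((a i : ℤ) - 2 * al) ^ 2

end SPR
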